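import Mathlib

-- part Pool.Agent.Lib.MP_679d9b_al.Hyper
section

/-!
Coprime action of an elementary abelian group: a hyperplane has fixed points. Norms of commuting
conjugates.
-/

set_option autoImplicit false

namespace Pool.Agent.Lib.MP_679d9b_al

variable {s : ℕ} [Fact s.Prime] {V W : Type} [AddCommGroup V] [Module (ZMod s) V] [CommGroup W]

/-- The stabiliser of `u`. -/
def fixSub (s : ℕ) [Fact s.Prime] [Module (ZMod s) V] (A : V → W →* W) (hA0 : ∀ w, A 0 w = w)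
    (hA : ∀ v v' w, A (v + v') w = A v (A v' w)) (u : W) : Submodule (ZMod s) V where
  carrier := {v | A v u = u}
  zero_mem' := hA0 u
  add_mem' := fun {a b} ha hb => by
    change A (a + b) u = u
    rw [hA, hb, ha]
  smul_mem' := fun c v hv => by
    change A (c • v) u = u
    rw [← ZMod.natCast_zmod_val c, Nat.cast_smul_eq_nsmul]
    induction c.val with
    | zero => rw [zero_smul, hA0]
    | succ n ih => rw [succ_nsmul, hA, hv, ih]

theorem exists_hyper [Finite V] (A : V → W →* W) (hA0 : ∀ w, A 0 w = w)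
    (hA : ∀ v v' w, A (v + v') w = A v (A v' w)) (hW : ∀ w : W, w ^ s = 1 → w = 1)
    (hfix : ∀ w, (∀ v, A v w = w) → w = 1) {w0 : W} (hw0 : w0 ≠ 1) :
    ∃ η : Module.Dual (ZMod s) V, η ≠ 0 ∧ ∃ u, u ≠ 1 ∧ ∀ v, η v = 0 → A v u = u := by
  have : Finite (Submodule (ZMod s) V) := Finite.of_injective _ SetLike.coe_injective
  obtain ⟨B, ⟨u, hu, huB⟩, hmax⟩ := exists_maximal_of_wellFoundedGT
    (fun B : Submodule (ZMod s) V => ∃ u, u ≠ 1 ∧ ∀ v ∈ B, A v u = u)
    ⟨⊥, w0, hw0, fun v hv => by rw [(Submodule.mem_bot _).1 hv, hA0]⟩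
  have hB : B < ⊤ := lt_top_iff_ne_top.2 fun h => hu (hfix u fun v => huB v (h ▸ trivial))
  obtain ⟨η, hη, hker⟩ := Submodule.exists_le_ker_of_lt_top B hB
  refine ⟨η, hη, u, hu, fun b1 hb1 => huB b1 ?_⟩
  by_contra hb1B
  obtain ⟨b2, hb2⟩ : ∃ b2, η b2 ≠ 0 := by
    by_contra h
    push Not at h
    exact hη (LinearMap.ext h)
  have hN : ∀ b, b ∉ B → ∏ j : ZMod s, A (j • b) u = 1 := by
    intro b hb
    by_contra hne
    have h1 : B ≤ fixSub s A hA0 hA (∏ j : ZMod s, A (j • b) u) := fun v hv => by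
      change A v _ = _
      rw [map_prod]
      refine Finset.prod_congr rfl fun j _ => ?_
      rw [← hA, add_comm, hA, huB v hv]
    refine hb (hmax ⟨_, hne, fun v hv => hv⟩ h1 ?_)
    change A b _ = _
    rw [map_prod]
    refine Fintype.prod_equiv (Equiv.addLeft 1) _ _ fun j => ?_
    rw [← hA, Equiv.coe_addLeft, add_smul, one_smul]
  have h1 : ∏ i : ZMod s, ∏ j : ZMod s, A (j • (b2 + i • b1)) u = 1 :=
    Finset.prod_eq_one fun i _ => hN _ fun h => hb2 (by
      have := hker h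
      rwa [LinearMap.mem_ker, map_add, map_smul, hb1, smul_zero, add_zero] at this)
  rw [Finset.prod_comm, Finset.prod_eq_single 0] at h1
  · simp only [zero_smul, hA0, Finset.prod_const, Finset.card_univ, ZMod.card] at h1
    exact hu (hW u h1)
  · intro j _ hj
    have h2 : ∏ i : ZMod s, A (j • (b2 + i • b1)) u =
        A (j • b2) (∏ i : ZMod s, A (i • b1) u) := by
      rw [map_prod]
      refine Fintype.prod_equiv (Equiv.mulLeft₀ j hj) _ _ fun i => ?_
      rw [smul_add, hA, smul_smul]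
      rfl
    rw [h2, hN b1 hb1B, map_one]
  · simp

theorem exists_norm {X F : Type} [Group X] [Group F] [Fintype F] (φ : F →* MulAut X) (x : X)
    (h : ∀ f g, Commute (φ f x) (φ g x)) :
    ∃ c, (∀ f, φ f c = c) ∧ ∀ ϖ : X →* W, ϖ c = ∏ f, ϖ (φ f x) := by
  have hc : ((Finset.univ : Finset F) : Set F).Pairwise (Function.onFun Commute fun f => φ f x) :=
    fun f _ g _ _ => h f g
  refine ⟨Finset.univ.noncommProd (fun f => φ f x) hc, fun g => ?_, fun ϖ => ?_⟩
  · rw [Finset.map_noncommProd]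
    have key : ∀ (a b : Multiset X) (_ : a = b) ha hb, a.noncommProd ha = b.noncommProd hb := by
      intro a b hab ha hb
      subst hab
      rfl
    refine key _ _ ?_ _ _
    conv_rhs => rw [← Multiset.map_univ_val_equiv (Equiv.mulLeft g), Multiset.map_map]
    refine Multiset.map_congr rfl fun f _ => ?_
    simp
  · rw [Finset.map_noncommProd, Finset.noncommProd_eq_prod]

end Pool.Agent.Lib.MP_679d9b_al
end

-- part Pool.Agent.Lib.MP_679d9b_al.AltPerm
section

/-!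
Alternating groups on subsets.  A subgroup of a symmetric group which meets every conjugate of a
small group of permutations of large degree contains the alternating group on almost all points.
-/

set_option autoImplicit false

namespace Pool.Agent.Lib.MP_679d9b_al.Alt

open Equiv Equiv.Perm Finset
open scoped commutatorElement

variable {Ω : Type} [Fintype Ω] [DecidableEq Ω]

/-- The even permutations fixing every point outside `Δ`. -/
def AltOn (Δ : Finset Ω) : Subgroup (Perm Ω) where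
  carrier := {σ | sign σ = 1 ∧ ∀ a, a ∉ Δ → σ a = a}
  one_mem' := ⟨sign_one, fun _ _ => rfl⟩
  mul_mem' := fun {σ τ} hσ hτ => ⟨by rw [Perm.sign_mul, hσ.1, hτ.1, mul_one], fun a ha => by
    rw [Perm.mul_apply, hτ.2 a ha, hσ.2 a ha]⟩
  inv_mem' := fun {σ} hσ => ⟨by rw [sign_inv, hσ.1], fun a ha => by
    rw [Perm.inv_eq_iff_eq, hσ.2 a ha]⟩

theorem mem_altOn {Δ : Finset Ω} {σ : Perm Ω} :
    σ ∈ AltOn Δ ↔ sign σ = 1 ∧ ∀ a, a ∉ Δ → σ a = a := Iff.rfl

theorem altOn_le (Δ : Finset Ω) : AltOn Δ ≤ alternatingGroup Ω := fun _ h => h.1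

theorem altOn_maps {Δ : Finset Ω} {σ : Perm Ω} (h : σ ∈ AltOn Δ) {a : Ω} (ha : a ∈ Δ) :
    σ a ∈ Δ := by
  by_contra h1
  exact h1 ((σ.injective (h.2 _ h1)).symm ▸ ha)

theorem altOn_conj {Δ Δ' : Finset Ω} {g σ : Perm Ω} (hg : ∀ a ∈ Δ, g a ∈ Δ')
    (h : σ ∈ AltOn Δ) : g * σ * g⁻¹ ∈ AltOn Δ' := by
  refine ⟨by rw [Perm.sign_mul, Perm.sign_mul, sign_inv, h.1, mul_one, Int.units_mul_self],
    fun a ha => ?_⟩
  have : g⁻¹ a ∉ Δ := fun h1 => ha (by simpa using hg _ h1)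
  rw [Perm.mul_apply, Perm.mul_apply, h.2 _ this]
  simp

theorem swap2_mem {Δ : Finset Ω} {a b c d : Ω} (ha : a ∈ Δ) (hb : b ∈ Δ) (hc : c ∈ Δ)
    (hd : d ∈ Δ) (hab : a ≠ b) (hcd : c ≠ d) : swap a b * swap c d ∈ AltOn Δ := by
  refine ⟨by simp [sign_swap hab, sign_swap hcd], fun y hy => ?_⟩
  rw [Perm.mul_apply, swap_apply_of_ne_of_ne (ne_of_mem_of_not_mem hc hy).symm
    (ne_of_mem_of_not_mem hd hy).symm, swap_apply_of_ne_of_ne (ne_of_mem_of_not_mem ha hy).symm
    (ne_of_mem_of_not_mem hb hy).symm]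

theorem altOn_simple {Δ : Finset Ω} (h5 : 5 ≤ #Δ) {N : Subgroup (Perm Ω)}
    (hN : ∀ σ ∈ AltOn Δ, ∀ τ ∈ N, σ * τ * σ⁻¹ ∈ N) {τ : Perm Ω} (hτ : τ ∈ N) (hτ' : τ ∈ AltOn Δ)
    (h1 : τ ≠ 1) : AltOn Δ ≤ N := by
  let θ : alternatingGroup Δ →* Perm Ω :=
    (alternatingGroup Ω).subtype.comp (alternatingGroup.ofSubtype Δ)
  have hθ : ∀ σ, σ ∈ AltOn Δ ↔ ∃ k, θ k = σ := by
    intro σ
    constructor
    · intro h
      obtain ⟨k, hk⟩ := (alternatingGroup.mem_range_ofSubtype_iff Δ ⟨σ, h.1⟩).2 fun a ha => by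
        by_contra h2
        exact mem_support.1 ha (h.2 a h2)
      exact ⟨k, congrArg Subtype.val hk⟩
    · rintro ⟨k, rfl⟩
      refine ⟨(alternatingGroup.ofSubtype Δ k).2, fun a ha => ?_⟩
      by_contra h2
      exact ha ((alternatingGroup.mem_range_ofSubtype_iff Δ _).1 ⟨k, rfl⟩ (mem_support.2 h2))
  have := alternatingGroup.isSimpleGroup (α := Δ) (by simpa using h5)
  have hn : (N.comap θ).Normal := ⟨fun t ht k => by
    rw [Subgroup.mem_comap, map_mul, map_mul, map_inv]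
    exact hN _ ((hθ _).2 ⟨k, rfl⟩) _ ht⟩
  obtain ⟨k, rfl⟩ := (hθ τ).1 hτ'
  rcases hn.eq_bot_or_eq_top with h | h
  · have : k ∈ N.comap θ := hτ
    rw [h, Subgroup.mem_bot] at this
    exact absurd (by rw [this, map_one]) h1
  · intro σ hσ
    obtain ⟨k', rfl⟩ := (hθ σ).1 hσ
    have : k' ∈ N.comap θ := by rw [h]; trivial
    exact this

theorem exists_noncomm {Δ : Finset Ω} (h4 : 4 ≤ #Δ) :
    ∃ σ ∈ AltOn Δ, ∃ τ ∈ AltOn Δ, ∃ a ∈ Δ, σ (τ a) ≠ τ (σ a) := by
  obtain ⟨t, ht, hc⟩ := exists_subset_card_eq h4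
  obtain ⟨a, t', ha, rfl, hc'⟩ := card_eq_succ.1 hc
  obtain ⟨b, c, d, hbc, hbd, hcd, rfl⟩ := card_eq_three.1 hc'
  simp only [mem_insert, mem_singleton, not_or] at ha
  have m : ∀ y ∈ insert a ({b, c, d} : Finset Ω), y ∈ Δ := fun y hy => ht hy
  refine ⟨_, swap2_mem (m a (by simp)) (m b (by simp)) (m a (by simp)) (m c (by simp)) ha.1 ha.2.1,
    _, swap2_mem (m a (by simp)) (m b (by simp)) (m a (by simp)) (m d (by simp)) ha.1 ha.2.2,
    a, m a (by simp), ?_⟩
  simp [swap_apply_of_ne_of_ne, Ne.symm ha.2.1, Ne.symm ha.2.2, hbc.symm, hbd.symm, hcd, hcd.symm]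

theorem altOn_perfect {Δ : Finset Ω} (h5 : 5 ≤ #Δ) : AltOn Δ ≤ ⁅AltOn Δ, AltOn Δ⁆ := by
  obtain ⟨σ, hσ, τ, hτ, a, _, h⟩ := exists_noncomm (Δ := Δ) (by omega)
  refine altOn_simple h5 (fun g hg t ht => ?_) (Subgroup.commutator_mem_commutator hσ hτ)
    (mul_mem (mul_mem (mul_mem hσ hτ) (inv_mem hσ)) (inv_mem hτ)) fun h1 => h ?_
  · have h2 : (⁅AltOn Δ, AltOn Δ⁆ : Subgroup (Perm Ω)).map (MulAut.conj g).toMonoidHom ≤
        ⁅AltOn Δ, AltOn Δ⁆ := by
      have h3 : (AltOn Δ).map (MulAut.conj g).toMonoidHom ≤ AltOn Δ := by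
        rintro _ ⟨y, hy, rfl⟩
        exact mul_mem (mul_mem hg hy) (inv_mem hg)
      rw [Subgroup.map_commutator]
      exact Subgroup.commutator_mono h3 h3
    exact h2 ⟨t, ht, rfl⟩
  · rw [← Perm.mul_apply, ← Perm.mul_apply, (commutatorElement_eq_one_iff_commute.1 h1).eq]

theorem altOn_le_of_pivot {S : Subgroup (Perm Ω)} {Δ : Finset Ω} (z w : Ω)
    (h : ∀ b ∈ Δ, b ≠ z → swap z w * swap z b ∈ S) : AltOn Δ ≤ S := by
  have h1 : ∀ a ∈ Δ, ∀ b ∈ Δ, a ≠ b → swap z w * swap a b ∈ S := by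
    intro a ha b hb hab
    by_cases haz : a = z
    · rw [haz]
      exact h b hb (haz ▸ hab.symm)
    by_cases hbz : b = z
    · rw [hbz, swap_comm a]
      exact h a ha haz
    have e : swap z w * swap a b =
        (swap z w * swap z a) * (swap z w * swap z b)⁻¹ * (swap z w * swap z a) := by
      have := swap_mul_swap_mul_swap (x := b) (y := z) (z := a) hbz hab.symm
      rw [← this, swap_comm b z]
      simp [mul_assoc]
    rw [e]
    exact mul_mem (mul_mem (h a ha haz) (inv_mem (h b hb hbz))) (h a ha haz)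
  have h2 : ∀ n, ∀ σ : Perm Ω, #σ.support = n → (∀ a, a ∉ Δ → σ a = a) →
      (sign σ = 1 → σ ∈ S) ∧ (sign σ = -1 → swap z w * σ ∈ S) := by
    intro n
    induction n using Nat.strong_induction_on with
    | _ n ih =>
      intro σ hn hσ
      by_cases h0 : σ = 1
      · subst h0
        exact ⟨fun _ => one_mem _, fun h => by simp at h⟩
      obtain ⟨a, ha⟩ : ∃ a, σ a ≠ a := by
        by_contra hh
        push Not at hh
        exact h0 (Equiv.ext hh)
      have haΔ : a ∈ Δ := by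
        by_contra hh
        exact ha (hσ a hh)
      have hσa : σ a ∈ Δ := by
        by_contra hh
        exact ha (σ.injective (hσ _ hh))
      have h3 := ih _ (hn ▸ card_support_swap_mul ha) (swap a (σ a) * σ) rfl fun y hy => by
        rw [Perm.mul_apply, hσ y hy, swap_apply_of_ne_of_ne (ne_of_mem_of_not_mem haΔ hy).symm
          (ne_of_mem_of_not_mem hσa hy).symm]
      have h4 := h1 a haΔ _ hσa ha.symm
      rw [Perm.sign_mul, sign_swap ha.symm] at h3
      constructor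
      · intro hs
        have := mul_mem (inv_mem h4) (h3.2 (by rw [hs]; simp))
        simpa [mul_assoc] using this
      · intro hs
        have := mul_mem h4 (h3.1 (by rw [hs]; simp))
        simpa [mul_assoc] using this
  exact fun σ hσ => (h2 _ σ rfl hσ.2).1 hσ.1

theorem altOn_union {S : Subgroup (Perm Ω)} {Δ Δ' : Finset Ω} (h : AltOn Δ ≤ S)
    (h' : AltOn Δ' ≤ S) {z w : Ω} (hzw : z ≠ w) (hz : z ∈ Δ) (hz' : z ∈ Δ') (hw : w ∈ Δ)
    (hw' : w ∈ Δ') : AltOn (Δ ∪ Δ') ≤ S :=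
  altOn_le_of_pivot z w fun b hb hbz => by
    rcases mem_union.1 hb with hb | hb
    · exact h (swap2_mem hz hw hz hb hzw hbz.symm)
    · exact h' (swap2_mem hz' hw' hz' hb hzw hbz.symm)

/-- Many points moved by `f` whose images are different from all of them. -/
theorem exists_free (f : Perm Ω) (Δ : Finset Ω) (k : ℕ) (h : 3 * k ≤ #(f.support ∩ Δ)) :
    ∃ A ⊆ f.support ∩ Δ, #A = k ∧ ∀ a ∈ A, f a ∉ A := by
  induction k with
  | zero => exact ⟨∅, empty_subset _, rfl, by simp⟩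
  | succ k ih =>
    obtain ⟨A, hA, hc, hf⟩ := ih (by omega)
    have h1 : #(A ∪ A.image f ∪ A.image f.symm) < #(f.support ∩ Δ) := by
      have a1 := card_union_le (A ∪ A.image f) (A.image f.symm)
      have a2 := card_union_le A (A.image f)
      have a3 := card_image_le (s := A) (f := f)
      have a4 := card_image_le (s := A) (f := f.symm)
      omega
    obtain ⟨a, ha, ha'⟩ := exists_mem_notMem_of_card_lt_card h1
    simp only [mem_union, mem_image, not_or, not_exists, not_and] at ha'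
    refine ⟨insert a A, insert_subset ha hA, by rw [card_insert_of_notMem ha'.1.1, hc], ?_⟩
    intro b hb hfb
    rcases mem_insert.1 hb with rfl | hb
    · rcases mem_insert.1 hfb with h2 | h2
      · exact mem_support.1 (mem_inter.1 ha).1 h2
      · exact ha'.2 _ h2 (by simp)
    · rcases mem_insert.1 hfb with h2 | h2
      · exact ha'.1.2 b hb h2
      · exact hf b hb h2

theorem comm_mem {G : Type} [Group G] {S : Subgroup G} {α α' β β' : G} (h : α * α' ∈ S)
    (h' : β * β' ∈ S) (c1 : Commute α' β) (c2 : Commute α' β') (c3 : Commute β' α) :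
    α * β * α⁻¹ * β⁻¹ ∈ S := by
  have e : α * β * α⁻¹ * β⁻¹ = α * α' * (β * β') * (α * α')⁻¹ * (β * β')⁻¹ := by
    have e1 : α' * (β * β') * α'⁻¹ = β * β' := by
      rw [(c1.mul_right c2).eq, mul_inv_cancel_right]
    have e2 : β' * α⁻¹ * β'⁻¹ = α⁻¹ := by rw [c3.inv_right.eq, mul_inv_cancel_right]
    calc α * β * α⁻¹ * β⁻¹ = α * β * (β' * α⁻¹ * β'⁻¹) * β⁻¹ := by rw [e2]
      _ = α * (α' * (β * β') * α'⁻¹) * α⁻¹ * β'⁻¹ * β⁻¹ := by rw [e1]; group
      _ = _ := by group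
  rw [e]
  exact mul_mem (mul_mem (mul_mem h h') (inv_mem h)) (inv_mem h')

omit [Fintype Ω] in
theorem commute_swap {a b c d : Ω} (h1 : a ≠ c) (h2 : a ≠ d) (h3 : b ≠ c) (h4 : b ≠ d) :
    Commute (swap a b) (swap c d) := by
  rw [Commute, SemiconjBy, mul_swap_eq_swap_mul, swap_apply_of_ne_of_ne h1.symm h3.symm,
    swap_apply_of_ne_of_ne h2.symm h4.symm]

omit [Fintype Ω] in
theorem three_cycle {z i j k l : Ω} (hi : i ≠ z) (hj : j ≠ z) (hk : k ≠ z) (hl : l ≠ z)
    (hij : i ≠ j) (hik : i ≠ k) (hil : i ≠ l) (hjk : j ≠ k) (hjl : j ≠ l) (hkl : k ≠ l) :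
    (swap z i * swap z j) * (swap z k * swap z l) * (swap z i * swap z j)⁻¹ *
      (swap z k * swap z l)⁻¹ = swap z l * swap z j := by
  ext y
  simp only [mul_inv_rev, swap_inv, Perm.mul_apply, swap_apply_def]
  grind

/-- Two rich rows of conjugates give an alternating group on the first row. -/
theorem two_rows {S : Subgroup (Perm Ω)} {f : Perm Ω} {z b b' : Ω} {A Y Y' : Finset Ω}
    (hz : z ∈ A) (hA : ∀ a ∈ A, f a ∉ A) (hY : Y ⊆ A.erase z) (hY' : Y' ⊆ A.erase z)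
    (hb : b ∉ A ∪ A.image f) (hb' : b' ∉ A ∪ A.image f) (hbb : b ≠ b') (h4 : 4 ≤ #Y)
    (h4' : 4 ≤ #Y')
    (h : ∀ i ∈ Y, (swap z i * swap (f z) b) * f * (swap z i * swap (f z) b)⁻¹ ∈ S)
    (h' : ∀ i ∈ Y', (swap z i * swap (f z) b') * f * (swap z i * swap (f z) b')⁻¹ ∈ S) :
    AltOn (insert z Y) ≤ S := by
  have nA : ∀ a ∈ A, ∀ a' ∈ A, a ≠ f a' := fun a ha a' ha' e => hA a' ha' (e ▸ ha)
  have row : ∀ c, c ∉ A ∪ A.image f → ∀ i ∈ A.erase z, ∀ j ∈ A.erase z,
      (swap z i * swap (f z) c) * f * (swap z i * swap (f z) c)⁻¹ ∈ S →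
      (swap z j * swap (f z) c) * f * (swap z j * swap (f z) c)⁻¹ ∈ S →
      (swap z i * swap z j) * (swap c (f i) * swap c (f j)) ∈ S := by
    intro c hc i hi j hj h1 h2
    simp only [mem_union, mem_image, not_or, not_exists, not_and] at hc
    have n1 : ∀ a ∈ A, a ≠ c := fun a ha e => hc.1 (e ▸ ha)
    have e : ∀ a ∈ A.erase z, (swap (f z) c * f * (swap (f z) c)⁻¹) * swap z a *
        (swap (f z) c * f * (swap (f z) c)⁻¹)⁻¹ = swap c (f a) := by
      intro a ha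
      obtain ⟨haz, ha⟩ := mem_erase.1 ha
      rw [← swap_apply_apply]
      simp only [swap_inv, Perm.mul_apply]
      rw [swap_apply_of_ne_of_ne (nA z hz z hz) (n1 z hz), swap_apply_left,
        swap_apply_of_ne_of_ne (nA a ha z hz) (n1 a ha),
        swap_apply_of_ne_of_ne (f.injective.ne haz) (hc.2 a ha)]
    have c1 : ∀ a ∈ A, Commute (swap z j) (swap c (f a)) := fun a ha =>
      commute_swap (n1 z hz) (nA z hz a ha) (n1 j (mem_erase.1 hj).2) (nA j (mem_erase.1 hj).2 a ha)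
    have c2 := ((c1 i (mem_erase.1 hi).2).mul_right (c1 j (mem_erase.1 hj).2)).eq
    have e2 : (swap z i * swap z j) * (swap c (f i) * swap c (f j)) =
        (swap z i * swap (f z) c) * f * (swap z i * swap (f z) c)⁻¹ *
          ((swap z j * swap (f z) c) * f * (swap z j * swap (f z) c)⁻¹)⁻¹ := by
      rw [mul_assoc, c2, ← e i hi, ← e j hj]
      simp [mul_assoc]
    rw [e2]
    exact mul_mem h1 (inv_mem h2)
  have key : ∀ j ∈ Y, ∀ l ∈ Y', j ≠ l → swap z l * swap z j ∈ S := by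
    intro j hj l hl hjl
    obtain ⟨i, hi, hi'⟩ := exists_mem_notMem_of_card_lt_card
      (show #({j, l} : Finset Ω) < #Y from card_le_two.trans_lt (by omega))
    obtain ⟨k, hk, hk'⟩ := exists_mem_notMem_of_card_lt_card
      (show #({i, j, l} : Finset Ω) < #Y' from card_le_three.trans_lt (by omega))
    simp only [mem_insert, mem_singleton, not_or] at hi' hk'
    have u := row b hb i (hY hi) j (hY hj) (h i hi) (h j hj)
    have v := row b' hb' k (hY' hk) l (hY' hl) (h' k hk) (h' l hl)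
    obtain ⟨i1, i2⟩ := mem_erase.1 (hY hi)
    obtain ⟨j1, j2⟩ := mem_erase.1 (hY hj)
    obtain ⟨k1, k2⟩ := mem_erase.1 (hY' hk)
    obtain ⟨l1, l2⟩ := mem_erase.1 (hY' hl)
    simp only [mem_union, mem_image, not_or, not_exists, not_and] at hb hb'
    have cs : ∀ c, c ∉ A → ∀ a ∈ A, ∀ a' ∈ A, Commute (swap c (f a)) (swap z a') :=
      fun c hc a ha a' ha' => commute_swap (ne_of_mem_of_not_mem hz hc).symm
        (ne_of_mem_of_not_mem ha' hc).symm (nA z hz a ha).symm (nA a' ha' a ha).symm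
    have ct : ∀ a ∈ A, ∀ a' ∈ A, a ≠ a' → Commute (swap b (f a)) (swap b' (f a')) :=
      fun a ha a' ha' hne => commute_swap hbb (fun e => hb.2 a' ha' e.symm) (hb'.2 a ha)
        (f.injective.ne hne)
    rw [← three_cycle i1 j1 k1 l1 hi'.1 (Ne.symm hk'.1) hi'.2 (Ne.symm hk'.2.1) hjl hk'.2.2]
    refine comm_mem u v ?_ ?_ ?_
    · exact ((cs b hb.1 i i2 k k2).mul_right (cs b hb.1 i i2 l l2)).mul_left
        ((cs b hb.1 j j2 k k2).mul_right (cs b hb.1 j j2 l l2))
    · exact ((ct i i2 k k2 (Ne.symm hk'.1)).mul_right (ct i i2 l l2 hi'.2)).mul_left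
        ((ct j j2 k k2 (Ne.symm hk'.2.1)).mul_right (ct j j2 l l2 hjl))
    · exact ((cs b' hb'.1 k k2 i i2).mul_right (cs b' hb'.1 k k2 j j2)).mul_left
        ((cs b' hb'.1 l l2 i i2).mul_right (cs b' hb'.1 l l2 j j2))
  obtain ⟨w, hw⟩ : Y.Nonempty := card_pos.1 (by omega)
  refine altOn_le_of_pivot z w fun j hj hjz => ?_
  have hj' : j ∈ Y := (mem_insert.1 hj).resolve_left hjz
  obtain ⟨l, hl, hl'⟩ := exists_mem_notMem_of_card_lt_card
    (show #({w, j} : Finset Ω) < #Y' from card_le_two.trans_lt (by omega))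
  simp only [mem_insert, mem_singleton, not_or] at hl'
  have := mul_mem (inv_mem (key w hw l hl (Ne.symm hl'.1))) (key j hj' l hl (Ne.symm hl'.2))
  simpa [mul_assoc] using this

theorem seed (S : Subgroup (Perm Ω)) (Φ : Finset (Perm Ω)) (c d : ℕ) (hc : #Φ ≤ c) (hd : 4 ≤ d)
    (hdeg : ∀ f ∈ Φ, 3 * (c * d + 2) ≤ #f.support)
    (h : ∀ g, sign g = 1 → ∃ f ∈ Φ, g * f * g⁻¹ ∈ S) : ∃ Δ, d ≤ #Δ ∧ AltOn Δ ≤ S := by
  classical
  set Al : Finset (Perm Ω) := {g | sign g = 1} with hAl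
  have hAlne : Al.Nonempty := ⟨1, by simp [hAl]⟩
  obtain ⟨f, hf, hfc⟩ : ∃ f ∈ Φ, #Al ≤ c * #{g ∈ Al | g * f * g⁻¹ ∈ S} := by
    obtain ⟨f0, hf0, -⟩ := h 1 sign_one
    have h1 : #Al ≤ ∑ f ∈ Φ, #{g ∈ Al | g * f * g⁻¹ ∈ S} := by
      refine le_trans (card_le_card fun g hg => ?_) card_biUnion_le
      obtain ⟨f, hf, hfg⟩ := h g (by simpa [hAl] using hg)
      exact mem_biUnion.2 ⟨f, hf, mem_filter.2 ⟨hg, hfg⟩⟩
    apply exists_le_of_sum_le ⟨f0, hf0⟩
    rw [sum_const, smul_eq_mul, ← mul_sum]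
    exact Nat.mul_le_mul hc h1
  set k := c * d + 1 with hk
  obtain ⟨A, hA, hAc, hAf⟩ := exists_free f univ (k + 1) (by simpa using hdeg f hf)
  obtain ⟨z, hz⟩ : A.Nonempty := card_pos.1 (by omega)
  obtain ⟨B, hB, hBc⟩ : ∃ B ⊆ (A ∪ A.image f)ᶜ, #B = k := by
    apply exists_subset_card_eq
    have a1 := card_union_le A (A.image f)
    have a2 := card_image_le (s := A) (f := f)
    have a3 := (hdeg f hf).trans (card_le_univ _)
    rw [card_compl]
    omega
  have hI : #(A.erase z) = k := by rw [card_erase_of_mem hz, hAc]; rfl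
  let γ : Ω → Ω → Perm Ω := fun b i => swap z i * swap (f z) b
  have hγ : ∀ b ∈ B, ∀ i ∈ A.erase z, sign (γ b i) = 1 := by
    intro b hb i hi
    have h1 : f z ≠ b := fun e => mem_compl.1 (hB hb)
      (mem_union_right _ (e ▸ mem_image_of_mem _ hz))
    simp [γ, sign_swap (mem_erase.1 hi).1.symm, sign_swap h1]
  let Y : Perm Ω → Ω → Finset Ω := fun g b =>
    {i ∈ A.erase z | (g * γ b i) * f * (g * γ b i)⁻¹ ∈ S}
  obtain ⟨g, -, hg⟩ : ∃ g ∈ Al, k * k ≤ c * ∑ b ∈ B, #(Y g b) := by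
    apply exists_le_of_sum_le hAlne
    have h1 : ∑ g ∈ Al, ∑ b ∈ B, #(Y g b) = k * (k * #{g ∈ Al | g * f * g⁻¹ ∈ S}) := by
      rw [sum_comm, ← hBc, ← smul_eq_mul, ← sum_const, hBc]
      refine sum_congr rfl fun b hb => ?_
      simp only [Y, card_filter]
      rw [sum_comm, ← hI, ← smul_eq_mul, ← sum_const]
      refine sum_congr rfl fun i hi => ?_
      refine sum_bij' (fun g _ => g * γ b i) (fun g _ => g * (γ b i)⁻¹) (fun g hg => ?_)
        (fun g hg => ?_) (fun g _ => by simp) (fun g _ => by simp) fun g _ => rfl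
      · simp only [hAl, mem_filter, mem_univ, true_and] at hg ⊢
        rw [Perm.sign_mul, hg, hγ b hb i hi, mul_one]
      · simp only [hAl, mem_filter, mem_univ, true_and] at hg ⊢
        rw [Perm.sign_mul, sign_inv, hg, hγ b hb i hi, mul_one]
    rw [sum_const, smul_eq_mul, ← mul_sum, h1]
    calc #Al * (k * k) ≤ c * #{g ∈ Al | g * f * g⁻¹ ∈ S} * (k * k) := Nat.mul_le_mul_right _ hfc
      _ = _ := by ring
  obtain ⟨b, hb, b', hb', hbb⟩ : ∃ b ∈ {b ∈ B | d ≤ #(Y g b)}, ∃ b' ∈ {b ∈ B | d ≤ #(Y g b)},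
      b ≠ b' := by
    apply one_lt_card.1
    by_contra h1
    have h2 : ∑ b ∈ B, #(Y g b) ≤ k + k * (d - 1) := by
      rw [← sum_filter_add_sum_filter_not B fun b => d ≤ #(Y g b)]
      apply Nat.add_le_add
      · refine (sum_le_card_nsmul _ _ k fun b _ => hI ▸ card_filter_le _ _).trans ?_
        rw [smul_eq_mul]
        exact (Nat.mul_le_mul_right _ (not_lt.1 h1)).trans (by omega)
      · refine (sum_le_card_nsmul _ _ (d - 1) fun b hb => by
          have := (mem_filter.1 hb).2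
          omega).trans ?_
        rw [smul_eq_mul]
        exact Nat.mul_le_mul_right _ (hBc ▸ card_filter_le _ _)
    have h3 : k + k * (d - 1) = k * d := by
      obtain ⟨d', rfl⟩ : ∃ d', d = d' + 1 := ⟨d - 1, by omega⟩
      rw [Nat.add_sub_cancel]
      ring
    have h4 := hg.trans (Nat.mul_le_mul_left c (h3 ▸ h2))
    have h5 : k ≤ c * d := by
      apply Nat.le_of_mul_le_mul_left _ (show 0 < k by omega)
      calc k * k ≤ c * (k * d) := h4
        _ = _ := by ring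
    omega
  obtain ⟨hb1, hb2⟩ := mem_filter.1 hb
  obtain ⟨hb1', hb2'⟩ := mem_filter.1 hb'
  have hS : AltOn (insert z (Y g b)) ≤ S.comap (MulAut.conj g).toMonoidHom :=
    two_rows hz hAf (filter_subset _ _) (filter_subset _ _) (mem_compl.1 (hB hb1))
      (mem_compl.1 (hB hb1')) hbb (hd.trans hb2) (hd.trans hb2')
      (fun i hi => by simpa [γ, mul_assoc] using (mem_filter.1 hi).2)
      (fun i hi => by simpa [γ, mul_assoc] using (mem_filter.1 hi).2)
  refine ⟨(insert z (Y g b)).image g, ?_, fun σ hσ => ?_⟩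
  · rw [card_image_of_injective _ g.injective]
    exact hb2.trans (card_le_card (subset_insert _ _))
  · have := hS (altOn_conj (g := g⁻¹) (Δ' := insert z (Y g b)) (fun a ha => by
      obtain ⟨a', ha', rfl⟩ := mem_image.1 ha
      simpa using ha') hσ)
    simpa [mul_assoc] using this

/-- The degree bound used below. -/
def bd (c : ℕ) : ℕ := 3 * (c * (2 * c + 4) + 2)

theorem giant {F : Type} [Group F] [Fintype F] (ι : F →* Perm Ω) (S : Subgroup (Perm Ω)) (a : Ω)
    (e : F) (he : e ≠ 1) (hea : ι e a = a)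
    (hdeg : ∀ f, f ≠ 1 → bd (Fintype.card F) ≤ #(ι f).support)
    (h : ∀ g, sign g = 1 → (∃ f, g * ι f * g⁻¹ ∈ S ∧ ι f a ≠ a) ∨ g * ι e * g⁻¹ ∈ S) :
    ∃ Δ : Finset Ω, #Δᶜ ≤ 1 ∧ AltOn Δ ≤ S ∧ ∀ σ ∈ S, ∀ y ∈ Δ, σ y ∈ Δ := by
  classical
  set c := Fintype.card F with hc
  obtain ⟨Δ0, h0, h0'⟩ := seed S ((univ.erase 1).image ι) c (2 * c + 4)
    (card_image_le.trans ((card_erase_le).trans le_rfl)) (by omega)
    (fun f hf => by
      obtain ⟨f', hf', rfl⟩ := mem_image.1 hf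
      exact hdeg f' (mem_erase.1 hf').1)
    (fun g hg => by
      rcases h g hg with ⟨f, h1, h2⟩ | h1
      · exact ⟨_, mem_image_of_mem _ (mem_erase.2 ⟨fun h3 => h2 (by simp [h3]), mem_univ _⟩), h1⟩
      · exact ⟨_, mem_image_of_mem _ (mem_erase.2 ⟨he, mem_univ _⟩), h1⟩)
  obtain ⟨Δ, hΔ, hmax⟩ := exists_max_image {Δ : Finset Ω | AltOn Δ ≤ S} card ⟨Δ0, by simpa⟩
  simp only [mem_filter, mem_univ, true_and] at hΔ hmax
  have hbig : 2 * c + 4 ≤ #Δ := h0.trans (hmax _ h0')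
  have inv : ∀ σ ∈ S, ∀ y ∈ Δ, ∀ y' ∈ Δ, y ≠ y' → σ y ∈ Δ → σ y' ∈ Δ → ∀ u ∈ Δ, σ u ∈ Δ := by
    intro σ hσ y hy y' hy' hne h1 h2 u hu
    have h3 : AltOn (Δ.image σ) ≤ S := fun τ hτ => by
      have := hΔ (altOn_conj (g := σ⁻¹) (Δ' := Δ) (fun a ha => by
        obtain ⟨a', ha', rfl⟩ := mem_image.1 ha
        simpa using ha') hτ)
      simpa [mul_assoc] using mul_mem (mul_mem hσ this) (inv_mem hσ)
    have h4 := hmax _ (altOn_union hΔ h3 (σ.injective.ne hne) h1 (mem_image_of_mem _ hy) h2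
      (mem_image_of_mem _ hy'))
    rw [eq_of_subset_of_card_le subset_union_left h4]
    exact mem_union_right _ (mem_image_of_mem _ hu)
  have hT : #Δᶜ ≤ 1 := by
    by_contra hT
    let O : Ω → Finset Ω := fun y => univ.image fun f => ι f y
    have hO : ∀ y, #(O y) ≤ c := fun y => card_image_le
    have hO1 : ∀ y, y ∈ O y := fun y => mem_image.2 ⟨1, mem_univ _, by simp⟩
    have hO2 : ∀ y u f, ι f u ∈ O y ↔ u ∈ O y := by
      have : ∀ y u f, u ∈ O y → ι f u ∈ O y := by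
        intro y u f hu
        obtain ⟨f', -, rfl⟩ := mem_image.1 hu
        exact mem_image.2 ⟨f * f', mem_univ _, by simp⟩
      exact fun y u f => ⟨fun h => by simpa using this y _ f⁻¹ h, this y u f⟩
    have hO3 : ∀ y u, u ∈ O y → y ∈ O u := by
      intro y u hu
      obtain ⟨f', -, rfl⟩ := mem_image.1 hu
      exact mem_image.2 ⟨f'⁻¹, mem_univ _, by simp⟩
    have hde := hdeg e he
    unfold bd at hde
    obtain ⟨b, hb, hb'⟩ := exists_mem_notMem_of_card_lt_card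
      (show #(O a) < #(ι e).support by nlinarith [hO a])
    obtain ⟨b', hb1, hb2⟩ := exists_mem_notMem_of_card_lt_card
      (show #(O a ∪ O b) < #(ι e).support by nlinarith [hO a, hO b, card_union_le (O a) (O b)])
    rw [mem_union, not_or] at hb2
    set Z := insert (ι e b) ((O a).erase a ∪ O b') with hZ
    have hZc : #Z ≤ 2 * c + 1 := by
      have a1 : #Z ≤ _ := card_insert_le (ι e b) ((O a).erase a ∪ O b')
      have a2 := card_union_le ((O a).erase a) (O b')
      have a3 := card_erase_le (s := O a) (a := a)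
      have := hO a
      have := hO b'
      omega
    obtain ⟨T, hT1, hT2, hT3⟩ := exists_subsuperset_card_eq (s := {a, b}) (t := Zᶜ) (n := #Δᶜ)
      (by
        intro y hy
        simp only [mem_insert, mem_singleton] at hy
        simp only [hZ, mem_compl, mem_insert, mem_union, mem_erase, not_or]
        rcases hy with rfl | rfl
        · exact ⟨fun h1 => hb' ((hO2 _ _ e).1 (h1 ▸ hO1 y)), fun h1 => h1.1 rfl,
            fun h1 => hb2.1 (hO3 _ _ h1)⟩
        · exact ⟨fun h1 => mem_support.1 hb h1.symm, fun h1 => hb' h1.2,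
            fun h1 => hb2.2 (hO3 _ _ h1)⟩)
      (card_le_two.trans (by omega)) (by
        rw [card_compl, card_compl]
        omega)
    obtain ⟨g, hg, hgT⟩ : ∃ g : Perm Ω, sign g = 1 ∧ ∀ y, y ∈ T ↔ g y ∉ Δ := by
      obtain ⟨g, hg⟩ := Perm.exists_map_finset_eq T Δᶜ hT3
      have h1 : ∀ y, y ∈ T ↔ g y ∉ Δ := fun y => by
        rw [← mem_compl, ← hg]
        simp
      rcases Int.units_eq_one_or (sign g) with hs | hs
      · exact ⟨g, hs, h1⟩
      · have hab : a ≠ b := fun h2 => hb' (h2 ▸ hO1 a)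
        refine ⟨g * swap a b, by simp [hs, sign_swap hab], fun y => ?_⟩
        rw [Perm.mul_apply, ← h1, swap_apply_def]
        have ha1 : a ∈ T := hT1 (by simp)
        have hb1 : b ∈ T := hT1 (by simp)
        split_ifs with h2 h3
        · simp [h2, ha1, hb1]
        · simp [h3, ha1, hb1]
        · rfl
    have hZΔ : ∀ y ∈ Z, g y ∈ Δ := fun y hy => by
      by_contra h1
      exact mem_compl.1 (hT2 ((hgT y).2 h1)) hy
    have keep : ∀ f, g * ι f * g⁻¹ ∈ S → ∀ y ∈ T, ι f y ∈ T := by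
      intro f hf y hy
      have hb3 : ∀ u ∈ O b', g u ∈ Δ := fun u hu =>
        hZΔ u (mem_insert_of_mem (mem_union_right _ hu))
      have h1 := inv _ (inv_mem hf) (g b') (hb3 _ (hO1 _)) (g (ι e b')) (hb3 _ ((hO2 _ _ _).2 (hO1 _)))
        (g.injective.ne (mem_support.1 hb1).symm)
        (by simpa using hb3 _ ((hO2 _ _ f⁻¹).2 (hO1 _)))
        (by simpa using hb3 _ ((hO2 _ _ f⁻¹).2 ((hO2 _ _ e).2 (hO1 _))))
      rw [hgT] at hy ⊢
      intro h2
      exact hy (by simpa using h1 _ h2)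
    rcases h g hg with ⟨f, h1, h2⟩ | h1
    · exact mem_compl.1 (hT2 (keep f h1 a (hT1 (by simp)))) (mem_insert_of_mem
        (mem_union_left _ (mem_erase.2 ⟨h2, (hO2 _ _ _).2 (hO1 a)⟩)))
    · exact mem_compl.1 (hT2 (keep e h1 b (hT1 (by simp)))) (mem_insert_self _ _)
  refine ⟨Δ, hT, hΔ, fun σ hσ => ?_⟩
  have h1 : 1 < #{y ∈ Δ | σ y ∈ Δ} := by
    have h2 := card_filter_add_card_filter_not (s := Δ) fun y => σ y ∈ Δ
    have h3 : #{y ∈ Δ | ¬ σ y ∈ Δ} ≤ #Δᶜ := card_le_card_of_injOn σ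
      (fun y hy => by simpa using (mem_filter.1 hy).2) σ.injective.injOn
    omega
  obtain ⟨y, hy, y', hy', hne⟩ := one_lt_card.1 h1
  exact inv σ hσ y (mem_filter.1 hy).1 y' (mem_filter.1 hy').1 hne (mem_filter.1 hy).2
    (mem_filter.1 hy').2

end Pool.Agent.Lib.MP_679d9b_al.Alt
end
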