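import Mathlib
import Pool.Agent.Lib.MP_679d9b_al.AltPerm

-- part Pool.Agent.Lib.MP_679d9b_al.Coprime
section

/-!
Invariant Sylow subgroups, Frattini argument, and small facts on `p`-groups.
-/

set_option autoImplicit false

namespace Pool.Agent.Lib.MP_679d9b_al

open Subgroup

variable {H : Type} [Group H]

/-- `S` is a Sylow `r`-subgroup of `N`, seen in the ambient group. -/
structure IsSyl (r : ℕ) (N S : Subgroup H) : Prop where
  le : S ≤ N
  pg : IsPGroup r S
  max : ∀ T ≤ N, IsPGroup r T → S ≤ T → T = S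

theorem isSyl_map {r : ℕ} {N : Subgroup H} (P : Sylow r N) :
    IsSyl r N ((P : Subgroup N).map N.subtype) where
  le := map_subtype_le _
  pg := P.2.map _
  max T hT hp hle := by
    have h1 : T.subgroupOf N = P := P.3 hp.comap_subtype (map_le_iff_le_comap.1 hle)
    rw [← h1, subgroupOf_map_subtype, inf_of_le_left hT]

/-- The corresponding Sylow subgroup. -/
def IsSyl.toSylow {r : ℕ} {N S : Subgroup H} (h : IsSyl r N S) : Sylow r N where
  toSubgroup := S.subgroupOf N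
  isPGroup' := h.pg.comap_subtype
  is_maximal' := fun {Q} hQ hle => by
    have h1 : Q.map N.subtype = S := h.max _ (map_subtype_le _) (hQ.map _) (by
      have := map_mono (f := N.subtype) hle
      rwa [subgroupOf_map_subtype, inf_of_le_left h.le] at this)
    rw [← h1]
    exact (comap_map_eq_self_of_injective N.subtype_injective Q).symm

theorem IsSyl.map_toSylow {r : ℕ} {N S : Subgroup H} (h : IsSyl r N S) :
    (h.toSylow : Subgroup N).map N.subtype = S := by
  change (S.subgroupOf N).map N.subtype = S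
  rw [subgroupOf_map_subtype, inf_of_le_left h.le]

theorem not_dvd_card [Finite H] {p : ℕ} [Fact p.Prime] {N : Subgroup H}
    (h : ∀ g ∈ N, g ^ p = 1 → g = 1) : ¬ p ∣ Nat.card N := by
  intro hd
  obtain ⟨x, hx⟩ := exists_prime_orderOf_dvd_card' p hd
  have h1 : x ^ p = 1 := hx ▸ pow_orderOf_eq_one x
  have h2 : x = 1 := Subtype.ext (h x x.2 (by simpa using congrArg Subtype.val h1))
  rw [h2, orderOf_one] at hx
  exact (Fact.out : p.Prime).one_lt.ne hx

theorem exists_syl [Finite H] {p r : ℕ} [Fact p.Prime] [Fact r.Prime] {F N : Subgroup H}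
    (hF : IsPGroup p F) (hN : F ≤ normalizer (N : Set H))
    (h : r = p ∨ ∀ g ∈ N, g ^ p = 1 → g = 1) :
    ∃ S, IsSyl r N S ∧ F ≤ normalizer (S : Set H) := by
  let α : F →* MulAut N := N.normalizerMonoidHom.comp (inclusion hN)
  let _ : MulAction F (Sylow r N) := MulAction.compHom _ α
  have hnd : ¬ p ∣ Nat.card (Sylow r N) := by
    rcases h with rfl | h
    · exact not_dvd_card_sylow _ _
    · obtain ⟨P⟩ : Nonempty (Sylow r N) := inferInstance
      exact fun hd => not_dvd_card h (hd.trans (P.card_dvd_index.trans (index_dvd_card _)))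
  obtain ⟨P, hP⟩ := hF.nonempty_fixed_point_of_prime_not_dvd_card (Sylow r N) hnd
  refine ⟨_, isSyl_map P, le_normalizer_iff.2 ?_⟩
  rintro f hf _ ⟨k, hk, rfl⟩
  have h1 : α ⟨f, hf⟩ • P = P := hP ⟨f, hf⟩
  have h2 : α ⟨f, hf⟩ k ∈ ((α ⟨f, hf⟩ • P : Sylow r N) : Subgroup N) :=
    Subgroup.smul_mem_pointwise_smul _ _ _ hk
  rw [h1] at h2
  exact ⟨_, h2, rfl⟩

theorem IsSyl.frattini [Finite H] {r : ℕ} [Fact r.Prime] {N S : Subgroup H} [N.Normal]
    (h : IsSyl r N S) (g : H) : ∃ m ∈ normalizer (S : Set H), ∃ n ∈ N, m * n = g := by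
  have h1 := Sylow.normalizer_sup_eq_top h.toSylow
  rw [h.map_toSylow] at h1
  have h2 : g ∈ ((normalizer (S : Set H) ⊔ N : Subgroup H) : Set H) := by rw [h1]; trivial
  rw [mul_normal] at h2
  obtain ⟨m, hm, n, hn, rfl⟩ := h2
  exact ⟨m, hm, n, hn, rfl⟩

theorem IsSyl.surj [Finite H] {r : ℕ} [Fact r.Prime] {N S : Subgroup H} (h : IsSyl r N S)
    {L : Type} [Group L] (θ : H →* L) (hθ : IsPGroup r (N.map θ)) {n : H} (hn : n ∈ N) :
    ∃ s ∈ S, θ s = θ n := by
  have hs := θ.subgroupMap_surjective N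
  have h1 := (h.toSylow.mapSurjective hs).3 (Q := ⊤) (hθ.to_subgroup ⊤) le_top
  have h2 : θ.subgroupMap N ⟨n, hn⟩ ∈ (h.toSylow.mapSurjective hs).1 := by rw [← h1]; trivial
  obtain ⟨s, hs1, hs2⟩ := h2
  exact ⟨s, hs1, congrArg Subtype.val hs2⟩

theorem isPGroup_zpowers {r : ℕ} {g : H} {k : ℕ} (h : g ^ r ^ k = 1) :
    IsPGroup r (zpowers g) := by
  rintro ⟨_, n, rfl⟩
  refine ⟨k, Subtype.ext ?_⟩
  change (g ^ n) ^ r ^ k = 1
  rw [← zpow_natCast, ← zpow_mul, mul_comm, zpow_mul, zpow_natCast, h, one_zpow]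

theorem pow_eq_one_of_mem {r : ℕ} {S : Subgroup H} (h : IsPGroup r S) {g : H} (hg : g ∈ S) :
    ∃ k, g ^ r ^ k = 1 := by
  obtain ⟨k, hk⟩ := h ⟨g, hg⟩
  exact ⟨k, by simpa using congrArg Subtype.val hk⟩

theorem IsSyl.mem_of_pow {r : ℕ} {N S : Subgroup H} (h : IsSyl r N S) {g : H} (hg : g ∈ N)
    (hgn : g ∈ normalizer (S : Set H)) (hp : g ^ r ∈ S) : g ∈ S := by
  obtain ⟨k, hk⟩ := pow_eq_one_of_mem h.pg hp
  rw [← pow_mul, ← pow_succ'] at hk
  have h1 : IsPGroup r (zpowers g ⊔ S : Subgroup H) :=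
    (isPGroup_zpowers hk).to_sup_of_normal_right' h.pg (by simpa using hgn)
  rw [← h.max _ (sup_le (by simpa using hg) h.le) h1 le_sup_right]
  exact mem_sup_left (mem_zpowers g)

/-- An element killed by two coprime exponents is trivial. -/
theorem eq_one_of_coprime {g : H} {a b : ℕ} (hab : a.Coprime b) (ha : g ^ a = 1)
    (hb : g ^ b = 1) : g = 1 := by
  have := pow_gcd_eq_one.2 ⟨ha, hb⟩
  rwa [hab, pow_one] at this

theorem eq_one_of_pgroup {r m : ℕ} {S : Subgroup H} (h : IsPGroup r S) (hm : r.Coprime m) {g : H}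
    (hg : g ∈ S) (hp : g ^ m = 1) : g = 1 := by
  obtain ⟨k, hk⟩ := pow_eq_one_of_mem h hg
  exact eq_one_of_coprime (Nat.Coprime.pow_left k hm) hk hp

/-- In a `p`-group, outside a subgroup `Y` there is an element whose `p`-th power is in `Y`. -/
theorem exists_pow_mem {r : ℕ} {X Y : Subgroup H} (h : IsPGroup r X) {x : H} (hx : x ∈ X)
    (hxY : x ∉ Y) : ∃ w ∈ X, w ∉ Y ∧ w ^ r ∈ Y := by
  classical
  have hex : ∃ k, x ^ r ^ k ∈ Y := by
    obtain ⟨k, hk⟩ := pow_eq_one_of_mem h hx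
    exact ⟨k, hk ▸ Y.one_mem⟩
  have h0 : Nat.find hex ≠ 0 := fun h0 => hxY (by simpa [h0] using Nat.find_spec hex)
  obtain ⟨k, hk⟩ := Nat.exists_eq_succ_of_ne_zero h0
  refine ⟨x ^ r ^ k, X.pow_mem hx _, Nat.find_min hex (by omega), ?_⟩
  have h2 := Nat.find_spec hex
  rwa [hk, pow_succ, pow_mul] at h2

/-- A normal subgroup inside a normal `p`-subgroup is not its own commutator with it. -/
theorem commutator_ne [Finite H] {p : ℕ} [Fact p.Prime] {P X : Subgroup H} (hP : IsPGroup p P)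
    (hX : X ≤ P) (h : X ≤ ⁅X, P⁆) : X = ⊥ := by
  have h1 : ∀ n, X ≤ P.lowerCentralSeries n := by
    intro n
    induction n with
    | zero => exact hX
    | succ n ih => exact h.trans (commutator_mono ih le_rfl)
  obtain ⟨n, hn⟩ := (Subgroup.isNilpotent_iff_lowerCentralSeries P).1 hP.isNilpotent
  have := h1 n
  rwa [hn, le_bot_iff] at this

end Pool.Agent.Lib.MP_679d9b_al
end

-- part Pool.Agent.Lib.MP_679d9b_al.Abel
section

/-!
Abelian quotients, groups of class two, and an elementary abelian subgroup on which a central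
element acts as a scalar.
-/

set_option autoImplicit false

namespace Pool.Agent.Lib.MP_679d9b_al

open Subgroup
open scoped commutatorElement

variable {H : Type} [Group H]

theorem exists_quot (B Y : Subgroup H) (h : ⁅B, B⁆ ≤ Y) :
    ∃ (W : Type) (_ : CommGroup W) (π : B →* W), Function.Surjective π ∧
      ∀ b, π b = 1 ↔ (b : H) ∈ Y := by
  have hN : (Y.subgroupOf B).Normal := ⟨fun y hy b => by
    have h1 : ⁅(b : H), (y : H)⁆ * y ∈ Y := Y.mul_mem (h (commutator_mem_commutator b.2 y.2)) hy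
    rw [commutatorElement_def, inv_mul_cancel_right] at h1
    exact h1⟩
  let _ : CommGroup (B ⧸ Y.subgroupOf B) :=
    { (inferInstance : Group (B ⧸ Y.subgroupOf B)) with
      mul_comm := fun a b => by
        obtain ⟨a, rfl⟩ := QuotientGroup.mk_surjective a
        obtain ⟨b, rfl⟩ := QuotientGroup.mk_surjective b
        rw [← QuotientGroup.mk_mul, ← QuotientGroup.mk_mul, QuotientGroup.eq]
        have h1 : ⁅(b⁻¹ : H), (a⁻¹ : H)⁆ ∈ Y :=
          h (commutator_mem_commutator (B.inv_mem b.2) (B.inv_mem a.2))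
        rw [mem_subgroupOf]
        simpa [commutatorElement_def, mul_assoc] using h1 }
  exact ⟨B ⧸ Y.subgroupOf B, inferInstance, QuotientGroup.mk' _, QuotientGroup.mk'_surjective _,
    fun b => QuotientGroup.eq_one_iff b⟩

theorem exists_lift {B W V : Type} [Group B] [Group W] [Group V] {π : B →* W}
    (hs : Function.Surjective π) (τ : B →* V) (h : ∀ b, π b = 1 → τ b = 1) :
    ∃ T : W →* V, ∀ b, T (π b) = τ b :=
  ⟨π.liftOfSurjective hs ⟨τ, fun b hb => h b hb⟩,
    fun b => π.liftOfRightInverse_comp_apply _ _ _ b⟩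

theorem comm_mul_right {a b c : H} (h : Commute ⁅a, c⁆ b) : ⁅a, b * c⁆ = ⁅a, b⁆ * ⁅a, c⁆ := by
  have h1 : ⁅a, b * c⁆ = ⁅a, b⁆ * (b * ⁅a, c⁆ * b⁻¹) := by
    simp only [commutatorElement_def]; group
  rw [h1, ← h.eq, mul_inv_cancel_right]

theorem comm_pow_right {a b : H} (h : Commute ⁅a, b⁆ b) (n : ℕ) : ⁅a, b ^ n⁆ = ⁅a, b⁆ ^ n := by
  induction n with
  | zero => simp
  | succ n ih => rw [pow_succ, comm_mul_right (h.pow_right n), ih, pow_succ]

theorem comm_pow_left {a b : H} (h : Commute ⁅a, b⁆ a) (n : ℕ) : ⁅a ^ n, b⁆ = ⁅a, b⁆ ^ n := by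
  have h1 : Commute ⁅b, a⁆ a := by rw [← commutatorElement_inv]; exact h.inv_left
  rw [← commutatorElement_inv, comm_pow_right h1, ← inv_pow, commutatorElement_inv]

theorem comm_mul_central {a b y : H} (h : Commute a y) (h' : Commute b y) :
    ⁅a, b * y⁆ = ⁅a, b⁆ ∧ ⁅a * y, b⁆ = ⁅a, b⁆ := by
  constructor
  · rw [commutatorElement_def, commutatorElement_def, mul_inv_rev, ← mul_assoc a, mul_assoc _ y,
      ← h.inv_left.eq]
    group
  · rw [commutatorElement_def, commutatorElement_def, mul_inv_rev, mul_assoc a, ← h'.eq]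
    group

/-- An automorphism of order dividing `m` that is trivial on `Y` and modulo `Y`. -/
theorem fix_of_coprime {r m : ℕ} {Y : Subgroup H} (hY : IsPGroup r Y) (hm : r.Coprime m)
    (σ : MulAut H) (hσ : ∀ y ∈ Y, σ y = y) {b : H} (hb : (σ ^ m) b = b) (h : b⁻¹ * σ b ∈ Y) :
    σ b = b := by
  have h1 : ∀ n : ℕ, (σ ^ n) b = b * (b⁻¹ * σ b) ^ n := by
    intro n
    induction n with
    | zero => simp
    | succ n ih =>
      rw [pow_succ', MulAut.mul_apply, ih, map_mul, hσ _ (Y.pow_mem h n), pow_succ', ← mul_assoc,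
        mul_inv_cancel_left]
  have h2 : (b⁻¹ * σ b) ^ m = 1 := by
    have := h1 m
    rw [hb] at this
    exact (mul_eq_left.1 this.symm)
  exact (inv_mul_eq_one.1 (eq_one_of_pgroup hY hm h h2)).symm

theorem exists_eigen {K M : Type} [Field K] [AddCommGroup M] [Module K M] {q : ℕ} [Fact q.Prime]
    {ζ : K} (hζ : IsPrimitiveRoot ζ q) (T : Module.End K M) (hT : T ^ q = 1) {w : M}
    (hw : T w ≠ w) : ∃ a : K, IsPrimitiveRoot a q ∧ ∃ v, v ≠ 0 ∧ T v = a • v := by
  classical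
  have key : ∀ (s : Finset K) (u : M), u ≠ 0 →
      Polynomial.aeval T (∏ a ∈ s, (Polynomial.X - Polynomial.C a)) u = 0 →
      ∃ a ∈ s, ∃ v, v ≠ 0 ∧ T v = a • v := by
    intro s
    induction s using Finset.induction_on with
    | empty => intro u hu h; simp [hu] at h
    | insert a s ha ih =>
      intro u hu h
      rw [Finset.prod_insert ha, mul_comm, map_mul, Module.End.mul_apply] at h
      by_cases h0 : Polynomial.aeval T (Polynomial.X - Polynomial.C a) u = 0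
      · refine ⟨a, Finset.mem_insert_self _ _, u, hu, ?_⟩
        simpa [sub_eq_zero, Module.algebraMap_end_apply] using h0
      · obtain ⟨b, hb, hv⟩ := ih _ h0 h
        exact ⟨b, Finset.mem_insert_of_mem hb, hv⟩
  have hq : 0 < q := (Fact.out : q.Prime).pos
  have h1 := Polynomial.X_pow_sub_one_eq_prod hq hζ
  have h2 : (1 : K) ∈ Polynomial.nthRootsFinset q (1 : K) := Polynomial.one_mem_nthRootsFinset hq
  rw [← Finset.prod_erase_mul _ _ h2] at h1
  have h3 := congrArg (fun f => Polynomial.aeval T f w) h1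
  simp only [map_sub, map_pow, Polynomial.aeval_X, hT, map_one, sub_self, LinearMap.zero_apply,
    map_mul, Module.End.mul_apply, LinearMap.sub_apply, Module.End.one_apply] at h3
  rw [← map_sub] at h3
  obtain ⟨a, ha, hv⟩ := key _ _ (sub_ne_zero.2 hw) h3.symm
  exact ⟨a, isPrimitiveRoot_of_mem_nthRootsFinset Fact.out (Finset.mem_of_mem_erase ha)
    (Finset.ne_of_mem_erase ha), hv⟩

theorem exists_eigen_mul {W : Type} [CommGroup W] {q s : ℕ} [Fact q.Prime] [Fact s.Prime]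
    {ζ : ZMod s} (hζ : IsPrimitiveRoot ζ q) (hW : ∀ w : W, w ^ s = 1) (T : W →* W)
    (hT : ∀ w, T^[q] w = w) {w : W} (hw : T w ≠ w) :
    ∃ k : ℕ, IsPrimitiveRoot (k : ZMod s) q ∧ ∃ v, v ≠ 1 ∧ T v = v ^ k := by
  let _ : Module (ZMod s) (Additive W) := AddCommGroup.zmodModule fun x => hW x.toMul
  let T' : Module.End (ZMod s) (Additive W) := (MonoidHom.toAdditive T).toZModLinearMap s
  obtain ⟨a, ha, v, hv, h⟩ := exists_eigen hζ T' (by
    ext x
    rw [Module.End.pow_apply]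
    exact hT _) (w := Additive.ofMul w) hw
  refine ⟨a.val, by rwa [ZMod.natCast_zmod_val], v.toMul, hv, ?_⟩
  rw [← ZMod.natCast_zmod_val a, Nat.cast_smul_eq_nsmul] at h
  exact h

theorem exists_abel [Finite H] {q s : ℕ} [Fact q.Prime] [Fact s.Prime] (hH : IsPGroup s H)
    (hq2 : q ≠ 2) {ζ : ZMod s} (hζ : IsPrimitiveRoot ζ q) {L : Type} [Group L]
    (α : L →* MulAut H) {z : L} (hz : ∀ g, z * g = g * z) (hzq : z ^ q = 1)
    (hne : ∃ b, α z b ≠ b) :
    ∃ B : Subgroup H, (∀ g, ∀ b ∈ B, α g b ∈ B) ∧ (∃ b ∈ B, b ≠ 1) ∧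
      (∀ a ∈ B, ∀ b ∈ B, a * b = b * a) ∧ (∀ b ∈ B, b ^ s = 1) ∧
      ∃ k : ℕ, IsPrimitiveRoot (k : ZMod s) q ∧ ∀ b ∈ B, α z b = b ^ k := by
  have hsq : s.Coprime q := by
    rw [Nat.coprime_primes Fact.out Fact.out]
    intro h
    have h1 : (q : ZMod s) ≠ 0 := hζ.neZero'.1
    exact h1 (by rw [← h]; exact ZMod.natCast_self _)
  obtain ⟨B, ⟨hBinv, hBne⟩, hmin⟩ := exists_minimal_of_wellFoundedLT
    (fun B : Subgroup H => (∀ g, ∀ b ∈ B, α g b ∈ B) ∧ ∃ b ∈ B, α z b ≠ b)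
    ⟨⊤, fun _ _ _ => trivial, hne.imp fun b hb => ⟨trivial, hb⟩⟩
  have hzg : ∀ g b, α z (α g b) = α g (α z b) := fun g b => by
    rw [← MulAut.mul_apply, ← map_mul, hz, map_mul, MulAut.mul_apply]
  obtain ⟨Y, hY⟩ : ∃ Y : Subgroup H, ∀ y, y ∈ Y ↔ y ∈ B ∧ α z y = y :=
    ⟨B ⊓ (α z).toMonoidHom.eqLocus (MonoidHom.id H), fun y => Iff.rfl⟩
  have hYinv : ∀ g, ∀ y ∈ Y, α g y ∈ Y := fun g y hy =>
    (hY _).2 ⟨hBinv g y ((hY y).1 hy).1, by rw [hzg, ((hY y).1 hy).2]⟩
  have hdich : ∀ C ≤ B, (∀ g, ∀ b ∈ C, α g b ∈ C) → C ≤ Y ∨ B ≤ C := by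
    intro C hC hinv
    by_cases h : ∃ c ∈ C, α z c ≠ c
    · exact Or.inr (hmin ⟨hinv, h⟩ hC)
    · push Not at h
      exact Or.inl fun c hc => (hY c).2 ⟨hC hc, h c hc⟩
  have hnot : ¬ ∀ b ∈ B, b⁻¹ * α z b ∈ Y := by
    intro h
    obtain ⟨b, hb, hne⟩ := hBne
    refine hne (fix_of_coprime (hH.to_subgroup Y) hsq (α z) (fun y hy => ((hY y).1 hy).2) ?_
      (h b hb))
    rw [← map_pow, hzq, map_one, MulAut.one_apply]
  have hcomm : ⁅B, B⁆ ≤ Y := by
    refine (hdich _ (commutator_le_self B) fun g b hb => ?_).resolve_right fun h => ?_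
    · have h1 : ⁅B, B⁆.map (α g).toMonoidHom ≤ ⁅B, B⁆ := by
        rw [map_commutator]
        have : B.map (α g).toMonoidHom ≤ B := by
          rintro _ ⟨x, hx, rfl⟩; exact hBinv g x hx
        exact commutator_mono this this
      exact h1 ⟨b, hb, rfl⟩
    · obtain ⟨b, hb, hne⟩ := hBne
      rw [commutator_ne (hH.to_subgroup B) le_rfl h, mem_bot] at hb
      exact hne (by rw [hb, map_one])
  obtain ⟨W, _, π, hπs, hπ⟩ := exists_quot B Y hcomm
  obtain ⟨b0, hb0, hb0ne⟩ := hBne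
  have hb0Y : b0 ∉ Y := fun h => hb0ne ((hY _).1 h).2
  -- exponent
  have hexp : ∀ b ∈ B, b ^ s ∈ Y := by
    have hmem : ∀ c, c ∈ (((powMonoidHom s).comp π).ker.map B.subtype) ↔ c ∈ B ∧ c ^ s ∈ Y := by
      intro c
      constructor
      · rintro ⟨c, hc, rfl⟩
        refine ⟨c.2, (hπ (c ^ s)).1 ?_⟩
        rw [map_pow]; exact hc
      · rintro ⟨h1, h2⟩
        refine ⟨⟨c, h1⟩, ?_, rfl⟩
        have := (hπ (⟨c, h1⟩ ^ s)).2 h2
        rw [map_pow] at this; exact this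
    refine fun b hb => ((hmem b).1 ((hdich _ (map_subtype_le _) fun g c hc => ?_).resolve_left
      (fun h => ?_) hb)).2
    · rw [hmem] at hc ⊢
      exact ⟨hBinv g c hc.1, by rw [← map_pow]; exact hYinv g _ hc.2⟩
    · obtain ⟨w, hw, hwY, hws⟩ := exists_pow_mem (hH.to_subgroup B) hb0 hb0Y
      exact hwY (h ((hmem w).2 ⟨hw, hws⟩))
  let τ : B →* B := ((α z).toMonoidHom.comp B.subtype).codRestrict B fun b => hBinv z b b.2
  obtain ⟨T, hT⟩ := exists_lift hπs (π.comp τ) fun b hb => (hπ _).2 (hYinv z _ ((hπ b).1 hb))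
  have hTn : ∀ (n : ℕ) (b : B), T^[n] (π b) = π ⟨α (z ^ n) b, hBinv _ _ b.2⟩ := by
    intro n b
    induction n with
    | zero => simp
    | succ n ih =>
      rw [Function.iterate_succ_apply', ih, hT]
      refine congrArg π (Subtype.ext ?_)
      change α z (α (z ^ n) b) = α (z ^ (n + 1)) b
      rw [pow_succ', map_mul, MulAut.mul_apply]
  obtain ⟨b1, hb1, hb1ne⟩ : ∃ b ∈ B, b⁻¹ * α z b ∉ Y := by
    by_contra h
    push Not at h
    exact hnot h
  obtain ⟨k, hk, v, hv1, hv⟩ := exists_eigen_mul hζ (fun w => by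
      obtain ⟨b, rfl⟩ := hπs w
      rw [← map_pow]; exact (hπ _).2 (hexp b b.2)) T (fun w => by
      obtain ⟨b, rfl⟩ := hπs w
      rw [hTn]; simp [hzq]) (w := π ⟨b1, hb1⟩) (fun h => hb1ne (by
      have h1 : π ((⟨b1, hb1⟩ : B)⁻¹ * τ ⟨b1, hb1⟩) = 1 := by
        rw [map_mul, map_inv, ← h, hT]; exact inv_mul_cancel _
      exact (hπ _).1 h1))
  have hscal : ∀ b ∈ B, (b ^ k)⁻¹ * α z b ∈ Y := by
    have hmem : ∀ c, c ∈ (((π.comp τ).eqLocus ((powMonoidHom k).comp π)).map B.subtype) ↔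
        c ∈ B ∧ (c ^ k)⁻¹ * α z c ∈ Y := by
      intro c
      constructor
      · rintro ⟨c, hc, rfl⟩
        refine ⟨c.2, (hπ ((c ^ k)⁻¹ * τ c)).1 ?_⟩
        rw [map_mul, map_inv, map_pow, inv_mul_eq_one]; exact hc.symm
      · rintro ⟨h1, h2⟩
        refine ⟨⟨c, h1⟩, ?_, rfl⟩
        have := (hπ ((⟨c, h1⟩ ^ k)⁻¹ * τ ⟨c, h1⟩)).2 h2
        rw [map_mul, map_inv, map_pow, inv_mul_eq_one] at this; exact this.symm
    refine fun b hb => ((hmem b).1 ((hdich _ (map_subtype_le _) fun g c hc => ?_).resolve_left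
      (fun h => ?_) hb)).2
    · rw [hmem] at hc ⊢
      refine ⟨hBinv g c hc.1, ?_⟩
      rw [hzg, ← map_pow, ← map_inv, ← map_mul]; exact hYinv g _ hc.2
    · obtain ⟨b, rfl⟩ := hπs v
      refine hv1 ((hπ b).2 (h ⟨b, ?_, rfl⟩))
      rw [hT] at hv; exact hv
  have hcent : ∀ b ∈ B, ∀ y ∈ Y, Commute b y := by
    have hmem : ∀ c, c ∈ B ⊓ centralizer (Y : Set H) ↔ c ∈ B ∧ ∀ y ∈ Y, y * c = c * y :=
      fun c => Iff.rfl
    refine fun b hb y hy => (((hmem b).1 ((hdich _ inf_le_left fun g c hc => ?_).resolve_left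
      (fun h => hnot fun b hb => h ?_) hb)).2 y hy).symm
    · rw [hmem] at hc ⊢
      refine ⟨hBinv g c hc.1, fun y hy => ?_⟩
      have := congrArg (α g) (hc.2 _ (hYinv g⁻¹ y hy))
      simpa using this
    · refine (hmem _).2 ⟨B.mul_mem (B.inv_mem hb) (hBinv z b hb), fun y hy => ?_⟩
      have h1 : b * y * b⁻¹ ∈ Y := by
        have := Y.mul_mem (hcomm (commutator_mem_commutator hb ((hY y).1 hy).1)) hy
        rwa [commutatorElement_def, inv_mul_cancel_right] at this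
      have h2 := ((hY _).1 h1).2
      rw [map_mul, map_mul, map_inv, ((hY y).1 hy).2] at h2
      calc y * (b⁻¹ * α z b) = b⁻¹ * (b * y * b⁻¹) * α z b := by group
        _ = b⁻¹ * α z b * y := by rw [← h2]; group
  have hab : ∀ a ∈ B, ∀ b ∈ B, a * b = b * a := by
    intro a ha b hb
    have hc : ∀ a ∈ B, ∀ b ∈ B, ⁅a, b⁆ ∈ Y := fun a ha b hb =>
      hcomm (commutator_mem_commutator ha hb)
    have h1 : ⁅a, b⁆ ^ s = 1 := by
      rw [← comm_pow_right (hcent b hb _ (hc a ha b hb)).symm,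
        commutatorElement_eq_one_iff_commute]
      exact hcent a ha _ (hexp b hb)
    have h2 : ⁅a, b⁆ ^ (k * k) = ⁅a, b⁆ := by
      have h3 := ((hY _).1 (hc a ha b hb)).2
      rw [map_commutatorElement, ← mul_inv_cancel_left (a ^ k) (α z a),
        ← mul_inv_cancel_left (b ^ k) (α z b),
        (comm_mul_central (hcent _ (B.pow_mem ha k) _ (hscal a ha))
          (hcent _ (B.mul_mem (B.pow_mem hb k) ((hY _).1 (hscal b hb)).1) _ (hscal a ha))).2,
        (comm_mul_central (hcent _ (B.pow_mem ha k) _ (hscal b hb))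
          (hcent _ (B.pow_mem hb k) _ (hscal b hb))).1,
        comm_pow_right (hcent _ hb _ (hc _ (B.pow_mem ha k) b hb)).symm,
        comm_pow_left (hcent _ ha _ (hc a ha b hb)).symm, ← pow_mul] at h3
      exact h3
    have hk0 : k ≠ 0 := by
      rintro rfl
      exact hk.ne_zero (Fact.out : q.Prime).ne_zero (by simp)
    have hkk : 1 ≤ k * k := Nat.pos_of_ne_zero (mul_ne_zero hk0 hk0)
    have h4 : ⁅a, b⁆ ^ (k * k - 1) = 1 := by
      have : ⁅a, b⁆ ^ (k * k - 1) * ⁅a, b⁆ = ⁅a, b⁆ := by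
        rw [← pow_succ, Nat.sub_add_cancel hkk, h2]
      exact mul_eq_right.1 this
    have h5 : s.Coprime (k * k - 1) := by
      rw [(Fact.out : s.Prime).coprime_iff_not_dvd, ← ZMod.natCast_eq_zero_iff, Nat.cast_sub hkk,
        sub_eq_zero]
      intro h
      have h6 : (k : ZMod s) ^ 2 = 1 := by rw [sq]; exact_mod_cast h
      exact hq2 ((Nat.prime_dvd_prime_iff_eq Fact.out Nat.prime_two).1 (hk.dvd_of_pow_eq_one _ h6))
    exact commutatorElement_eq_one_iff_mul_comm.1 (eq_one_of_coprime h5 h1 h4)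
  let B' : Subgroup H :=
    { carrier := {c | c ∈ B ∧ α z c = c ^ k ∧ c ^ s = 1}
      one_mem' := ⟨B.one_mem, by simp, by simp⟩
      mul_mem' := fun {a b} ha hb => ⟨B.mul_mem ha.1 hb.1,
        by rw [map_mul, ha.2.1, hb.2.1, Commute.mul_pow (hab a ha.1 b hb.1)],
        by rw [Commute.mul_pow (hab a ha.1 b hb.1), ha.2.2, hb.2.2, one_mul]⟩
      inv_mem' := fun {a} ha => ⟨B.inv_mem ha.1, by rw [map_inv, ha.2.1, inv_pow],
        by rw [inv_pow, ha.2.2, inv_one]⟩ }
  refine ⟨B', fun g b hb => ⟨hBinv g b hb.1, by rw [hzg, hb.2.1, map_pow],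
    by rw [← map_pow, hb.2.2, map_one]⟩, ⟨b0⁻¹ * α z b0, ⟨B.mul_mem (B.inv_mem hb0)
      (hBinv z b0 hb0), ?_, ?_⟩, fun h => hb0ne (inv_mul_eq_one.1 h).symm⟩,
    fun a ha b hb => hab a ha.1 b hb.1, fun b hb => hb.2.2, k, hk, fun b hb => hb.2.1⟩
  · have hc : Commute b0⁻¹ (α z b0) := hab _ (B.inv_mem hb0) _ (hBinv z b0 hb0)
    have h1 := ((hY _).1 (hscal b0 hb0)).2
    rw [map_mul, map_inv, map_pow] at h1
    have h2 : α z (α z b0) = α z b0 ^ k * ((b0 ^ k)⁻¹ * α z b0) := by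
      rw [← h1, mul_inv_cancel_left]
    have h3 : Commute (α z b0) (α z b0 ^ k * (b0 ^ k)⁻¹) :=
      hab _ (hBinv z b0 hb0) _ (B.mul_mem (B.pow_mem (hBinv z b0 hb0) k)
        (B.inv_mem (B.pow_mem hb0 k)))
    rw [map_mul, map_inv, h2, hc.mul_pow, ← mul_assoc (α z b0 ^ k), ← h3.eq, inv_mul_cancel_left,
      inv_pow]
    exact hab _ (B.pow_mem (hBinv z b0 hb0) k) _ (B.inv_mem (B.pow_mem hb0 k))
  · have hc : Commute b0⁻¹ (α z b0) := hab _ (B.inv_mem hb0) _ (hBinv z b0 hb0)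
    rw [hc.mul_pow, ← map_pow, ((hY _).1 (hexp b0 hb0)).2, inv_pow, inv_mul_cancel]

end Pool.Agent.Lib.MP_679d9b_al
end

-- part Pool.Agent.Lib.MP_679d9b_al.Heis
section

/-!
A Heisenberg group over the functions on a finite group `F`, extended by `F`, and regular lines
in its representations.
-/

set_option autoImplicit false

namespace Pool.Agent.Lib.MP_679d9b_al

open scoped BigOperators

section

variable {F : Type} [Group F] [Fintype F] {q : ℕ}

/-- The standard bilinear form. -/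
def dot (v a : F → ZMod q) : ZMod q := ∑ i, v i * a i

/-- Left translation of functions. -/
def sh (f : F) (v : F → ZMod q) : F → ZMod q := fun i => v (f⁻¹ * i)

omit [Group F] in
theorem dot_add_left (v w a : F → ZMod q) : dot (v + w) a = dot v a + dot w a := by
  simp [dot, add_mul, Finset.sum_add_distrib]

omit [Group F] in
theorem dot_add_right (v a b : F → ZMod q) : dot v (a + b) = dot v a + dot v b := by
  simp [dot, mul_add, Finset.sum_add_distrib]

omit [Group F] in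
theorem dot_neg_left (v a : F → ZMod q) : dot (-v) a = -dot v a := by
  simp [dot, Finset.sum_neg_distrib]

omit [Group F] in
theorem dot_neg_right (v a : F → ZMod q) : dot v (-a) = -dot v a := by
  simp [dot, Finset.sum_neg_distrib]

omit [Group F] in
theorem dot_zero_left (a : F → ZMod q) : dot 0 a = 0 := by simp [dot]

omit [Group F] in
theorem dot_zero_right (a : F → ZMod q) : dot a 0 = 0 := by simp [dot]

omit [Group F] in
theorem dot_comm (v a : F → ZMod q) : dot v a = dot a v := by simp [dot, mul_comm]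

theorem dot_sh (f : F) (v a : F → ZMod q) : dot (sh f v) (sh f a) = dot v a := by
  unfold dot sh
  exact Fintype.sum_equiv (Equiv.mulLeft f⁻¹) _ _ (fun _ => rfl)

omit [Fintype F] in
theorem sh_add (f : F) (v w : F → ZMod q) : sh f (v + w) = sh f v + sh f w := rfl

omit [Fintype F] in
theorem sh_zero (f : F) : sh f (0 : F → ZMod q) = 0 := rfl

omit [Fintype F] in
theorem sh_one (v : F → ZMod q) : sh (1 : F) v = v := by
  funext i; simp [sh]

omit [Fintype F] in
theorem sh_mul (f g : F) (v : F → ZMod q) : sh (f * g) v = sh f (sh g v) := by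
  funext i; simp [sh, mul_assoc]

end

/-- The Heisenberg group over `F → ZMod q`. -/
@[ext] structure Heis (F : Type) (q : ℕ) where
  v : F → ZMod q
  c : ZMod q
  a : F → ZMod q

variable {F : Type} [Group F] [Fintype F] {q : ℕ}

namespace Heis

omit [Group F] in
instance : Mul (Heis F q) := ⟨fun x y => ⟨x.v + y.v, x.c + y.c + dot x.v y.a, x.a + y.a⟩⟩

omit [Group F] [Fintype F] in
instance : One (Heis F q) := ⟨⟨0, 0, 0⟩⟩

omit [Group F] in
instance : Inv (Heis F q) := ⟨fun x => ⟨-x.v, -x.c + dot x.v x.a, -x.a⟩⟩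

omit [Group F] in
theorem mul_def (x y : Heis F q) :
    x * y = ⟨x.v + y.v, x.c + y.c + dot x.v y.a, x.a + y.a⟩ := rfl

omit [Group F] [Fintype F] in
theorem one_def : (1 : Heis F q) = ⟨0, 0, 0⟩ := rfl

omit [Group F] in
theorem inv_def (x : Heis F q) : x⁻¹ = ⟨-x.v, -x.c + dot x.v x.a, -x.a⟩ := rfl

omit [Group F] in
instance : Group (Heis F q) := Group.ofLeftAxioms
  (fun x y z => by
    simp only [mul_def, dot_add_left, dot_add_right]
    ext <;> simp only [Pi.add_apply] <;> ring)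
  (fun x => by
    simp only [mul_def, one_def, dot_zero_left]
    ext <;> simp)
  (fun x => by
    simp only [mul_def, one_def, inv_def, dot_neg_left]
    ext <;> simp)

/-- The structure as a product. -/
def equivProd : Heis F q ≃ (F → ZMod q) × ZMod q × (F → ZMod q) where
  toFun x := (x.v, x.c, x.a)
  invFun y := ⟨y.1, y.2.1, y.2.2⟩
  left_inv _ := rfl
  right_inv _ := rfl

omit [Group F] in
theorem card : Nat.card (Heis F q) = q ^ (2 * Fintype.card F + 1) := by
  classical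
  rw [Nat.card_congr equivProd, Nat.card_prod, Nat.card_prod, Nat.card_fun, Nat.card_zmod,
    Nat.card_eq_fintype_card]
  ring

omit [Group F] in
instance [NeZero q] : Finite (Heis F q) := Finite.of_equiv _ equivProd.symm

/-- Translation by an element of `F`. -/
def tr (f : F) (x : Heis F q) : Heis F q := ⟨sh f x.v, x.c, sh f x.a⟩

/-- The action of `F` by automorphisms. -/
def act : F →* MulAut (Heis F q) where
  toFun f :=
    { toFun := tr f
      invFun := tr f⁻¹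
      left_inv := fun x => by simp only [tr, ← sh_mul, inv_mul_cancel, sh_one]
      right_inv := fun x => by simp only [tr, ← sh_mul, mul_inv_cancel, sh_one]
      map_mul' := fun x y => by simp only [tr, mul_def, sh_add, dot_sh] }
  map_one' := by
    ext1 x
    change tr 1 x = x
    simp only [tr, sh_one]
  map_mul' f g := by
    ext1 x
    change tr (f * g) x = tr f (tr g x)
    simp only [tr, sh_mul]

end Heis

/-- The Heisenberg group extended by `F`. -/
abbrev Lam (F : Type) [Group F] [Fintype F] (q : ℕ) : Type := Heis F q ⋊[Heis.act] F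

namespace Lam

open SemidirectProduct

instance [NeZero q] : Finite (Lam F q) := Finite.of_equiv _ SemidirectProduct.equivProd.symm

/-- Torus elements. -/
def d (v : F → ZMod q) : Lam F q := inl ⟨v, 0, 0⟩

/-- Translations. -/
def t (a : F → ZMod q) : Lam F q := inl ⟨0, 0, a⟩

/-- Central elements. -/
def zc (c : ZMod q) : Lam F q := inl ⟨0, c, 0⟩

theorem d_add (v w : F → ZMod q) : (d v * d w : Lam F q) = d (v + w) := by
  simp only [d, ← map_mul, Heis.mul_def, dot_zero_right, add_zero]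

theorem d_zero : (d 0 : Lam F q) = 1 := by
  rw [d, ← Heis.one_def, map_one]

theorem d_t (v a : F → ZMod q) : (d v * t a : Lam F q) = zc (dot v a) * (t a * d v) := by
  simp only [d, t, zc, ← map_mul, Heis.mul_def, dot_zero_left, add_zero, zero_add]

theorem inr_d (f : F) (v : F → ZMod q) : (inr f * d v : Lam F q) = d (sh f v) * inr f := by
  have h := inl_aut (φ := (Heis.act : F →* MulAut (Heis F q))) f ⟨v, 0, 0⟩
  have h2 : (Heis.act f (⟨v, 0, 0⟩ : Heis F q)) = ⟨sh f v, 0, 0⟩ := rfl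
  rw [h2] at h
  rw [d, d, h, map_inv, inv_mul_cancel_right]

theorem zc_add (a b : ZMod q) : (zc a * zc b : Lam F q) = zc (a + b) := by
  simp only [zc, ← map_mul, Heis.mul_def, dot_zero_left, add_zero]

theorem zc_zero : (zc 0 : Lam F q) = 1 := by
  rw [zc, ← Heis.one_def, map_one]

theorem zc_pow (n : ℕ) : (zc 1 : Lam F q) ^ n = zc (n : ZMod q) := by
  induction n with
  | zero => rw [pow_zero, Nat.cast_zero, zc_zero]
  | succ n ih => rw [pow_succ, ih, zc_add, Nat.cast_succ]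

theorem zc_comm (c : ZMod q) (g : Lam F q) : zc c * g = g * zc c := by
  rw [← inl_left_mul_inr_right g]
  have h1 : (zc c * inl g.left : Lam F q) = inl g.left * zc c := by
    simp only [zc, ← map_mul, Heis.mul_def, dot_zero_left, dot_zero_right, add_zero, add_comm]
  have h := inl_aut (φ := (Heis.act : F →* MulAut (Heis F q))) g.right ⟨0, c, 0⟩
  have h2 : (Heis.act g.right (⟨0, c, 0⟩ : Heis F q)) = ⟨0, c, 0⟩ := rfl
  rw [h2] at h
  have h3 : (zc c * inr g.right : Lam F q) = inr g.right * zc c := by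
    conv_lhs => rw [zc, h]
    rw [map_inv, inv_mul_cancel_right, zc]
  rw [← mul_assoc, h1, mul_assoc, h3, mul_assoc]

theorem zc_one_ne [Fact q.Prime] : (zc 1 : Lam F q) ≠ 1 := by
  intro h
  rw [← zc_zero] at h
  have := congrArg Heis.c (inl_injective h)
  exact one_ne_zero this

theorem rightHom_zc (c : ZMod q) : rightHom (zc c : Lam F q) = 1 := rightHom_inl _

theorem isPGroup_ker : IsPGroup q (rightHom : Lam F q →* F).ker := by
  rw [← range_inl_eq_ker_rightHom]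
  have h : IsPGroup q (Heis F q) := IsPGroup.of_card Heis.card
  exact h.of_surjective _ (MonoidHom.rangeRestrict_surjective _)

end Lam

section Rep

open SemidirectProduct Lam

variable {K M : Type} [Field K] [AddCommGroup M] [Module K M] [Fact q.Prime]

/-- The weight projector (up to a scalar). -/
noncomputable def proj [DecidableEq F] (ψ : AddChar (ZMod q) K) (ρ : Representation K (Lam F q) M)
    (w : F → ZMod q) : M →ₗ[K] M := ∑ v : F → ZMod q, ψ (-dot w v) • ρ (d v)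

variable [DecidableEq F] (ψ : AddChar (ZMod q) K) (ρ : Representation K (Lam F q) M)

theorem proj_apply (w : F → ZMod q) (m : M) :
    proj ψ ρ w m = ∑ v : F → ZMod q, ψ (-dot w v) • ρ (d v) m := by
  simp [proj, LinearMap.sum_apply]

theorem d_proj (u w : F → ZMod q) (m : M) :
    ρ (d u) (proj ψ ρ w m) = ψ (dot w u) • proj ψ ρ w m := by
  rw [proj_apply, map_sum, Finset.smul_sum]
  refine Fintype.sum_equiv (Equiv.addLeft u) _ _ fun v => ?_
  rw [map_smul, ← Module.End.mul_apply, ← map_mul, d_add, smul_smul, ← AddChar.map_add_eq_mul]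
  simp only [Equiv.coe_addLeft, dot_add_right]
  congr 2
  ring

theorem proj_d (u w : F → ZMod q) (m : M) :
    proj ψ ρ w (ρ (d u) m) = ψ (dot w u) • proj ψ ρ w m := by
  rw [← d_proj, proj_apply, proj_apply, map_sum]
  refine Finset.sum_congr rfl fun v _ => ?_
  rw [map_smul, ← Module.End.mul_apply, ← Module.End.mul_apply, ← map_mul, ← map_mul, d_add, d_add,
    add_comm]

theorem inr_proj (f : F) (w : F → ZMod q) (m : M) :
    ρ (inr f) (proj ψ ρ w m) = proj ψ ρ (sh f w) (ρ (inr f) m) := by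
  rw [proj_apply, proj_apply, map_sum]
  let e : (F → ZMod q) ≃ (F → ZMod q) :=
    { toFun := sh f, invFun := sh f⁻¹
      left_inv := fun x => by rw [← sh_mul, inv_mul_cancel, sh_one]
      right_inv := fun x => by rw [← sh_mul, mul_inv_cancel, sh_one] }
  refine Fintype.sum_equiv e _ _ fun v => ?_
  change _ = ψ (-dot (sh f w) (sh f v)) • ρ (d (sh f v)) (ρ (inr f) m)
  rw [map_smul, ← Module.End.mul_apply, ← Module.End.mul_apply, ← map_mul, ← map_mul, inr_d,
    dot_sh]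

variable {ψ ρ}

theorem proj_t (hz : ∀ c m, ρ (zc c) m = ψ c • m) (a w : F → ZMod q) (m : M) :
    proj ψ ρ (w + a) (ρ (t a) m) = ρ (t a) (proj ψ ρ w m) := by
  rw [proj_apply, proj_apply, map_sum]
  refine Finset.sum_congr rfl fun v _ => ?_
  rw [map_smul, ← Module.End.mul_apply, ← Module.End.mul_apply, ← map_mul, ← map_mul, d_t,
    map_mul, Module.End.mul_apply, hz, smul_smul, ← AddChar.map_add_eq_mul, dot_add_left,
    dot_comm a v]
  congr 2
  ring

omit [Group F] in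
theorem sum_dot (hψ : ∀ c, ψ c = 1 → c = 0) (v : F → ZMod q) (hv : v ≠ 0) :
    ∑ w : F → ZMod q, ψ (-dot w v) = 0 := by
  let χ : AddChar (F → ZMod q) K :=
    { toFun := fun w => ψ (-dot w v)
      map_zero_eq_one' := by simp [dot_zero_left]
      map_add_eq_mul' := fun a b => by
        rw [← AddChar.map_add_eq_mul, dot_add_left, neg_add] }
  have hχ : χ ≠ 1 := by
    obtain ⟨i, hi⟩ := Function.ne_iff.1 hv
    rw [AddChar.ne_one_iff]
    refine ⟨Pi.single i 1, fun h => hi ?_⟩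
    have h2 := hψ _ h
    simpa [dot, Pi.single_apply] using h2
  exact AddChar.sum_eq_zero_of_ne_one hχ

theorem exists_proj_ne (hψ : ∀ c, ψ c = 1 → c = 0) (hq : (q : K) ≠ 0) {m : M} (hm : m ≠ 0) :
    ∃ w, proj ψ ρ w m ≠ 0 := by
  by_contra h
  push Not at h
  have h1 : ∑ w, proj ψ ρ w m = 0 := by simp [h]
  simp only [proj_apply] at h1
  rw [Finset.sum_comm] at h1
  simp only [← Finset.sum_smul] at h1
  rw [Finset.sum_eq_single 0 (fun v _ hv => by rw [sum_dot hψ v hv, zero_smul]) (by simp)] at h1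
  simp only [dot_zero_right, neg_zero, AddChar.map_zero_eq_one, Finset.sum_const, Finset.card_univ,
    nsmul_eq_mul, mul_one, d_zero, map_one, Module.End.one_apply, Fintype.card_fun,
    ZMod.card, smul_eq_zero, hm, or_false] at h1
  exact hq (pow_eq_zero_iff'.1 (by exact_mod_cast h1)).1

/-- The indicator of the identity. -/
def e1 (F : Type) [Group F] [DecidableEq F] (q : ℕ) : F → ZMod q := Pi.single 1 1

theorem dot_e1 (c : ZMod q) : dot (e1 F q) (Pi.single 1 c) = c := by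
  simp [dot, e1, Pi.single_apply]

theorem dot_sh_e1 {f : F} (hf : f ≠ 1) (c : ZMod q) : dot (sh f (e1 F q)) (Pi.single 1 c) = 0 := by
  simp [dot, e1, sh, Pi.single_apply, hf]

omit [Fact q.Prime] [DecidableEq F] in
theorem rho_ne (g : Lam F q) {m : M} (hm : m ≠ 0) : ρ g m ≠ 0 := by
  intro h
  apply hm
  have := congrArg (ρ g⁻¹) h
  rwa [← Module.End.mul_apply, ← map_mul, inv_mul_cancel, map_one, Module.End.one_apply,
    map_zero] at this

theorem exists_t (hψ : ∀ c, ψ c = 1 → c = 0) (hq : (q : K) ≠ 0)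
    (hz : ∀ c m, ρ (zc c) m = ψ c • m) {m : M} (hm : m ≠ 0) :
    ∃ a, proj ψ ρ (e1 F q) (ρ (t a) m) ≠ 0 := by
  obtain ⟨w, hw⟩ := exists_proj_ne (ρ := ρ) hψ hq hm
  refine ⟨e1 F q - w, ?_⟩
  have := proj_t hz (e1 F q - w) w m
  rw [add_sub_cancel] at this
  rw [this]
  exact rho_ne _ hw

/-- Every non-zero vector can be moved to a line with trivial stabiliser in `F`. -/
theorem exists_regular (hψ : ∀ c, ψ c = 1 → c = 0) (hq : (q : K) ≠ 0)
    (hz : ∀ c m, ρ (zc c) m = ψ c • m) (hF : Fintype.card F < q) {m : M} (hm : m ≠ 0) :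
    ∃ g : Lam F q, ∀ f : F, f ≠ 1 → ∀ a : K, ρ (inr f) (ρ g m) ≠ a • ρ g m := by
  obtain ⟨a, ha⟩ := exists_t hψ hq hz hm
  obtain ⟨m', hm'⟩ : ∃ m', m' = ρ (t a) m := ⟨_, rfl⟩
  have hm0 : m' ≠ 0 := hm' ▸ rho_ne _ hm
  rw [← hm'] at ha
  by_contra hcon
  push Not at hcon
  have hcon' : ∀ c : ZMod q, ∃ f : F, f ≠ 1 ∧ ∃ b : K,
      ρ (inr f) (ρ (d (Pi.single 1 c)) m') = b • ρ (d (Pi.single 1 c)) m' := by
    intro c
    obtain ⟨f, hf, b, hb⟩ := hcon (d (Pi.single 1 c) * t a)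
    refine ⟨f, hf, b, ?_⟩
    rwa [map_mul, Module.End.mul_apply, ← hm'] at hb
  choose f hf b hb using hcon'
  have hpow : ∀ c, b c ^ Fintype.card F = 1 := by
    intro c
    have h1 : ∀ n : ℕ, ρ (inr (f c ^ n)) (ρ (d (Pi.single 1 c)) m') =
        b c ^ n • ρ (d (Pi.single 1 c)) m' := by
      intro n
      induction n with
      | zero => simp
      | succ n ih =>
        rw [pow_succ, map_mul, map_mul, Module.End.mul_apply, hb, map_smul, ih, smul_smul,
          pow_succ']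
    have h2 := h1 (Fintype.card F)
    rw [pow_card_eq_one, map_one, map_one, Module.End.one_apply] at h2
    have h3 : (b c ^ Fintype.card F - 1) • ρ (d (Pi.single 1 c)) m' = 0 := by
      rw [sub_smul, one_smul, ← h2, sub_self]
    exact sub_eq_zero.1 ((smul_eq_zero.1 h3).resolve_right (rho_ne _ hm0))
  have hkey : ∀ c, ψ c • ρ (inr (f c)) (proj ψ ρ (e1 F q) m') =
      b c • proj ψ ρ (sh (f c) (e1 F q)) m' := by
    intro c
    have h1 := congrArg (proj ψ ρ (sh (f c) (e1 F q))) (hb c)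
    rw [← inr_proj, proj_d, dot_e1, map_smul, map_smul, proj_d, dot_sh_e1 (hf c),
      AddChar.map_zero_eq_one, one_smul] at h1
    exact h1
  have hinj : Function.Injective f := by
    intro c c' hcc
    have h1 := hkey c
    have h2 := hkey c'
    rw [← hcc] at h2
    have h3 : (b c' * ψ c - b c * ψ c') • ρ (inr (f c)) (proj ψ ρ (e1 F q) m') = 0 := by
      rw [sub_smul, mul_smul, mul_smul, h1, h2, smul_smul, smul_smul, mul_comm, sub_self]
    have h4 := sub_eq_zero.1 ((smul_eq_zero.1 h3).resolve_right (rho_ne _ ha))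
    have h5 : ψ c ^ Fintype.card F = ψ c' ^ Fintype.card F := by
      have := congrArg (· ^ Fintype.card F) h4
      simpa only [mul_pow, hpow, one_mul] using this
    rw [← AddChar.map_nsmul_eq_pow, ← AddChar.map_nsmul_eq_pow] at h5
    have h6 : ψ (Fintype.card F • c - Fintype.card F • c') = 1 := by
      rw [AddChar.map_sub_eq_div, h5, div_self]
      exact (ψ.val_isUnit _).ne_zero
    have h7 := hψ _ h6
    rw [← smul_sub, nsmul_eq_mul, mul_eq_zero, sub_eq_zero] at h7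
    refine h7.resolve_left ?_
    rw [ZMod.natCast_eq_zero_iff]
    exact Nat.not_dvd_of_pos_of_lt Fintype.card_pos hF
  have := Fintype.card_le_of_injective f hinj
  rw [ZMod.card] at this
  omega

/-- A vector whose norms give a strictly decreasing chain of fixed spaces. -/
theorem exists_free (hψ : ∀ c, ψ c = 1 → c = 0) (hq : (q : K) ≠ 0)
    (hz : ∀ c m, ρ (zc c) m = ψ c • m) {m : M} (hm : m ≠ 0) (F' : Subgroup F) {g : F}
    (hg : g ∉ F') : ∃ c : M, (∀ f ∈ F', ρ (inr f) c = c) ∧ ρ (inr g) c ≠ c := by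
  classical
  obtain ⟨a, ha⟩ := exists_t hψ hq hz hm
  obtain ⟨b, hb⟩ : ∃ b, b = proj ψ ρ (e1 F q) (ρ (t a) m) := ⟨_, rfl⟩
  rw [← hb] at ha
  have hfix : ∀ f : F, f ≠ 1 → ρ (d (Pi.single 1 1)) (ρ (inr f) b) = ρ (inr f) b := by
    intro f hf
    rw [hb, inr_proj, d_proj, dot_sh_e1 hf, AddChar.map_zero_eq_one, one_smul]
  have hb1 : ρ (d (Pi.single 1 1)) b = ψ 1 • b := by
    rw [hb, d_proj, dot_e1]
  refine ⟨∑ f : F', ρ (inr (f : F)) b, fun f hf => ?_, fun h => ?_⟩
  · rw [map_sum]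
    refine Fintype.sum_equiv (Equiv.mulLeft (⟨f, hf⟩ : F')) _ _ fun x => ?_
    rw [← Module.End.mul_apply, ← map_mul, ← map_mul]
    rfl
  · have h1 : ρ (d (Pi.single 1 1)) (∑ f : F', ρ (inr (f : F)) b) =
        ∑ f : F', ρ (inr (f : F)) b := by
      rw [← h, map_sum, map_sum]
      refine Finset.sum_congr rfl fun x _ => ?_
      rw [← Module.End.mul_apply (ρ (inr g)), ← map_mul, ← map_mul]
      refine hfix _ fun hx => hg ?_
      rw [eq_inv_of_mul_eq_one_left hx]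
      exact F'.inv_mem x.2
    have h3 : ∑ x ∈ Finset.univ.erase (1 : F'), ρ (d (Pi.single 1 1)) (ρ (inr (x : F)) b) =
        ∑ x ∈ Finset.univ.erase (1 : F'), ρ (inr (x : F)) b :=
      Finset.sum_congr rfl fun x hx => hfix (x : F)
        fun h1 => (Finset.mem_erase.1 hx).1 (Subtype.ext h1)
    rw [map_sum, ← Finset.add_sum_erase _ _ (Finset.mem_univ (1 : F')),
      ← Finset.add_sum_erase _ _ (Finset.mem_univ (1 : F')), h3, add_left_inj] at h1
    simp only [OneMemClass.coe_one, map_one, Module.End.one_apply] at h1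
    rw [hb1] at h1
    have h2 : (ψ 1 - 1) • b = 0 := by rw [sub_smul, h1, one_smul, sub_self]
    exact one_ne_zero (hψ 1 (sub_eq_zero.1 ((smul_eq_zero.1 h2).resolve_right ha)))

end Rep

end Pool.Agent.Lib.MP_679d9b_al
end

-- part Pool.Agent.Lib.MP_679d9b_al.LemA
section

/-!
In a finite group mapping onto the wreath product with kernel of order prime to `p` we find an
elementary abelian subgroup carrying a representation of the extended Heisenberg group.
-/

set_option autoImplicit false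

namespace Pool.Agent.Lib.MP_679d9b_al

open Subgroup SemidirectProduct

/-- The regular wreath product of a cyclic group of order `s` with `L`. -/
abbrev Wr (s : ℕ) (L : Type) [Group L] : Type := (L → Multiplicative (ZMod s)) ⋊[mulAutArrow] L

instance (s : ℕ) [NeZero s] (L : Type) [Group L] [Finite L] : Finite (Wr s L) :=
  Finite.of_equiv _ SemidirectProduct.equivProd.symm

theorem wr_pow {s : ℕ} {L : Type} [Group L] (γ : Wr s L) (h : γ.right = 1) : γ ^ s = 1 := by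
  rw [← inl_left_mul_inr_right γ, h, map_one, mul_one, ← map_pow, ← map_one inl]
  refine congrArg _ (funext fun x => ?_)
  exact Multiplicative.toAdd.injective (by simp)

/-- A generator of the base group. -/
def bas (s : ℕ) (L : Type) [Group L] [DecidableEq L] : Wr s L :=
  inl (Pi.mulSingle (1 : L) (Multiplicative.ofAdd (1 : ZMod s)) : L → Multiplicative (ZMod s))

theorem wr_ne {s : ℕ} [Fact s.Prime] {L : Type} [Group L] [DecidableEq L] (γ : Wr s L)
    (h : γ.right ≠ 1) : γ * bas s L * γ⁻¹ ≠ bas s L := by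
  intro h1
  rw [mul_inv_eq_iff_eq_mul] at h1
  have h2 := congrFun (congrArg SemidirectProduct.left h1) γ.right
  simp only [bas, mul_left, left_inl, right_inl, map_one, MulAut.one_apply, Pi.mul_apply] at h2
  rw [Pi.mulSingle_eq_of_ne h, one_mul, mul_eq_left] at h2
  have h3 : (Pi.mulSingle 1 (Multiplicative.ofAdd 1) : L → Multiplicative (ZMod s))
    (γ.right⁻¹ • γ.right) = 1 := h2
  rw [smul_eq_mul, inv_mul_cancel, Pi.mulSingle_eq_same] at h3
  exact one_ne_zero (Multiplicative.ofAdd.injective h3)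

theorem exists_cent {H G : Type} [Group H] [Finite H] [Group G] {q s : ℕ} [Fact q.Prime]
    [Fact s.Prime] (hqs : q ≠ s) (ψ : H →* G) {S Q : Subgroup H} (hS : IsPGroup s S)
    (hQ : IsPGroup q Q) (hQS : Q ≤ normalizer (S : Set H)) (hψ : ∀ y ∈ Q, ψ y = 1) {s0 : H}
    (hs0 : s0 ∈ S) : ∃ s1 ∈ S ⊓ centralizer (Q : Set H), ψ s1 = ψ s0 := by
  let _ : MulAction Q {x : H // x ∈ S ∧ ψ x = ψ s0} :=
    { smul := fun y x => ⟨y * x * (y : H)⁻¹, (mem_normalizer_iff.1 (hQS y.2) _).1 x.2.1, by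
        rw [map_mul, map_mul, map_inv, hψ y y.2, x.2.2]; simp⟩
      one_smul := fun x => Subtype.ext (by
        change ((1 : Q) : H) * x * ((1 : Q) : H)⁻¹ = x
        simp)
      mul_smul := fun a b x => Subtype.ext (by
        change ((a * b : Q) : H) * x * ((a * b : Q) : H)⁻¹ = a * (b * x * (b : H)⁻¹) * (a : H)⁻¹
        simp [mul_assoc]) }
  let e : {x : H // x ∈ S ∧ ψ x = ψ s0} ≃ (S ⊓ ψ.ker : Subgroup H) :=
    { toFun := fun x => ⟨s0⁻¹ * x, S.mul_mem (S.inv_mem hs0) x.2.1, by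
        change ψ _ = 1
        rw [map_mul, map_inv, x.2.2, inv_mul_cancel]⟩
      invFun := fun y => ⟨s0 * y, S.mul_mem hs0 y.2.1, by
        have h : ψ y = 1 := y.2.2
        rw [map_mul, h, mul_one]⟩
      left_inv := fun x => Subtype.ext (by simp)
      right_inv := fun y => Subtype.ext (by simp) }
  obtain ⟨n, hn⟩ := IsPGroup.iff_card.1 (hS.to_inf_left (K := ψ.ker))
  obtain ⟨x, hx⟩ := hQ.nonempty_fixed_point_of_prime_not_dvd_card
    {x : H // x ∈ S ∧ ψ x = ψ s0} (by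
      rw [Nat.card_congr e, hn]
      exact fun h => hqs ((Nat.prime_dvd_prime_iff_eq Fact.out Fact.out).1
        ((Fact.out : q.Prime).dvd_of_dvd_pow h)))
  refine ⟨x, ⟨x.2.1, fun y hy => ?_⟩, x.2.2⟩
  have h1 : y * x * y⁻¹ = x := congrArg Subtype.val (hx ⟨y, hy⟩)
  exact mul_inv_eq_iff_eq_mul.1 h1

theorem lemA {H F : Type} [Group H] [Finite H] [Group F] [Fintype F] {p q s : ℕ} [Fact p.Prime]
    [Fact q.Prime] [Fact s.Prime] (hF : IsPGroup p F) (hpq : q ≠ p) (hps : s ≠ p) (hq2 : q ≠ 2)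
    {ζ : ZMod s} (hζ : IsPrimitiveRoot ζ q) (ψ : H →* Wr s (Lam F q))
    (hψ : Function.Surjective ψ) (hK : ∀ g, ψ g = 1 → g ^ p = 1 → g = 1) (j : F →* H)
    (hj : ∀ f, ψ (j f) = inr (inr f)) :
    ∃ (V : Type) (_ : AddCommGroup V) (_ : Module (ZMod s) V) (_ : Finite V) (_ : Nontrivial V)
      (i : V → H) (ρ : Representation (ZMod s) (Lam F q) V) (k : ZMod s),
      (∀ v w, i (v + w) = i v * i w) ∧ Function.Injective i ∧ IsPrimitiveRoot k q ∧
      (∀ v, ρ (Lam.zc 1) v = k • v) ∧ (∀ g, ∃ l, ∀ v, l * i v * l⁻¹ = i (ρ g v)) ∧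
      ∀ f v, j f * i v * (j f)⁻¹ = i (ρ (inr f) v) := by
  classical
  have hqs : q ≠ s := by
    intro h
    have h1 : (q : ZMod s) ≠ 0 := hζ.neZero'.1
    exact h1 (by rw [h]; exact ZMod.natCast_self _)
  obtain ⟨θ, hθ⟩ : ∃ θ : H →* Lam F q, ∀ g, θ g = (ψ g).right := ⟨rightHom.comp ψ, fun _ => rfl⟩
  have hθj : ∀ f, θ (j f) = inr f := fun f => by rw [hθ, hj, right_inr]
  have hFj : IsPGroup p j.range := hF.of_surjective _ j.rangeRestrict_surjective
  have hD : ∀ g ∈ θ.ker, g ^ p = 1 → g = 1 := by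
    intro g hg hp
    refine hK g (eq_one_of_coprime ((Nat.coprime_primes Fact.out Fact.out).2 hps)
      (wr_pow _ (by rw [← hθ]; exact hg)) (by rw [← map_pow, hp, map_one])) hp
  obtain ⟨S, hS, hFS⟩ := exists_syl (r := s) hFj (le_normalizer_of_normal (H := θ.ker)) (Or.inr hD)
  have hθN : ∀ g, ∃ n ∈ normalizer (S : Set H), θ n = g := by
    intro g
    obtain ⟨h, hh⟩ := hψ (inr g)
    obtain ⟨m, hm, n, hn, rfl⟩ := hS.frattini h
    refine ⟨m, hm, ?_⟩
    have h1 : θ (m * n) = g := by rw [hθ, hh, right_inr]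
    rwa [map_mul, MonoidHom.mem_ker.1 hn, mul_one] at h1
  have hQp : ∀ g ∈ normalizer (S : Set H) ⊓ (rightHom.comp θ).ker, g ^ p = 1 → g = 1 := by
    intro g hg hp
    refine hD g (eq_one_of_pgroup Lam.isPGroup_ker ((Nat.coprime_primes Fact.out Fact.out).2 hpq)
      hg.2 (by rw [← map_pow, hp, map_one])) hp
  obtain ⟨Q, hQ, hFQ⟩ := exists_syl (r := q) hFj
    (N := normalizer (S : Set H) ⊓ (rightHom.comp θ).ker) (le_normalizer_iff.2 fun f hf y hy =>
      ⟨Subgroup.mul_mem _ (Subgroup.mul_mem _ (hFS hf) hy.1) (Subgroup.inv_mem _ (hFS hf)),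
        (MonoidHom.normal_ker _).conj_mem _ hy.2 f⟩) (Or.inr hQp)
  have hθQ : ∀ g : Lam F q, rightHom g = 1 → ∃ y ∈ Q, θ y = g := by
    intro g hg
    obtain ⟨n, hn, rfl⟩ := hθN g
    exact hQ.surj θ (Lam.isPGroup_ker.to_le (by rintro _ ⟨y, hy, rfl⟩; exact hy.2)) ⟨hn, hg⟩
  have hQS : Q ≤ normalizer (S : Set H) := hQ.le.trans inf_le_left
  have hLS : Q ⊔ j.range ≤ normalizer (S : Set H) := sup_le hQS hFS
  have hLQ : Q ⊔ j.range ≤ normalizer (Q : Set H) := sup_le le_normalizer hFQ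
  have hψ0 : ∀ y ∈ Q ⊓ θ.ker, ψ y = 1 := by
    intro y hy
    obtain ⟨k, hk⟩ := pow_eq_one_of_mem hQ.pg hy.1
    exact eq_one_of_coprime (Nat.Coprime.pow_left k ((Nat.coprime_primes Fact.out Fact.out).2 hqs))
      (by rw [← map_pow, hk, map_one]) (wr_pow _ (by rw [← hθ]; exact hy.2))
  obtain ⟨S1, hS1⟩ : ∃ S1 : Subgroup H, S1 = S ⊓ centralizer ((Q ⊓ θ.ker : Subgroup H) : Set H) :=
    ⟨_, rfl⟩
  have hLS1 : Q ⊔ j.range ≤ normalizer (S1 : Set H) := by
    refine le_normalizer_iff.2 fun l hl b hb => ?_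
    rw [hS1] at hb ⊢
    refine ⟨(mem_normalizer_iff.1 (hLS hl) _).1 hb.1, fun y hy => ?_⟩
    have h1 : l⁻¹ * y * l⁻¹⁻¹ ∈ Q ⊓ θ.ker :=
      ⟨(mem_normalizer_iff.1 (hLQ (inv_mem hl)) _).1 hy.1,
        (MonoidHom.normal_ker _).conj_mem _ hy.2 _⟩
    have h2 := hb.2 _ h1
    calc y * (l * b * l⁻¹) = l * (l⁻¹ * y * l⁻¹⁻¹ * b) * l⁻¹ := by group
      _ = l * b * l⁻¹ * y := by rw [h2]; group
  have hsurj : Function.Surjective (θ.comp (Q ⊔ j.range).subtype) := by
    intro g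
    obtain ⟨y, hy, hyg⟩ := hθQ (inl g.left) (rightHom_inl _)
    refine ⟨⟨y * j g.right, mul_mem_sup hy ⟨_, rfl⟩⟩, ?_⟩
    change θ (y * j g.right) = g
    rw [map_mul, hyg, hθj, inl_left_mul_inr_right]
  obtain ⟨α, hα⟩ := exists_lift hsurj (S1.normalizerMonoidHom.comp (inclusion hLS1)) (by
    rintro ⟨l, hl⟩ h
    have h1 : l ∈ ((Q ⊔ j.range : Subgroup H) : Set H) := hl
    rw [coe_mul_of_right_le_normalizer_left _ _ hFQ] at h1
    obtain ⟨y, hy, _, ⟨f, rfl⟩, rfl⟩ := h1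
    have h2 : θ (y * j f) = 1 := h
    have h3 : rightHom (θ y) = 1 := (hQ.le hy).2
    have h4 := congrArg rightHom h2
    rw [map_mul, map_mul, h3, hθj, rightHom_inr, one_mul, map_one] at h4
    subst h4
    rw [map_one, mul_one] at h2
    ext b
    have hb : (b : H) ∈ S ⊓ centralizer ((Q ⊓ θ.ker : Subgroup H) : Set H) := hS1 ▸ b.2
    change y * j 1 * b * (y * j 1)⁻¹ = b
    rw [map_one, mul_one, hb.2 y ⟨hy, h2⟩, mul_inv_cancel_right])
  have hα' : ∀ l (hl : l ∈ Q ⊔ j.range) (b : S1), (α (θ l) b : H) = l * b * l⁻¹ := fun l hl b =>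
    congrArg (fun f : MulAut S1 => (f b : H)) (hα ⟨l, hl⟩)
  have hS1p : IsPGroup s S1 := hS.pg.to_le (hS1 ▸ inf_le_left)
  have hne : ∃ b, α (Lam.zc 1) b ≠ b := by
    obtain ⟨⟨z, hz⟩, hzz⟩ := hsurj (Lam.zc 1)
    have hzz' : θ z = Lam.zc 1 := hzz
    obtain ⟨g, hg⟩ := hψ (bas s (Lam F q))
    obtain ⟨s0, hs0, hs0'⟩ := hS.surj ψ (n := g) (by
      rintro ⟨_, y, hy, rfl⟩
      refine ⟨1, Subtype.ext ?_⟩
      rw [pow_one]
      exact wr_pow _ (by rw [← hθ]; exact hy)) (by rw [MonoidHom.mem_ker, hθ, hg]; rfl)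
    obtain ⟨s1, hs1, hs1'⟩ := exists_cent hqs ψ hS.pg (hQ.pg.to_inf_left (K := θ.ker))
      (inf_le_left.trans hQS) hψ0 hs0
    refine ⟨⟨s1, hS1 ▸ hs1⟩, fun h => wr_ne (ψ z) (by rw [← hθ, hzz']; exact Lam.zc_one_ne) ?_⟩
    have h1 := congrArg (fun b : S1 => ψ b) h
    simp only [← hzz', hα' z hz] at h1
    rwa [map_mul, map_mul, map_inv, hs1', hs0', hg] at h1
  obtain ⟨B, hBinv, ⟨b0, hb0, hb0'⟩, hBc, hBs, k, hk, hBk⟩ := exists_abel hS1p hq2 hζ α
    (Lam.zc_comm 1) (by rw [Lam.zc_pow, ZMod.natCast_self, Lam.zc_zero]) hne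
  let _ : CommGroup B :=
    { (inferInstance : Group B) with mul_comm := fun a b => Subtype.ext (hBc _ a.2 _ b.2) }
  obtain ⟨inst⟩ : Nonempty (Module (ZMod s) (Additive B)) :=
    ⟨AddCommGroup.zmodModule fun x => Subtype.ext (hBs _ x.toMul.2)⟩
  let τ : Lam F q → B →* B := fun g =>
    ((α g).toMonoidHom.comp B.subtype).codRestrict B fun b => hBinv g b b.2
  let ρ : Representation (ZMod s) (Lam F q) (Additive B) :=
    { toFun := fun g => (MonoidHom.toAdditive (τ g)).toZModLinearMap s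
      map_one' := LinearMap.ext fun v => Subtype.ext (by
        change α 1 _ = _
        rw [map_one]; rfl)
      map_mul' := fun a b => LinearMap.ext fun v => Subtype.ext (by
        change α (a * b) _ = _
        rw [map_mul]; rfl) }
  refine ⟨Additive B, inferInstance, inferInstance, inferInstance,
    ⟨Additive.ofMul ⟨b0, hb0⟩, 0, fun h => hb0' (congrArg Subtype.val h)⟩,
    fun v => ((v.toMul : S1) : H), ρ, k, fun _ _ => rfl,
    fun v w h => Subtype.ext (Subtype.ext h), hk, fun v => ?_, fun g => ?_, fun f v => ?_⟩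
  · rw [Nat.cast_smul_eq_nsmul]
    exact Subtype.ext (hBk _ v.toMul.2)
  · obtain ⟨⟨l, hl⟩, rfl⟩ := hsurj g
    exact ⟨l, fun v => (hα' l hl _).symm⟩
  · rw [← hθj]
    exact (hα' _ (mem_sup_right ⟨f, rfl⟩) _).symm

end Pool.Agent.Lib.MP_679d9b_al
end

-- part Pool.Agent.Lib.MP_679d9b_al.LemB
section

/-!
Lifting fixed points through a normal `p`-subgroup.
-/

set_option autoImplicit false

namespace Pool.Agent.Lib.MP_679d9b_al

open Subgroup
open scoped commutatorElement IsMulCommutative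

theorem lemB {H Hq F V : Type} [Group H] [Finite H] [Group Hq] [Group F] [Finite F]
    {p s : ℕ} [Fact p.Prime] [Fact s.Prime] [AddCommGroup V] [Module (ZMod s) V] [Finite V]
    (hps : p ≠ s) (π : H →* Hq) (hπ : Function.Surjective π) (hker : IsPGroup p π.ker)
    (i : V → Hq) (hi : ∀ v w, i (v + w) = i v * i w) (hinj : Function.Injective i)
    (hnorm : ∀ h v, ∃ v', π h * i v * (π h)⁻¹ = i v') (j : F →* H) (σ : F → V →ₗ[ZMod s] V)
    (hσ : ∀ f v, π (j f) * i v * (π (j f))⁻¹ = i (σ f v))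
    (hreg : ∀ η : Module.Dual (ZMod s) V, η ≠ 0 → ∃ (h : H) (η' : Module.Dual (ZMod s) V),
      (∀ v v', π h * i v * (π h)⁻¹ = i v' → η' v' = η v) ∧
        ∀ f, f ≠ 1 → ∃ v, η' v = 0 ∧ η' (σ f v) ≠ 0)
    (F' : Subgroup F) {g : F} (hg : g ∉ F')
    (hfree : ∃ c : V, (∀ f ∈ F', σ f c = c) ∧ σ g c ≠ c) :
    ∃ c : H, (∀ f ∈ F', Commute (j f) c) ∧ ¬ Commute (j g) c := by
  classical
  have hcop : p.Coprime s := (Nat.coprime_primes Fact.out Fact.out).2 hps
  have hi0 : i 0 = 1 := by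
    have := hi 0 0
    rw [add_zero] at this
    exact mul_eq_left.1 this.symm
  have his : ∀ v, i v ^ s = 1 := by
    intro v
    have h1 : ∀ n : ℕ, i (n • v) = i v ^ n := by
      intro n
      induction n with
      | zero => rw [zero_smul, hi0, pow_zero]
      | succ n ih => rw [succ_nsmul, hi, ih, pow_succ]
    rw [← h1, ZModModule.char_nsmul_eq_zero, hi0]
  have hlift : ∀ v, ∃ e, e ^ s = 1 ∧ π e = i v := by
    intro v
    obtain ⟨e, he⟩ := hπ (i v)
    obtain ⟨k, hk⟩ := pow_eq_one_of_mem hker (g := e ^ s) (by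
      rw [MonoidHom.mem_ker, map_pow, he, his])
    obtain ⟨m, -, hm⟩ := Nat.exists_mul_mod_eq_one_of_coprime (Nat.Coprime.pow_left k hcop)
      (Fact.out : s.Prime).one_lt
    refine ⟨e ^ (p ^ k * m), ?_, ?_⟩
    · rw [← pow_mul, mul_comm _ s, pow_mul, pow_mul, hk, one_pow]
    · rw [map_pow, he, pow_eq_pow_mod _ (his v), hm, pow_one]
  choose lift hlift1 hlift2 using hlift
  obtain ⟨E, hE⟩ : ∃ E : Set H, ∀ e, e ∈ E ↔ e ^ s = 1 ∧ ∃ v, π e = i v :=
    ⟨{e | e ^ s = 1 ∧ ∃ v, π e = i v}, fun _ => Iff.rfl⟩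
  have hlE : ∀ v, lift v ∈ E := fun v => (hE _).2 ⟨hlift1 v, v, hlift2 v⟩
  have hEconj : ∀ h, ∀ e ∈ E, h * e * h⁻¹ ∈ E := by
    intro h e he
    obtain ⟨h1, v, hv⟩ := (hE e).1 he
    obtain ⟨v', hv'⟩ := hnorm h v
    exact (hE _).2 ⟨by rw [conj_pow, h1]; simp, v', by rw [map_mul, map_mul, map_inv, hv, hv']⟩
  by_cases hI : ∀ e ∈ E, ∀ y ∈ π.ker, Commute e y
  · obtain ⟨c, hc, hcg⟩ := hfree
    refine ⟨lift c, fun f hf => ?_, fun h => hcg (hinj ?_)⟩
    · have h1 : (lift c)⁻¹ * (j f * lift c * (j f)⁻¹) ∈ π.ker := by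
        rw [MonoidHom.mem_ker, map_mul, map_mul, map_mul, map_inv, map_inv, hlift2, hσ, hc f hf,
          inv_mul_cancel]
      have h2 := (hI _ (hlE c) _ h1).mul_pow s
      rw [mul_inv_cancel_left, conj_pow, hlift1, one_mul] at h2
      have h3 := eq_one_of_pgroup hker hcop h1 (by rw [← h2]; simp)
      rw [inv_mul_eq_one, eq_mul_inv_iff_mul_eq] at h3
      exact h3.symm
    · rw [← hσ, ← hlift2, ← map_inv, ← map_mul, ← map_mul, h.eq, mul_inv_cancel_right]
  push Not at hI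
  obtain ⟨X, ⟨hXn, hXP, hXne⟩, hmin⟩ := exists_minimal_of_wellFoundedLT
    (fun X : Subgroup H => X.Normal ∧ X ≤ π.ker ∧ ∃ e ∈ E, ∃ x ∈ X, ¬ Commute e x)
    ⟨π.ker, inferInstance, le_rfl, hI⟩
  have hXp : IsPGroup p X := hker.to_le hXP
  obtain ⟨Y, hY⟩ : ∃ Y : Subgroup H, ∀ y, y ∈ Y ↔ y ∈ X ∧ ∀ e ∈ E, Commute e y :=
    ⟨X ⊓ centralizer E, fun _ => Iff.rfl⟩
  have hYconj : ∀ h, ∀ y ∈ Y, h * y * h⁻¹ ∈ Y := by
    intro h y hy
    refine (hY _).2 ⟨hXn.conj_mem _ ((hY y).1 hy).1 h, fun e he => ?_⟩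
    have h1 := ((hY y).1 hy).2 _ (hEconj h⁻¹ e he)
    have h2 := h1.map (MulAut.conj h)
    simpa [mul_assoc] using h2
  have hdich : ∀ C ≤ X, C.Normal → C ≤ Y ∨ X ≤ C := by
    intro C hC hn
    by_cases h : ∃ e ∈ E, ∃ x ∈ C, ¬ Commute e x
    · exact Or.inr (hmin ⟨hn, hC.trans hXP, h⟩ hC)
    · push Not at h
      exact Or.inl fun c hc => (hY c).2 ⟨hC hc, fun e he => h e he c hc⟩
  have hnot : ¬ ∀ e ∈ E, ∀ x ∈ X, x⁻¹ * (e * x * e⁻¹) ∈ Y := by
    intro h
    obtain ⟨e, he, x, hx, hne⟩ := hXne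
    have h1 : MulAut.conj e x = x := fix_of_coprime (hXp.to_le fun y hy => ((hY y).1 hy).1) hcop
      (MulAut.conj e) (fun y hy => by
        rw [MulAut.conj_apply, (((hY y).1 hy).2 e he).eq, mul_inv_cancel_right])
      (by rw [← map_pow, ((hE e).1 he).1, map_one, MulAut.one_apply]) (h e he x hx)
    rw [MulAut.conj_apply, mul_inv_eq_iff_eq_mul] at h1
    exact hne h1
  have hXP' : ⁅X, π.ker⁆ ≤ Y := by
    refine (hdich _ (commutator_le_left _ _) inferInstance).resolve_right fun h => ?_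
    obtain ⟨e, he, x, hx, hne⟩ := hXne
    rw [commutator_ne hker hXP h, mem_bot] at hx
    exact hne (hx ▸ Commute.one_right e)
  have hXX : ⁅X, X⁆ ≤ Y := (commutator_mono le_rfl hXP).trans hXP'
  have hcent : ∀ x ∈ X, ∀ y ∈ Y, Commute x y := by
    have hmem : ∀ c, c ∈ X ⊓ centralizer (Y : Set H) ↔ c ∈ X ∧ ∀ y ∈ Y, y * c = c * y :=
      fun c => Iff.rfl
    refine fun b hb y hy => (((hmem b).1 ((hdich _ inf_le_left ⟨fun c hc h => ?_⟩).resolve_left
      (fun h => hnot fun e he b hb => h ?_) hb)).2 y hy).symm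
    · rw [hmem] at hc ⊢
      refine ⟨hXn.conj_mem _ hc.1 h, fun y hy => ?_⟩
      have h1 := hc.2 _ (hYconj h⁻¹ y hy)
      calc y * (h * c * h⁻¹) = h * (h⁻¹ * y * h⁻¹⁻¹ * c) * h⁻¹ := by group
        _ = h * c * h⁻¹ * y := by rw [h1]; group
    · refine (hmem _).2 ⟨X.mul_mem (X.inv_mem hb) (hXn.conj_mem _ hb e), fun y hy => ?_⟩
      have h1 := (((hY _).1 (hYconj b y hy)).2 e he).eq
      have h2 := (((hY _).1 hy).2 e he).inv_left.eq
      calc y * (b⁻¹ * (e * b * e⁻¹)) = b⁻¹ * (b * y * b⁻¹ * e) * b * e⁻¹ := by group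
        _ = b⁻¹ * e * b * (y * e⁻¹) := by rw [← h1]; group
        _ = b⁻¹ * (e * b * e⁻¹) * y := by rw [← h2]; group
  obtain ⟨W, _, ϖ, hϖs, hϖ⟩ := exists_quot X Y hXX
  have hT : ∀ h : H, ∃ T : W →* W, ∀ x, T (ϖ x) = ϖ (MulAut.conjNormal h x) := fun h =>
    exists_lift hϖs (ϖ.comp (MulAut.conjNormal h).toMonoidHom) fun x hx =>
      (hϖ (MulAut.conjNormal h x)).2 (hYconj h _ ((hϖ x).1 hx))
  choose T hT using hT
  have hTmul : ∀ h h' w, T (h * h') w = T h (T h' w) := by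
    intro h h' w
    obtain ⟨x, rfl⟩ := hϖs w
    rw [hT, hT, hT, map_mul, MulAut.mul_apply]
  have hTker : ∀ y ∈ π.ker, ∀ w, T y w = w := by
    intro y hy w
    obtain ⟨x, rfl⟩ := hϖs w
    rw [hT, ← mul_inv_eq_one, ← map_inv, ← map_mul, hϖ]
    have h1 := Y.inv_mem (hXP' (commutator_mem_commutator x.2 hy))
    rw [commutatorElement_inv, commutatorElement_def] at h1
    exact h1
  have hTeq : ∀ h h', π h = π h' → ∀ w, T h w = T h' w := by
    intro h h' hh w
    rw [← mul_inv_cancel_left h' h, hTmul, hTker (h'⁻¹ * h)]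
    rw [MonoidHom.mem_ker, map_mul, map_inv, hh, inv_mul_cancel]
  have hTinv : ∀ h w, T h⁻¹ (T h w) = w := fun h w => by
    rw [← hTmul, inv_mul_cancel, hTker 1 (one_mem _)]
  obtain ⟨A, hAdef⟩ : ∃ A : V → W →* W, ∀ v, A v = T (lift v) := ⟨_, fun _ => rfl⟩
  have hA0 : ∀ w, A 0 w = w := fun w => by
    rw [hAdef, hTker]
    rw [MonoidHom.mem_ker, hlift2, hi0]
  have hA : ∀ v v' w, A (v + v') w = A v (A v' w) := fun v v' w => by
    rw [hAdef, hAdef, hAdef, ← hTmul]
    exact hTeq _ _ (by rw [map_mul, hlift2, hlift2, hlift2, hi]) w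
  have hTA : ∀ h v v' w, π h * i v * (π h)⁻¹ = i v' → T h (A v w) = A v' (T h w) := by
    intro h v v' w hv
    rw [hAdef, hAdef, ← hTmul, ← hTmul]
    exact hTeq _ _ (by rw [map_mul, map_mul, hlift2, hlift2, ← hv, inv_mul_cancel_right]) w
  have hback : ∀ h v', ∃ v, π h * i v * (π h)⁻¹ = i v' := by
    intro h v'
    obtain ⟨v, hv⟩ := hnorm h⁻¹ v'
    exact ⟨v, by rw [← hv, map_inv]; group⟩
  have hWp : ∀ (w : W) (n : ℕ), w ^ s ^ n = 1 → w = 1 := by
    intro w n hw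
    obtain ⟨k, hk⟩ := hXp.of_surjective ϖ hϖs w
    exact eq_one_of_coprime (Nat.Coprime.pow k n hcop) hk hw
  have hfix : ∀ w, (∀ v, A v w = w) → w = 1 := by
    have hmem : ∀ c, c ∈ (⨅ v, ((A v).comp ϖ).eqLocus ϖ).map X.subtype ↔
        ∃ hc : c ∈ X, ∀ v, A v (ϖ ⟨c, hc⟩) = ϖ ⟨c, hc⟩ := by
      intro c
      constructor
      · rintro ⟨c, hc, rfl⟩
        exact ⟨c.2, fun v => mem_iInf.1 hc v⟩
      · rintro ⟨hc, h⟩
        exact ⟨⟨c, hc⟩, mem_iInf.2 h, rfl⟩
    have h1 := (hdich _ (map_subtype_le (⨅ v, ((A v).comp ϖ).eqLocus ϖ)) ⟨fun c hc h => by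
      obtain ⟨hcX, hc⟩ := (hmem c).1 hc
      refine (hmem _).2 ⟨hXn.conj_mem _ hcX h, fun v' => ?_⟩
      obtain ⟨v, hv⟩ := hback h v'
      have h2 := hTA h v v' (ϖ ⟨c, hcX⟩) hv
      rw [hc, hT] at h2
      exact h2.symm⟩).resolve_right fun h => hnot fun e he x hx => by
        obtain ⟨_, h2⟩ := (hmem x).1 (h hx)
        obtain ⟨-, v, hv⟩ := (hE e).1 he
        have h3 := h2 v
        rw [hAdef, hTeq _ e (by rw [hlift2, hv]), hT] at h3
        refine (hϖ ((⟨x, hx⟩ : X)⁻¹ * MulAut.conjNormal e ⟨x, hx⟩)).1 ?_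
        rw [map_mul, map_inv, h3, inv_mul_cancel]
    intro w hw
    obtain ⟨x, rfl⟩ := hϖs w
    exact (hϖ x).2 (h1 ((hmem _).2 ⟨x.2, hw⟩))
  obtain ⟨w0, hw0⟩ : ∃ w0 : W, w0 ≠ 1 := by
    obtain ⟨e, he, x, hx, hne⟩ := hXne
    exact ⟨ϖ ⟨x, hx⟩, fun h => hne (((hY x).1 ((hϖ _).1 h)).2 e he)⟩
  obtain ⟨η, hη, u0, hu0, hfu0⟩ := exists_hyper (s := s) A hA0 hA
    (fun w hw => hWp w 1 (by rwa [pow_one])) hfix hw0
  obtain ⟨h0, η', hη', hregf⟩ := hreg η hη
  obtain ⟨x, hx⟩ := hϖs (T h0 u0)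
  have hx1 : ϖ x ≠ 1 := fun h => hu0 (by rw [← hTinv h0 u0, ← hx, h, map_one])
  have hxfix : ∀ v, η' v = 0 → A v (ϖ x) = ϖ x := by
    intro v' hv'
    obtain ⟨v, hv⟩ := hback h0 v'
    rw [hx, ← hTA h0 v v' u0 hv, hfu0 v (by rw [← hη' v v' hv, hv'])]
  let _ : Fintype (LinearMap.ker η') := Fintype.ofFinite _
  obtain ⟨n, hn⟩ : ∃ n, Fintype.card (LinearMap.ker η') = s ^ n := by
    obtain ⟨n, hn⟩ := IsPGroup.iff_card.1
      (ZModModule.isPGroup_multiplicative (n := s) (G := LinearMap.ker η'))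
    exact ⟨n, by rw [← Nat.card_eq_fintype_card, ← hn]; rfl⟩
  obtain ⟨N, hN⟩ : ∃ N : W →* W, ∀ w, N w = ∏ v : LinearMap.ker η', A v w :=
    ⟨∏ v : LinearMap.ker η', A v, fun w => MonoidHom.finsetProd_apply _ _ _⟩
  have hN1 : N (ϖ x) ≠ 1 := by
    rw [hN, Finset.prod_congr rfl fun (v : LinearMap.ker η') _ => hxfix v v.2, Finset.prod_const,
      Finset.card_univ, hn]
    exact fun h => hx1 (hWp _ n h)
  have hNf : ∀ f, f ≠ 1 → N (T (j f) (ϖ x)) = 1 := by
    intro f hf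
    obtain ⟨v0, hv0, hv0'⟩ := hregf f hf
    refine hfix _ fun v => ?_
    have h1 : ∀ a, η' a = 0 → A a (N (T (j f) (ϖ x))) = N (T (j f) (ϖ x)) := by
      intro a ha
      rw [hN, map_prod]
      refine Fintype.prod_equiv (Equiv.addLeft (⟨a, ha⟩ : LinearMap.ker η')) _ _ fun b => ?_
      rw [← hA]
      rfl
    have h2 : ∀ a, η' a = 0 → A (σ f a) (N (T (j f) (ϖ x))) = N (T (j f) (ϖ x)) := by
      intro a ha
      rw [hN, map_prod]
      refine Finset.prod_congr rfl fun b _ => ?_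
      rw [← hA, add_comm, hA, ← hTA _ a _ _ (hσ f a), hxfix a ha]
    have h3 : v = (v - σ f ((η' v / η' (σ f v0)) • v0)) + σ f ((η' v / η' (σ f v0)) • v0) := by
      rw [sub_add_cancel]
    rw [h3, hA, h2 _ (by rw [map_smul, hv0, smul_zero]), h1]
    rw [map_sub, map_smul, map_smul, smul_eq_mul, div_mul_cancel₀ _ hv0', sub_self]
  have hcc : ∀ a b c : X, Commute ⁅a, b⁆ c := fun a b c => by
    have h1 := (hcent c c.2 _ (hXX (commutator_mem_commutator a.2 b.2))).symm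
    exact Subtype.ext h1.eq
  let κ : X →* center X :=
    { toFun := fun b => ⟨⁅x, b⁆, mem_center_iff.2 fun c => (hcc x b c).symm.eq⟩
      map_one' := Subtype.ext (by simp)
      map_mul' := fun b c => Subtype.ext (comm_mul_right (hcc x c b)) }
  have hκ : ∀ b, κ b = 1 ↔ Commute (x : H) b := fun b => by
    rw [Subtype.ext_iff, Subtype.ext_iff]
    exact commutatorElement_eq_one_iff_commute (g₁ := (x : H)) (g₂ := b)
  obtain ⟨κ', hκ'⟩ := exists_lift hϖs κ fun b hb => (hκ b).2 (hcent _ x.2 _ ((hϖ b).1 hb))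
  have hκA : ∀ v, η' v = 0 → ∀ w, κ' (A v w) = κ' w := by
    intro v hv w
    obtain ⟨b, rfl⟩ := hϖs w
    have h1 := hxfix v hv
    rw [hAdef, hT] at h1
    have h2 : (x : H)⁻¹ * (lift v * x * (lift v)⁻¹) ∈ Y := by
      refine (hϖ (x⁻¹ * MulAut.conjNormal (lift v) x)).1 ?_
      rw [map_mul, map_inv, h1, inv_mul_cancel]
    rw [hAdef, hT, hκ', hκ']
    refine Subtype.ext (Subtype.ext ?_)
    change ⁅(x : H), lift v * b * (lift v)⁻¹⁆ = ⁅(x : H), (b : H)⁆
    rw [← (comm_mul_central (hcent _ x.2 _ h2) (hcent _ (hXn.conj_mem _ b.2 _) _ h2)).2,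
      mul_inv_cancel_left, ← conjugate_commutatorElement,
      (((hY _).1 (hXX (commutator_mem_commutator x.2 b.2))).2 _ (hlE v)).eq, mul_inv_cancel_right]
  have hcomm1 : ∀ f, Commute (x : H) (j f * x * (j f)⁻¹) := by
    intro f
    by_cases hf : f = 1
    · simp [hf]
    have h1 := congrArg κ' (hNf f hf)
    rw [hN, map_prod, Finset.prod_congr rfl fun (v : LinearMap.ker η') _ => hκA v v.2 _,
      Finset.prod_const, Finset.card_univ, hn, map_one, hT, hκ'] at h1
    obtain ⟨k, hk⟩ := hXp.to_subgroup (center X) (κ (MulAut.conjNormal (j f) x))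
    exact (hκ _).1 (eq_one_of_coprime (Nat.Coprime.pow k n hcop) hk h1)
  let _ : Fintype F' := Fintype.ofFinite _
  let φ : F' →* MulAut X := MulAut.conjNormal.comp (j.comp F'.subtype)
  obtain ⟨c, hc, hcϖ⟩ := exists_norm (W := W) φ x fun f f' => by
    refine Subtype.ext ?_
    have h1 := (hcomm1 ((f : F)⁻¹ * f')).map (MulAut.conj (j f))
    have h2 : MulAut.conj (j f) (j ((f : F)⁻¹ * f') * x * (j ((f : F)⁻¹ * f'))⁻¹) =
        j f' * x * (j f')⁻¹ := by
      rw [MulAut.conj_apply, map_mul, map_inv]; group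
    rw [h2] at h1
    exact h1.eq
  refine ⟨c, fun f hf => ?_, fun h => hN1 ?_⟩
  · have h1 := congrArg Subtype.val (hc ⟨f, hf⟩)
    exact mul_inv_eq_iff_eq_mul.1 h1
  · have h1 : T (j g) (ϖ c) = ϖ c := by
      rw [hT]
      refine congrArg ϖ (Subtype.ext ?_)
      rw [MulAut.conjNormal_apply, h.eq, mul_inv_cancel_right]
    have h2 : ∀ f : F', ϖ (φ f x) = T (j f) (ϖ x) := fun f => (hT _ _).symm
    have h3 : N (ϖ c) = N (ϖ x) := by
      rw [hcϖ, map_prod, Finset.prod_eq_single (1 : F')]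
      · simp
      · intro f _ hf
        rw [h2]
        exact hNf _ fun h => hf (Subtype.ext h)
      · simp
    rw [← h3, ← h1, hcϖ, map_prod, map_prod]
    refine Finset.prod_eq_one fun f _ => ?_
    rw [h2, ← hTmul, ← map_mul]
    refine hNf _ fun hx => hg ?_
    rw [eq_inv_of_mul_eq_one_left hx]
    exact F'.inv_mem f.2

end Pool.Agent.Lib.MP_679d9b_al
end
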