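import Mathlib
import Pool.Agent.Lib.MP_679d9b_al.LemB
import Pool.Agent.Lib.MP_679d9b_al.AltPerm

-- part Pool.Agent.Lib.MP_679d9b_al.Main
section

/-!
The main finite lemma, and the passage from regular orbits to arbitrary finite images.
-/

set_option autoImplicit false

namespace Pool.Agent.Lib.MP_679d9b_al

open Subgroup SemidirectProduct

theorem smul_of_ker {K V : Type} [Field K] [AddCommGroup V] [Module K V]
    {η θ : Module.Dual K V} (h : ∀ v, η v = 0 → θ v = 0) : ∃ a : K, θ = a • η := by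
  by_cases h0 : ∃ v, η v ≠ 0
  · obtain ⟨v0, hv0⟩ := h0
    refine ⟨θ v0 / η v0, LinearMap.ext fun v => ?_⟩
    have h1 := h (v - (η v / η v0) • v0) (by
      rw [map_sub, map_smul, smul_eq_mul, div_mul_cancel₀ _ hv0, sub_self])
    rw [map_sub, map_smul, smul_eq_mul, sub_eq_zero] at h1
    rw [h1, LinearMap.smul_apply, smul_eq_mul]
    ring
  · push Not at h0
    exact ⟨0, LinearMap.ext fun v => by rw [h v (h0 v)]; simp⟩

theorem lemC {H Hq F V : Type} [Group H] [Finite H] [Group Hq] [Group F] [Fintype F]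
    {p q s : ℕ} [Fact p.Prime] [Fact q.Prime] [Fact s.Prime] [AddCommGroup V] [Module (ZMod s) V]
    [Finite V] [Nontrivial V] (hps : p ≠ s) (hF : Fintype.card F < q) (π : H →* Hq)
    (hπ : Function.Surjective π) (hker : IsPGroup p π.ker) (i : V → Hq)
    (hi : ∀ v w, i (v + w) = i v * i w) (hinj : Function.Injective i)
    (ρ : Representation (ZMod s) (Lam F q) V) {k : ZMod s} (hk : IsPrimitiveRoot k q)
    (hz : ∀ v, ρ (Lam.zc 1) v = k • v) (hl : ∀ g, ∃ l, ∀ v, l * i v * l⁻¹ = i (ρ g v))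
    (j : F →* H) (hj : ∀ f v, π (j f) * i v * (π (j f))⁻¹ = i (ρ (inr f) v))
    (F' : Subgroup F) {g : F} (hg : g ∉ F') :
    ∃ c : H, (∀ f ∈ F', Commute (j f) c) ∧ ¬ Commute (j g) c := by
  classical
  have hi0 : i 0 = 1 := by
    have := hi 0 0
    rw [add_zero] at this
    exact mul_eq_left.1 this.symm
  let R : Subgroup Hq :=
    { carrier := Set.range i
      one_mem' := ⟨0, hi0⟩
      mul_mem' := by rintro _ _ ⟨v, rfl⟩ ⟨w, rfl⟩; exact ⟨v + w, hi v w⟩
      inv_mem' := by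
        rintro _ ⟨v, rfl⟩
        exact ⟨-v, eq_inv_of_mul_eq_one_left (by rw [← hi, neg_add_cancel, hi0])⟩ }
  have hN : ∀ (g : Lam F q) l, (∀ v, l * i v * l⁻¹ = i (ρ g v)) →
      l ∈ normalizer (R : Set Hq) := by
    intro g l h
    refine mem_normalizer_iff.2 fun x => ⟨?_, ?_⟩
    · rintro ⟨v, rfl⟩; exact ⟨_, (h v).symm⟩
    · rintro ⟨v, hv⟩
      refine ⟨ρ g⁻¹ v, ?_⟩
      have h1 := h (ρ g⁻¹ v)
      rw [← Module.End.mul_apply, ← map_mul, mul_inv_cancel, map_one, Module.End.one_apply,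
        hv] at h1
      exact mul_left_cancel (mul_right_cancel h1)
  obtain ⟨ψ, hψdef⟩ : ∃ ψ : AddChar (ZMod q) (ZMod s), ∀ c, ψ c = k ^ c.val :=
    ⟨AddChar.zmodChar q hk.pow_eq_one, fun _ => rfl⟩
  have hψ : ∀ c, ψ c = 1 → c = 0 := fun c hc => by
    rw [hψdef, ← pow_zero k] at hc
    exact (ZMod.val_eq_zero c).1 (hk.pow_inj (ZMod.val_lt c) (NeZero.pos _) hc)
  have hq : (q : ZMod s) ≠ 0 := hk.neZero'.1
  have hzc : ∀ c m, ρ (Lam.zc c) m = ψ c • m := by
    intro c m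
    rw [hψdef]
    conv_lhs => rw [← ZMod.natCast_zmod_val c, ← Lam.zc_pow]
    induction c.val with
    | zero => simp
    | succ n ih => rw [pow_succ', map_mul, Module.End.mul_apply, ih, map_smul, hz, smul_smul,
        pow_succ]
  obtain ⟨c, hc, hcg⟩ := lemB (H := (normalizer (R : Set Hq)).comap π) hps
    (π.subgroupComap _) (π.subgroupComap_surjective_of_surjective _ hπ)
    (by
      rintro ⟨⟨y, hy⟩, hy'⟩
      obtain ⟨n, hn⟩ := pow_eq_one_of_mem hker (g := y) (congrArg Subtype.val hy')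
      exact ⟨n, Subtype.ext (Subtype.ext hn)⟩)
    (fun v => ⟨i v, le_normalizer (H := R) ⟨v, rfl⟩⟩) (fun v w => Subtype.ext (hi v w))
    (fun v w h => hinj (congrArg Subtype.val h))
    (fun h v => by
      obtain ⟨v', hv'⟩ := (mem_normalizer_iff.1 h.2 (i v)).1 ⟨v, rfl⟩
      exact ⟨v', Subtype.ext hv'.symm⟩)
    (j.codRestrict _ fun f => hN _ _ (hj f)) (fun f => ρ (inr f))
    (fun f v => Subtype.ext (hj f v))
    (fun η hη => by
      obtain ⟨g, hg⟩ := exists_regular (ψ := ψ⁻¹) (ρ := ρ.dual)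
        (fun c hc => neg_eq_zero.1 (hψ _ hc)) hq (fun c m => LinearMap.ext fun v => by
          have h1 : (Lam.zc c : Lam F q)⁻¹ = Lam.zc (-c) :=
            (eq_inv_of_mul_eq_one_left (by rw [Lam.zc_add, neg_add_cancel, Lam.zc_zero])).symm
          change m (ρ (Lam.zc c)⁻¹ v) = _
          rw [h1, hzc, map_smul]; rfl) hF hη
      obtain ⟨l, hl⟩ := hl g
      obtain ⟨h, rfl⟩ := hπ l
      refine ⟨⟨h, hN _ _ hl⟩, ρ.dual g η, fun v v' hv => ?_, fun f hf => ?_⟩
      · have h1 : π h * i v * (π h)⁻¹ = i v' := congrArg Subtype.val hv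
        rw [hl] at h1
        change η (ρ g⁻¹ v') = _
        rw [← hinj h1, ← Module.End.mul_apply, ← map_mul, inv_mul_cancel, map_one,
          Module.End.one_apply]
      · by_contra hcon
        push Not at hcon
        obtain ⟨a, ha⟩ := smul_of_ker (η := ρ.dual g η) (θ := ρ.dual g η ∘ₗ ρ (inr f)) hcon
        refine hg f⁻¹ (inv_ne_one.2 hf) a ?_
        rw [← ha]
        change _ ∘ₗ (ρ ((inr f⁻¹ : Lam F q)⁻¹)) = _
        rw [map_inv (inr : F →* Lam F q), inv_inv])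
    F' hg (by
      obtain ⟨m, hm⟩ := exists_ne (0 : V)
      exact exists_free hψ hq hzc hm F' hg)
  exact ⟨c, fun f hf => congrArg Subtype.val (hc f hf).eq, fun h => hcg (Subtype.ext h.eq)⟩

theorem main_lemma {F : Type} [Group F] [Finite F] {p : ℕ} [Fact p.Prime] (hF : IsPGroup p F) :
    ∃ (Γ : Type) (_ : Group Γ) (_ : Finite Γ) (ι : F →* Γ), Function.Injective ι ∧
      ∀ (H : Type) [Group H] [Finite H] (ψ : H →* Γ) (j : F →* H), Function.Surjective ψ →
        (∀ f, ψ (j f) = ι f) → ∀ (F' : Subgroup F) (g : F), g ∉ F' →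
          ∃ c : H, (∀ f ∈ F', Commute (j f) c) ∧ ¬ Commute (j g) c := by
  let _ : Fintype F := Fintype.ofFinite F
  obtain ⟨q, hq1, hq⟩ := Nat.exists_infinite_primes (Fintype.card F + p + 3)
  obtain ⟨s, hs, hs1, hs2⟩ := Nat.exists_prime_gt_modEq_one p hq.ne_zero
  have := Fact.mk hq
  have := Fact.mk hs
  have : NeZero (s - 1) := ⟨by have := hs.two_le; omega⟩
  have : HasEnoughRootsOfUnity (ZMod s) q :=
    HasEnoughRootsOfUnity.of_dvd _ ((Nat.modEq_iff_dvd' hs.one_lt.le).1 hs2.symm)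
  obtain ⟨ζ, hζ⟩ := HasEnoughRootsOfUnity.exists_primitiveRoot (ZMod s) q
  refine ⟨Wr s (Lam F q), inferInstance, inferInstance, inr.comp inr,
    inr_injective.comp inr_injective, fun H _ _ ψ j hψ hj F' g hg => ?_⟩
  have hFj : IsPGroup p j.range := hF.of_surjective _ j.rangeRestrict_surjective
  obtain ⟨P, hP, hFP⟩ := exists_syl hFj (le_normalizer_of_normal (H := ψ.ker)) (Or.inl rfl)
  let j1 : F →* normalizer (P : Set H) := j.codRestrict _ fun f => hFP ⟨f, rfl⟩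
  let π := QuotientGroup.mk' (P.subgroupOf (normalizer (P : Set H)))
  have hπ : Function.Surjective π := QuotientGroup.mk'_surjective _
  obtain ⟨ψ1, hψ1⟩ := exists_lift hπ (ψ.comp (normalizer (P : Set H)).subtype) fun b hb =>
    hP.le ((QuotientGroup.eq_one_iff b).1 hb)
  obtain ⟨V, _, _, _, _, i, ρ, k, hi, hinj, hk, hz, hl, hjj⟩ := lemA hF (by omega) (by omega)
    (by omega) hζ ψ1 (fun γ => by
      obtain ⟨h, rfl⟩ := hψ γ
      obtain ⟨m, hm, n, hn, rfl⟩ := hP.frattini h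
      exact ⟨π ⟨m, hm⟩, by rw [hψ1, map_mul, MonoidHom.mem_ker.1 hn, mul_one]; rfl⟩)
    (fun y hy hp => by
      obtain ⟨y, rfl⟩ := hπ y
      rw [hψ1] at hy
      rw [← map_pow] at hp
      exact (QuotientGroup.eq_one_iff y).2 (hP.mem_of_pow hy y.2
        ((QuotientGroup.eq_one_iff (y ^ p)).1 hp)))
    (π.comp j1) (fun f => (hψ1 _).trans (hj f))
  obtain ⟨c, hc, hcg⟩ := lemC (p := p) (by omega) (by omega) π hπ
    (by rw [QuotientGroup.ker_mk']; exact hP.pg.comap_subtype) i hi hinj ρ hk hz hl j1 hjj F' hg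
  exact ⟨c, fun f hf => congrArg Subtype.val (hc f hf).eq, fun h => hcg (Subtype.ext h.eq)⟩

theorem exists_equivariant {F A B : Type} [Group F] [Finite A] [Finite B] [MulAction F A]
    [MulAction F B] [Finite F] (hA : ∀ (f : F) (a : A), f • a = a → f = 1)
    (hB : ∀ (f : F) (b : B), f • b = b → f = 1) (h : Nat.card A ≤ Nat.card B) :
    ∃ e : A → B, Function.Injective e ∧ ∀ (f : F) a, e (f • a) = f • e a := by
  have hA' : ∀ a : A, MulAction.stabilizer F a = ⊥ := fun a =>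
    (eq_bot_iff_forall _).2 fun f hf => hA f a hf
  have hB' : ∀ b : B, MulAction.stabilizer F b = ⊥ := fun b =>
    (eq_bot_iff_forall _).2 fun f hf => hB f b hf
  rw [Nat.card_congr (MulAction.selfEquivOrbitsQuotientProd hA'),
    Nat.card_congr (MulAction.selfEquivOrbitsQuotientProd hB'), Nat.card_prod, Nat.card_prod] at h
  have h1 := Nat.le_of_mul_le_mul_right h Nat.card_pos
  let _ := Fintype.ofFinite (Quotient (MulAction.orbitRel F A))
  let _ := Fintype.ofFinite (Quotient (MulAction.orbitRel F B))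
  rw [Nat.card_eq_fintype_card, Nat.card_eq_fintype_card] at h1
  obtain ⟨κ⟩ := Function.Embedding.nonempty_of_card_le h1
  have h2 : ∀ a : A, ∃ f : F, f • (Quotient.mk (MulAction.orbitRel F A) a).out = a := fun a =>
    MulAction.mem_orbit_iff.1 (MulAction.orbitRel_apply.1
      (Quotient.exact (Quotient.out_eq (Quotient.mk (MulAction.orbitRel F A) a)).symm))
  choose t ht using h2
  have h3 : ∀ (f : F) (a : A), Quotient.mk (MulAction.orbitRel F A) (f • a) = Quotient.mk _ a :=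
    fun f a => Quotient.sound (MulAction.orbitRel_apply.2 (MulAction.mem_orbit _ _))
  have h4 : ∀ (f : F) (b : B), Quotient.mk (MulAction.orbitRel F B) (f • b) = Quotient.mk _ b :=
    fun f a => Quotient.sound (MulAction.orbitRel_apply.2 (MulAction.mem_orbit _ _))
  refine ⟨fun a => t a • (κ (Quotient.mk _ a)).out, fun a a' haa => ?_, fun f a => ?_⟩
  · have h5 := congrArg (Quotient.mk (MulAction.orbitRel F B)) haa
    simp only [h4, Quotient.out_eq] at h5
    have h6 := κ.injective h5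
    simp only [h6] at haa
    have h7 := hB ((t a')⁻¹ * t a) _ (by rw [mul_smul, haa, inv_smul_smul])
    rw [← ht a, ← ht a', h3, h3, Quotient.out_eq, Quotient.out_eq] at h6
    rw [← ht a, ← ht a', h6, (inv_mul_eq_one.1 h7)]
  · have h5 := hA ((t (f • a))⁻¹ * (f * t a)) (Quotient.mk (MulAction.orbitRel F A) a).out (by
      rw [mul_smul, mul_smul, ht, inv_smul_eq_iff, ← h3 f a, ht])
    simp only [h3]
    rw [inv_mul_eq_one.1 h5, mul_smul]

/-- Regular alternating type. -/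
def Reg (G : Type) [Group G] : Prop :=
  ∀ F : Subgroup G, Finite F → ∃ (H : Subgroup G) (hFH : F ≤ H) (n : ℕ)
    (φ : H →* Equiv.Perm (Fin n)) (ω : Fin n), Finite H ∧ alternatingGroup (Fin n) ≤ φ.range ∧
      ∀ f : F, φ (inclusion hFH f) ω = ω → f = 1

theorem cover {G : Type} [Group G] [Infinite G]
    (hlf : ∀ s : Finset G, (closure (s : Set G) : Set G).Finite) (hreg : Reg G)
    (F : Subgroup G) [Finite F] (Γ : Type) [Group Γ] [Finite Γ] (ι : F →* Γ)
    (hι : Function.Injective ι) :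
    ∃ (H : Type) (_ : Group H) (_ : Finite H) (μ : H →* G) (j : F →* H) (ψ : H →* Γ),
      Function.Injective μ ∧ (∀ f, μ (j f) = f) ∧ Function.Surjective ψ ∧ ∀ f, ψ (j f) = ι f := by
  classical
  obtain ⟨t, ht⟩ := Infinite.exists_subset_card_eq G (Nat.card (Γ × Bool))
  obtain ⟨F1, hF1, hFF1, hc⟩ : ∃ F1 : Subgroup G, Finite F1 ∧ F ≤ F1 ∧
      Nat.card (Γ × Bool) ≤ Nat.card F1 := by
    have hfin := hlf ((Set.toFinite (F : Set G)).toFinset ∪ t)
    refine ⟨_, hfin, fun f hf => subset_closure (by simp [hf]), ?_⟩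
    have : Finite (closure (((Set.toFinite (F : Set G)).toFinset ∪ t : Finset G) : Set G)) := hfin
    have h0 : Nat.card (t : Set G) = t.card := by simp
    rw [← ht, ← h0]
    exact Nat.card_le_card_of_injective
      (fun x : (t : Set G) => (⟨x, subset_closure (by simp [x.2])⟩ :
        closure (((Set.toFinite (F : Set G)).toFinset ∪ t : Finset G) : Set G)))
      fun a b h => Subtype.ext (Subtype.mk.inj h)
  obtain ⟨H, hH, n, φ, ω, hHf, hφ, hω⟩ := hreg F1 hF1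
  let _ : MulAction F (Γ × Bool) :=
    { smul := fun f a => (ι f * a.1, a.2)
      one_smul := fun a => by
        change (ι 1 * a.1, a.2) = a
        simp
      mul_smul := fun f g a => by
        change (ι (f * g) * a.1, a.2) = (ι f * (ι g * a.1), a.2)
        rw [map_mul, mul_assoc] }
  let _ : MulAction F F1 := MulAction.compHom F1 (inclusion hFF1)
  obtain ⟨e0, he0, he0'⟩ := exists_equivariant (F := F) (A := Γ × Bool) (B := F1)
    (fun f a h => hι (by
      have h1 : ι f * a.1 = a.1 := congrArg Prod.fst h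
      rw [map_one]; exact mul_eq_right.1 h1))
    (fun f b h => inclusion_injective hFF1 (by
      have h1 : inclusion hFF1 f * b = b := h
      rw [map_one]; exact mul_eq_right.1 h1)) hc
  let e : Γ × Bool ↪ Fin n := ⟨fun a => φ (inclusion hH (e0 a)) ω, fun a b h => he0 (by
    have h1 := hω ((e0 b)⁻¹ * e0 a) (by
      rw [map_mul, map_mul, map_inv, map_inv, Equiv.Perm.mul_apply, Equiv.Perm.inv_eq_iff_eq]
      exact h)
    exact (inv_mul_eq_one.1 h1).symm)⟩
  let R : Subgroup (H × Γ) :=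
    { carrier := {x | ∀ y b, φ x.1 (e (y, b)) = e (x.2 * y, b)}
      one_mem' := fun y b => by simp
      mul_mem' := fun {x x'} hx hx' y b => by
        rw [Prod.fst_mul, map_mul, Equiv.Perm.mul_apply, hx', hx, Prod.snd_mul, mul_assoc]
      inv_mem' := fun {x} hx y b => by
        rw [Prod.fst_inv, map_inv, Equiv.Perm.inv_eq_iff_eq, hx, Prod.snd_inv,
          mul_inv_cancel_left] }
  refine ⟨R, inferInstance, inferInstance, H.subtype.comp ((MonoidHom.fst _ _).comp R.subtype),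
    ((inclusion (hFF1.trans hH)).prod ι).codRestrict R fun f y b => ?_,
    (MonoidHom.snd _ _).comp R.subtype, ?_, fun _ => rfl, fun γ => ?_, fun _ => rfl⟩
  · change φ (inclusion hH (inclusion hFF1 f)) (φ (inclusion hH (e0 (y, b))) ω) =
      φ (inclusion hH (e0 (f • (y, b)))) ω
    rw [he0', ← Equiv.Perm.mul_apply, ← map_mul, ← map_mul]
    rfl
  · rw [injective_iff_map_eq_one]
    rintro ⟨⟨h, γ⟩, hx⟩ h1
    have h2 : h = 1 := Subtype.ext h1
    subst h2
    have h3 := hx 1 true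
    rw [map_one, Equiv.Perm.one_apply, mul_one] at h3
    exact Subtype.ext (Prod.ext rfl (congrArg Prod.fst (e.injective h3)).symm)
  · let _ := Fintype.ofFinite Γ
    obtain ⟨h, hh⟩ := hφ (x := Equiv.Perm.viaFintypeEmbedding
      (Equiv.prodCongrLeft fun _ : Bool => Equiv.mulLeft γ) e) (by
        rw [Equiv.Perm.mem_alternatingGroup, Equiv.Perm.viaFintypeEmbedding_sign,
          Equiv.Perm.sign_prodCongrLeft]
        simp)
    refine ⟨⟨(h, γ), fun y b => ?_⟩, rfl⟩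
    rw [hh, Equiv.Perm.viaFintypeEmbedding_apply_image]
    rfl

theorem card_le_centralizer {R Γ : Type} [Group R] [Finite R] [Group Γ] (ψ : R →* Γ)
    (hψ : Function.Surjective ψ) (x : R) (hx : ∀ γ, γ * ψ x = ψ x * γ) :
    Nat.card Γ ≤ Nat.card (centralizer ({x} : Set R)) := by
  have h1 : (centralizer ({x} : Set R)).index ≤ Nat.card ψ.ker := by
    refine Nat.card_le_card_of_injective
      (fun c : R ⧸ centralizer ({x} : Set R) => (⟨c.out * x * c.out⁻¹ * x⁻¹, by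
        rw [MonoidHom.mem_ker, map_mul, map_mul, map_mul, hx, map_inv, map_inv]; simp⟩ : ψ.ker))
      fun a b h => ?_
    have h2 : a.out * x * a.out⁻¹ * x⁻¹ = b.out * x * b.out⁻¹ * x⁻¹ := congrArg Subtype.val h
    rw [← a.out_eq', ← b.out_eq', QuotientGroup.eq, mem_centralizer_singleton_iff]
    have h3 := mul_right_cancel h2
    calc a.out⁻¹ * b.out * x = a.out⁻¹ * (b.out * x * b.out⁻¹) * b.out := by group
      _ = x * (a.out⁻¹ * b.out) := by rw [← h3]; group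
  have h2 := (centralizer ({x} : Set R)).card_mul_index
  have h3 := ψ.ker.card_mul_index
  rw [index_ker, MonoidHom.range_eq_top.2 hψ, card_top] at h3
  have h4 : Nat.card ψ.ker * Nat.card Γ ≤
      Nat.card ψ.ker * Nat.card (centralizer ({x} : Set R)) := by
    rw [h3, ← h2, mul_comm]
    exact Nat.mul_le_mul_right _ h1
  exact Nat.le_of_mul_le_mul_left h4 Nat.card_pos

theorem step {G : Type} [Group G] [Infinite G]
    (hlf : ∀ s : Finset G, (closure (s : Set G) : Set G).Finite) (hreg : Reg G) {p : ℕ}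
    [Fact p.Prime] {x : G} (F : Subgroup G) [Finite F] (hF : IsPGroup p F) (hx : x ∈ F)
    (hFx : F ≤ centralizer {x}) :
    ∃ F2 : Subgroup G, Finite F2 ∧ IsPGroup p F2 ∧ F ≤ F2 ∧ F2 ≤ centralizer {x} ∧
      ∃ c, (∀ f ∈ F, Commute f c) ∧ ∃ g ∈ F2, ¬ Commute g c := by
  obtain ⟨F2, hF2, hF2p, hle, hF2x, g, hg, hgF⟩ : ∃ F2 : Subgroup G, Finite F2 ∧ IsPGroup p F2 ∧
      F ≤ F2 ∧ F2 ≤ centralizer {x} ∧ ∃ g ∈ F2, g ∉ F := by
    obtain ⟨H, _, _, μ, j, ψ, hμ, hj, hψ, hψj⟩ := cover hlf hreg F (F × Multiplicative (ZMod p))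
      (MonoidHom.inl _ _) fun a b h => congrArg Prod.fst h
    obtain ⟨R, hR⟩ := (hF.of_surjective _ j.rangeRestrict_surjective).exists_le_sylow
    have hΓ : IsPGroup p (F × Multiplicative (ZMod p)) := by
      obtain ⟨n, hn⟩ := IsPGroup.iff_card.1 hF
      exact IsPGroup.of_card (n := n + 1) (by simp [hn, pow_succ])
    have h1 := (R.mapSurjective hψ).3 (Q := ⊤) (hΓ.to_subgroup ⊤) le_top
    have h2 : Function.Surjective (ψ.comp (R : Subgroup H).subtype) := fun γ => by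
      have h2 : γ ∈ (R.mapSurjective hψ).1 := by rw [← h1]; trivial
      obtain ⟨r, hr, rfl⟩ := h2
      exact ⟨⟨r, hr⟩, rfl⟩
    have h3 := card_le_centralizer _ h2 ⟨j ⟨x, hx⟩, hR ⟨_, rfl⟩⟩ fun γ => by
      change γ * ψ (j ⟨x, hx⟩) = ψ (j ⟨x, hx⟩) * γ
      rw [hψj]
      exact Prod.ext (Subtype.ext (mem_centralizer_singleton_iff.1 (hFx γ.1.2))) (by simp)
    have hinj : Function.Injective (μ.comp (R : Subgroup H).subtype) :=
      hμ.comp Subtype.val_injective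
    refine ⟨(centralizer {⟨j ⟨x, hx⟩, hR ⟨_, rfl⟩⟩}).map (μ.comp (R : Subgroup H).subtype),
      Finite.of_surjective _ (MonoidHom.subgroupMap_surjective _ _), (R.2.to_subgroup _).map _,
      fun f hf => ⟨⟨j ⟨f, hf⟩, hR ⟨_, rfl⟩⟩, mem_centralizer_singleton_iff.2 (hinj ?_), hj _⟩,
      ?_, ?_⟩
    · change μ (j _ * j _) = μ (j _ * j _)
      rw [map_mul, map_mul, hj, hj]
      exact mem_centralizer_singleton_iff.1 (hFx hf)
    · rintro _ ⟨r, hr, rfl⟩
      have h4 := congrArg (μ.comp (R : Subgroup H).subtype) (mem_centralizer_singleton_iff.1 hr)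
      rw [map_mul, map_mul] at h4
      have h5 : (μ.comp (R : Subgroup H).subtype) ⟨j ⟨x, hx⟩, hR ⟨_, rfl⟩⟩ = x := hj _
      rw [h5] at h4
      exact mem_centralizer_singleton_iff.2 h4
    · by_contra hcon
      push Not at hcon
      have h4 := card_le_of_le (show _ ≤ F from hcon)
      rw [card_map_of_injective hinj] at h4
      have h5 := h3.trans h4
      rw [Nat.card_prod, Nat.card_congr (Multiplicative.toAdd (α := ZMod p)), Nat.card_zmod] at h5
      have h6 : 0 < Nat.card F := Nat.card_pos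
      have h7 := (Fact.out : p.Prime).one_lt
      nlinarith
  obtain ⟨Γ, _, _, ι, hι, hmain⟩ := main_lemma hF2p
  obtain ⟨H, _, _, μ, j, ψ, hμ, hj, hψ, hψj⟩ := cover hlf hreg F2 Γ ι hι
  obtain ⟨c, hc, hcg⟩ := hmain H ψ j hψ hψj (F.subgroupOf F2) ⟨g, hg⟩ hgF
  refine ⟨F2, hF2, hF2p, hle, hF2x, μ c, fun f hf => ?_, g, hg, fun h => hcg (hμ ?_)⟩
  · have h1 := (hc ⟨f, hle hf⟩ hf).map μ
    rwa [hj] at h1
  · rw [map_mul, map_mul, hj]
    exact h.eq

end Pool.Agent.Lib.MP_679d9b_al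
end

-- part Pool.Agent.Lib.MP_679d9b_al.AltSupp
section

/-!
Least normal supplements over alternating groups on subsets, in a finite group mapping onto an
alternating group.
-/

set_option autoImplicit false

namespace Pool.Agent.Lib.MP_679d9b_al.Alt

open Equiv Equiv.Perm Finset
open scoped commutatorElement

variable {Ω : Type} [Fintype Ω] [DecidableEq Ω] {H : Type} [Group H]

theorem cj (S : Subgroup H) {y j : H} (hy : y ∈ S) (hj : j ∈ S) : y * j * y⁻¹ ∈ S :=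
  S.mul_mem (S.mul_mem hy hj) (S.inv_mem hy)

/-- Normal subgroups of `Y` whose image contains `A`. -/
def Fam (φ : H →* Perm Ω) (Y : Subgroup H) (A : Subgroup (Perm Ω)) : Set (Subgroup H) :=
  {J | J ≤ Y ∧ (∀ y ∈ Y, ∀ j ∈ J, y * j * y⁻¹ ∈ J) ∧ A ≤ J.map φ}

omit [Fintype Ω] [DecidableEq Ω] in
theorem sInf_mem [Finite H] {φ : H →* Perm Ω} {Y : Subgroup H} {A : Subgroup (Perm Ω)}
    (hA : A ≤ ⁅A, A⁆) (hY : A ≤ Y.map φ) : sInf (Fam φ Y A) ∈ Fam φ Y A := by
  obtain ⟨J, hJ, hmin⟩ := exists_minimal_of_wellFoundedLT (· ∈ Fam φ Y A)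
    ⟨Y, le_rfl, fun y hy j hj => mul_mem (mul_mem hy hj) (inv_mem hy), hY⟩
  have : sInf (Fam φ Y A) = J := by
    refine le_antisymm (sInf_le hJ) (le_sInf fun J' hJ' => ?_)
    have h1 : J ⊓ J' ∈ Fam φ Y A := by
      refine ⟨inf_le_left.trans hJ.1, fun y hy j hj => ⟨hJ.2.1 y hy j hj.1, hJ'.2.1 y hy j hj.2⟩,
        hA.trans ((Subgroup.commutator_mono hJ.2.2 hJ'.2.2).trans ?_)⟩
      rw [← Subgroup.map_commutator]
      refine Subgroup.map_mono (Subgroup.commutator_le.2 fun a ha b hb => ⟨?_, ?_⟩)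
      · have := mul_mem ha (hJ.2.1 b (hJ'.1 hb) _ (inv_mem ha))
        rwa [← mul_assoc, ← mul_assoc] at this
      · exact J'.mul_mem (hJ'.2.1 a (hJ.1 ha) b hb) (J'.inv_mem hb)
    exact (hmin h1 inf_le_left).trans inf_le_right
  rwa [this]

/-- The least normal subgroup of the preimage of the alternating group on `Δ` mapping onto it. -/
def R (φ : H →* Perm Ω) (Δ : Finset Ω) : Subgroup H :=
  sInf (Fam φ ((AltOn Δ).comap φ) (AltOn Δ))

variable [Finite H] {φ : H →* Perm Ω} {Δ Δ' : Finset Ω}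

theorem R_mem (hφ : alternatingGroup Ω ≤ φ.range) (h5 : 5 ≤ #Δ) :
    R φ Δ ∈ Fam φ ((AltOn Δ).comap φ) (AltOn Δ) :=
  sInf_mem (altOn_perfect h5) fun σ hσ => by
    obtain ⟨h, rfl⟩ := hφ (altOn_le Δ hσ)
    exact ⟨h, hσ, rfl⟩

theorem R_le (hφ : alternatingGroup Ω ≤ φ.range) (h5 : 5 ≤ #Δ) {r : H} (hr : r ∈ R φ Δ) :
    φ r ∈ AltOn Δ := (R_mem hφ h5).1 hr

theorem R_surj (hφ : alternatingGroup Ω ≤ φ.range) (h5 : 5 ≤ #Δ) {σ : Perm Ω}
    (hσ : σ ∈ AltOn Δ) : ∃ r ∈ R φ Δ, φ r = σ := (R_mem hφ h5).2.2 hσ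

theorem R_conj (hφ : alternatingGroup Ω ≤ φ.range) (h5 : 5 ≤ #Δ') {h r : H}
    (hh : ∀ a ∈ Δ, φ h a ∈ Δ') (hr : r ∈ R φ Δ) : h * r * h⁻¹ ∈ R φ Δ' := by
  have h1 : (AltOn Δ).comap φ ⊓ (R φ Δ').comap (MulAut.conj h).toMonoidHom ∈
      Fam φ ((AltOn Δ).comap φ) (AltOn Δ) := by
    refine ⟨inf_le_left, fun y hy j hj => ⟨cj _ hy hj.1, ?_⟩,
      fun σ hσ => ?_⟩
    · have := (R_mem hφ h5).2.1 (h * y * h⁻¹) (by
        rw [Subgroup.mem_comap, map_mul, map_mul, map_inv]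
        exact altOn_conj hh hy) _ hj.2
      simpa [mul_assoc] using this
    · obtain ⟨r', hr', e⟩ := R_surj hφ h5 (altOn_conj hh hσ)
      have e2 : φ (h⁻¹ * r' * h) = σ := by simp [e, mul_assoc]
      exact ⟨h⁻¹ * r' * h, ⟨by rw [← e2] at hσ; exact hσ, by simpa [mul_assoc] using hr'⟩, e2⟩
  exact (sInf_le h1 hr).2

theorem R_mono (hφ : alternatingGroup Ω ≤ φ.range) (h5 : 5 ≤ #Δ') (h : Δ ⊆ Δ') :
    R φ Δ ≤ R φ Δ' := fun r hr => by
  simpa using R_conj (h := 1) hφ h5 (fun a ha => by simpa using h ha) hr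

theorem R_min (hφ : alternatingGroup Ω ≤ φ.range) (h5 : 5 ≤ #Δ) {J : Subgroup H}
    (hJ : ∀ r ∈ R φ Δ, ∀ j ∈ J, r * j * r⁻¹ ∈ J) {j : H} (hj : j ∈ J) (hj' : j ∈ R φ Δ)
    (h1 : φ j ≠ 1) : R φ Δ ≤ J := by
  have h2 : R φ Δ ⊓ J ∈ Fam φ (R φ Δ) (AltOn Δ) := by
    refine ⟨inf_le_left, fun r hr y hy => ⟨cj _ hr hy.1, hJ r hr y hy.2⟩,
      altOn_simple h5 ?_ ⟨j, ⟨hj', hj⟩, rfl⟩ (R_le hφ h5 hj') h1⟩
    rintro σ hσ _ ⟨y, hy, rfl⟩
    obtain ⟨r, hr, rfl⟩ := R_surj hφ h5 hσ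
    exact ⟨r * y * r⁻¹, ⟨cj _ hr hy.1, hJ r hr y hy.2⟩, by simp⟩
  have h3 := sInf_mem (altOn_perfect h5) (R_mem hφ h5).2.2
  have h4 : sInf (Fam φ (R φ Δ) (AltOn Δ)) ∈ Fam φ ((AltOn Δ).comap φ) (AltOn Δ) := by
    refine ⟨h3.1.trans (R_mem hφ h5).1, fun y hy u hu => ?_, h3.2.2⟩
    have hn := (R_mem hφ h5).2.1
    have h6 : R φ Δ ⊓ (sInf (Fam φ (R φ Δ) (AltOn Δ))).comap (MulAut.conj y).toMonoidHom ∈
        Fam φ (R φ Δ) (AltOn Δ) := by
      refine ⟨inf_le_left, fun r hr v hv => ⟨cj _ hr hv.1, ?_⟩,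
        fun σ hσ => ?_⟩
      · simpa [mul_assoc] using h3.2.1 _ (hn y hy r hr) _ hv.2
      · obtain ⟨v, hv, e⟩ := h3.2.2 (mul_mem (mul_mem hy hσ) (inv_mem hy))
        refine ⟨y⁻¹ * v * y, ⟨?_, by simpa [mul_assoc] using hv⟩, by simp [e, mul_assoc]⟩
        simpa using hn _ (inv_mem hy) _ (h3.1 hv)
    exact (sInf_le h6 hu).2
  exact (sInf_le h4).trans ((sInf_le h2).trans inf_le_right)

theorem pow_central {K : Type} [Group K] [Finite K] (Q C : Subgroup K) [hQ : Q.Normal]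
    (hQa : ∀ a ∈ Q, ∀ b ∈ Q, Commute a b) (y : K) (hC : ∀ q ∈ C, Commute y q) (c : ℕ)
    (hc : C.relIndex Q ≤ c) {q : K} (hq : q ∈ Q) : Commute (y ^ (c.factorial * c.factorial)) q := by
  have it : ∀ (u δ : K), Commute u δ → u * q * u⁻¹ = q * δ → ∀ s : ℕ,
      u ^ s * q * (u ^ s)⁻¹ = q * δ ^ s := by
    intro u δ h1 h2 s
    induction s with
    | zero => simp
    | succ s ih =>
      calc u ^ (s + 1) * q * (u ^ (s + 1))⁻¹ = u * (u ^ s * q * (u ^ s)⁻¹) * u⁻¹ := by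
            rw [pow_succ']
            group
        _ = u * q * u⁻¹ * (u * δ ^ s * u⁻¹) := by
            rw [ih]
            group
        _ = q * δ ^ (s + 1) := by
            rw [h2, (h1.pow_right s).eq, mul_inv_cancel_right, pow_succ', mul_assoc]
  obtain ⟨m, hm0, hmc, hm⟩ : ∃ m, 0 < m ∧ m ≤ c ∧ q⁻¹ * (y ^ m * q * (y ^ m)⁻¹) ∈ C := by
    have := Fintype.ofFinite (Q ⧸ C.subgroupOf Q)
    obtain ⟨i, j, hij, e⟩ := Fintype.exists_ne_map_eq_of_card_lt (fun i : Fin (c + 1) =>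
      (QuotientGroup.mk ⟨y ^ (i : ℕ) * q * (y ^ (i : ℕ))⁻¹, hQ.conj_mem _ hq _⟩ :
        Q ⧸ C.subgroupOf Q)) (by
      rw [← Nat.card_eq_fintype_card, Fintype.card_fin]
      exact Nat.lt_succ_of_le hc)
    wlog hlt : (i : ℕ) < j generalizing i j
    · exact this j i hij.symm e.symm (by have := Fin.val_ne_of_ne hij; omega)
    have e1 : (y ^ (i : ℕ) * q * (y ^ (i : ℕ))⁻¹)⁻¹ * (y ^ (j : ℕ) * q * (y ^ (j : ℕ))⁻¹) ∈ C :=
      Subgroup.mem_subgroupOf.1 (QuotientGroup.eq.1 e)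
    obtain ⟨m, hm⟩ : ∃ m, (j : ℕ) = i + m := ⟨j - i, by omega⟩
    refine ⟨m, by omega, by have := j.2; omega, ?_⟩
    have e2 := ((hC _ e1).pow_left i).inv_left.eq
    rw [← mul_inv_eq_iff_eq_mul] at e2
    rw [← e2, hm, pow_add] at e1
    convert e1 using 1
    group
  obtain ⟨s, hs⟩ : m ∣ c.factorial := Nat.dvd_factorial hm0 hmc
  have h1 := it _ _ ((hC _ hm).pow_left m) (mul_inv_cancel_left q _).symm s
  rw [← pow_mul, ← hs] at h1
  set δ := (q⁻¹ * (y ^ m * q * (y ^ m)⁻¹)) ^ s with hδ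
  have hδC : δ ∈ C := pow_mem hm s
  have hδQ : δ ∈ Q := pow_mem (mul_mem (inv_mem hq) (hQ.conj_mem _ hq _)) s
  have h2 : q ^ c.factorial ∈ C := (Subgroup.pow_mem_of_relIndex_ne_zero_of_dvd
    (Subgroup.index_ne_zero_of_finite) hq fun k h0 hk => Nat.dvd_factorial h0 (hk.trans hc)).1
  have h3 : δ ^ c.factorial = 1 := by
    have h4 := congrArg (· ^ c.factorial) h1
    simp only [conj_pow, (hQa q hq δ hδQ).mul_pow] at h4
    rw [((hC _ h2).pow_left _).eq, mul_inv_cancel_right] at h4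
    exact left_eq_mul.1 h4
  have h5 := it _ _ ((hC _ hδC).pow_left _) h1 c.factorial
  rw [h3, mul_one, ← pow_mul, mul_inv_eq_iff_eq_mul] at h5
  exact h5

theorem pow_cen (S N : Subgroup H) [hN : N.Normal] (hNN : ⁅N, N⁆ ≤ S) {f r : H} (hf : f ∈ S)
    (hr : r ∈ S ⊔ N) (c : ℕ) (T : Finset N) (hT : ∀ n ∈ T, (n : H)⁻¹ * f * n ∈ S)
    (hc : Nat.card N ≤ c * #T) {n : H} (hn : n ∈ N) :
    ⁅(f * r * f⁻¹ * r⁻¹) ^ ((c * c).factorial * (c * c).factorial), n⁆ ∈ S := by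
  set Y := S ⊔ N with hY
  have hU : ((S ⊓ N).subgroupOf Y).Normal := by
    rw [Subgroup.normal_subgroupOf_iff_le_normalizer (inf_le_left.trans le_sup_left)]
    refine sup_le ?_ ?_ <;> rw [Subgroup.le_normalizer_iff]
    · exact fun s hs u hu => ⟨S.mul_mem (S.mul_mem hs hu.1) (S.inv_mem hs), hN.conj_mem _ hu.2 _⟩
    · refine fun s hs u hu => ⟨?_, hN.conj_mem _ hu.2 _⟩
      have := mul_mem (hNN (Subgroup.commutator_mem_commutator hs hu.2)) hu.1
      rwa [commutatorElement_def, inv_mul_cancel_right] at this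
  let π := QuotientGroup.mk' ((S ⊓ N).subgroupOf Y)
  have hπ : ∀ a b : Y, Commute (π a) (π b) ↔ ⁅(a : H), (b : H)⁆ ∈ S ⊓ N := by
    intro a b
    rw [← commutatorElement_eq_one_iff_commute, ← map_commutatorElement, QuotientGroup.mk'_apply,
      QuotientGroup.eq_one_iff]
    rfl
  let Q := (N.subgroupOf Y).map π
  have hQ : Q.Normal := Subgroup.Normal.map inferInstance π (QuotientGroup.mk'_surjective _)
  let f' : Y := ⟨f, Subgroup.mem_sup_left hf⟩
  let r' : Y := ⟨r, hr⟩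
  let C1 := Subgroup.centralizer {π f'}
  let C2 := C1.comap (MulAut.conj (π r')⁻¹).toMonoidHom
  have i1 : C1.relIndex Q ≤ c := by
    rw [← Subgroup.relIndex_comap]
    have a1 := ((C1.comap π).subgroupOf (N.subgroupOf Y)).card_mul_index
    have a2 : Nat.card (N.subgroupOf Y) = Nat.card N :=
      Nat.card_congr (Subgroup.subgroupOfEquivOfLe le_sup_right).toEquiv
    have a3 : #T ≤ Nat.card ((C1.comap π).subgroupOf (N.subgroupOf Y)) := by
      rw [← Fintype.card_coe, ← Nat.card_eq_fintype_card]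
      refine Nat.card_le_card_of_injective (fun t => ⟨⟨⟨t.1, Subgroup.mem_sup_right t.1.2⟩, t.1.2⟩,
        ?_⟩) fun t t' h => Subtype.ext (Subtype.ext ?_)
      · rw [Subgroup.mem_subgroupOf, Subgroup.mem_comap, Subgroup.mem_centralizer_singleton_iff]
        refine (Commute.inv_left_iff.1 ?_).eq
        rw [← map_inv, hπ]
        refine ⟨?_, ?_⟩
        · simpa [commutatorElement_def] using mul_mem (hT _ t.2) (inv_mem hf)
        · simpa [commutatorElement_def, mul_assoc] using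
            mul_mem (inv_mem t.1.2) (hN.conj_mem _ t.1.2 f)
      · exact congrArg (fun x => x.1.1.1) h
    have a4 : 0 < Nat.card ((C1.comap π).subgroupOf (N.subgroupOf Y)) := Nat.card_pos
    apply Nat.le_of_mul_le_mul_left _ a4
    rw [Subgroup.relIndex, a1, a2, mul_comm]
    exact hc.trans (Nat.mul_le_mul_left _ a3)
  have i2 : C2.relIndex Q = C1.relIndex Q := by
    rw [Subgroup.relIndex_comap]
    congr 1
    exact Subgroup.Normal.map_conj_eq Q _
  have := pow_central Q (C1 ⊓ C2) (by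
      rintro _ ⟨a, ha, rfl⟩ _ ⟨b, hb, rfl⟩
      exact (hπ a b).2 ⟨hNN (Subgroup.commutator_mem_commutator ha hb),
        Subgroup.commutator_le_left N N (Subgroup.commutator_mem_commutator ha hb)⟩)
    (π (f' * r' * f'⁻¹ * r'⁻¹)) (fun q hq => by
      have b1 : Commute (π f') q := (Subgroup.mem_centralizer_singleton_iff.1 hq.1).symm
      have b2 : Commute (π f') ((π r')⁻¹ * q * (π r')⁻¹⁻¹) :=
        (Subgroup.mem_centralizer_singleton_iff.1 hq.2).symm
      have b3 : Commute (π r' * (π f')⁻¹ * (π r')⁻¹) q := by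
        simpa [mul_assoc] using b2.inv_left.map (MulAut.conj (π r'))
      simpa [mul_assoc] using b1.mul_left b3) (c * c)
    (Subgroup.relIndex_inf_le.trans (Nat.mul_le_mul i1 (i2 ▸ i1)))
    (q := π ⟨n, Subgroup.mem_sup_right hn⟩) ⟨_, hn, rfl⟩
  rw [← map_pow, hπ] at this
  exact this.1

/-- A degree bound. -/
def bd2 (c : ℕ) : ℕ := 3 * (2 * ((c * c).factorial * (c * c).factorial) + 5)

theorem R_le_step (hφ : alternatingGroup Ω ≤ φ.range) (h5 : 5 ≤ #Δ) (S N : Subgroup H)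
    [hN : N.Normal] (hNφ : N ≤ φ.ker) (hNN : ⁅N, N⁆ ≤ S) (hR : R φ Δ ≤ S ⊔ N)
    (hinv : ∀ s ∈ S, ∀ y ∈ Δ, φ s y ∈ Δ) (Φ : Finset H) (c : ℕ) (hc : #Φ ≤ c)
    (hΦ : ∀ n ∈ N, ∃ f ∈ Φ, n⁻¹ * f * n ∈ S) (hdeg : ∀ f ∈ Φ, bd2 c ≤ #((φ f).support ∩ Δ)) :
    R φ Δ ≤ S := by
  classical
  have := Fintype.ofFinite N
  obtain ⟨f0, hf0, hf0c⟩ : ∃ f ∈ Φ, Nat.card N ≤ c * #{n : N | (n : H)⁻¹ * f * n ∈ S} := by
    obtain ⟨f0, hf0, -⟩ := hΦ 1 (one_mem _)
    have h1 : Nat.card N ≤ ∑ f ∈ Φ, #{n : N | (n : H)⁻¹ * f * n ∈ S} := by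
      rw [Nat.card_eq_fintype_card, ← card_univ]
      refine le_trans (card_le_card fun n _ => ?_) card_biUnion_le
      obtain ⟨f, hf, hfn⟩ := hΦ n n.2
      exact mem_biUnion.2 ⟨f, hf, by simpa using hfn⟩
    apply exists_le_of_sum_le ⟨f0, hf0⟩
    rw [sum_const, smul_eq_mul, ← mul_sum]
    exact Nat.mul_le_mul hc h1
  obtain ⟨n0, hn0⟩ : ({n : N | (n : H)⁻¹ * f0 * n ∈ S} : Finset N).Nonempty := by
    rw [← card_pos]
    have : 0 < Nat.card N := Nat.card_pos
    exact Nat.pos_of_mul_pos_left (this.trans_le hf0c)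
  set f : H := (n0 : H)⁻¹ * f0 * n0 with hf
  have hfS : f ∈ S := by simpa using hn0
  have hφf : φ f = φ f0 := by simp [hf, MonoidHom.mem_ker.1 (hNφ n0.2)]
  set m := (c * c).factorial * (c * c).factorial with hm
  have hm0 : 0 < m := Nat.mul_pos (Nat.factorial_pos _) (Nat.factorial_pos _)
  obtain ⟨A, hA, hAc, hAf⟩ := exists_free (φ f) Δ (2 * m + 5) (hφf ▸ hdeg f0 hf0)
  obtain ⟨ρ, hρ, hρA⟩ := A.exists_cycleOn
  have hρ2 : ρ * ρ ∈ AltOn A := ⟨by simp, fun a ha => by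
    have : ρ a = a := by
      by_contra h
      exact ha (hρA (mem_support.2 h))
    rw [Perm.mul_apply, this, this]⟩
  obtain ⟨r, hr, hrρ⟩ := R_surj hφ h5 (σ := ρ * ρ)
    ⟨hρ2.1, fun a ha => hρ2.2 a fun h => ha (mem_inter.1 (hA h)).2⟩
  have nU : ∀ y ∈ S ⊔ N, ∀ u ∈ S ⊓ N, y * u * y⁻¹ ∈ S := by
    intro y hy u hu
    obtain ⟨s, hs, n, hn, rfl⟩ := Subgroup.mem_sup_of_normal_right.1 hy
    have := cj _ hs (mul_mem (hNN (Subgroup.commutator_mem_commutator hn hu.2)) hu.1)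
    simpa [commutatorElement_def, mul_assoc] using this
  have cN : ∀ y, ∀ n ∈ N, ⁅y, n⁆ ∈ N := fun y n hn => mul_mem (hN.conj_mem _ hn y) (inv_mem hn)
  let Cen : Subgroup H :=
    { carrier := {y | y ∈ S ⊔ N ∧ ∀ n ∈ N, ⁅y, n⁆ ∈ S}
      one_mem' := ⟨one_mem _, fun n _ => by simp⟩
      mul_mem' := fun {a b} ha hb => ⟨mul_mem ha.1 hb.1, fun n hn => by
        have := mul_mem (nU a ha.1 _ ⟨hb.2 n hn, cN b n hn⟩) (ha.2 n hn)
        simpa [commutatorElement_def, mul_assoc] using this⟩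
      inv_mem' := fun {a} ha => ⟨inv_mem ha.1, fun n hn => by
        have := inv_mem (nU _ (inv_mem ha.1) _ ⟨ha.2 n hn, cN a n hn⟩)
        simpa [commutatorElement_def, mul_assoc] using this⟩ }
  have hg : f * r * f⁻¹ * r⁻¹ ∈ R φ Δ := mul_mem (R_conj hφ h5 (hinv f hfS) hr) (inv_mem hr)
  have hRC : R φ Δ ≤ Cen := by
    refine R_min hφ h5 (fun z hz y hy => ⟨cj _ (hR hz) hy.1, fun n hn => ?_⟩)
      (j := (f * r * f⁻¹ * r⁻¹) ^ m) ⟨hR (pow_mem hg m), fun n hn => ?_⟩ (pow_mem hg m) fun h1 => ?_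
    · have h1 := hN.conj_mem _ hn z⁻¹
      have := nU z (hR hz) _ ⟨hy.2 _ h1, cN y _ h1⟩
      simpa [commutatorElement_def, mul_assoc] using this
    · refine pow_cen S N hNN hfS (hR hr) c
        (({n : N | (n : H)⁻¹ * f0 * n ∈ S} : Finset N).image (n0⁻¹ * ·)) (fun t ht => ?_) ?_ hn
      · obtain ⟨t', ht', rfl⟩ := mem_image.1 ht
        simpa [hf, mul_assoc] using ht'
      · rwa [card_image_of_injective _ (mul_right_injective _)]
    · obtain ⟨a, ha⟩ : A.Nonempty := card_pos.1 (by omega)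
      have h2 : ∀ y ∈ A, (φ f * (ρ * ρ) * (φ f)⁻¹) y = y := fun y hy =>
        (altOn_conj (Δ' := A.image (φ f)) (fun _ h => mem_image_of_mem _ h) hρ2).2 y fun h => by
          obtain ⟨y', hy', rfl⟩ := mem_image.1 h
          exact hAf y' hy' hy
      have h3 : Commute (φ f * (ρ * ρ) * (φ f)⁻¹) (ρ * ρ)⁻¹ := by
        apply Perm.Disjoint.commute
        intro y
        by_cases hy : y ∈ A
        · exact Or.inl (h2 y hy)
        · exact Or.inr ((inv_mem hρ2).2 y hy)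
      rw [map_pow, map_mul, map_mul, map_mul, map_inv, map_inv, hrρ, h3.mul_pow, inv_pow,
        mul_inv_eq_one] at h1
      have h4 : (ρ ^ (2 * m)) a = a := by
        rw [pow_mul, sq, ← h1]
        exact Perm.pow_apply_eq_self_of_apply_eq_self (h2 a ha) m
      have := Nat.le_of_dvd (by omega) ((hρ.pow_apply_eq ha).1 h4)
      omega
  obtain ⟨σ, hσ, τ, hτ, a, -, hne⟩ := exists_noncomm (Δ := Δ) (by omega)
  obtain ⟨r1, hr1, rfl⟩ := R_surj hφ h5 hσ
  obtain ⟨r2, hr2, rfl⟩ := R_surj hφ h5 hτ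
  obtain ⟨s1, hs1, n1, hn1, rfl⟩ := Subgroup.mem_sup_of_normal_right.1 (hR hr1)
  obtain ⟨s2, hs2, n2, hn2, rfl⟩ := Subgroup.mem_sup_of_normal_right.1 (hR hr2)
  have hs1C : s1 ∈ Cen := by
    have : n1 ∈ Cen := ⟨Subgroup.mem_sup_right hn1, fun n hn =>
      hNN (Subgroup.commutator_mem_commutator hn1 hn)⟩
    simpa using mul_mem (hRC hr1) (inv_mem this)
  refine (R_min hφ h5 (J := R φ Δ ⊓ S) (fun z hz y hy => ⟨cj _ hz hy.1, ?_⟩)
    (j := ⁅s1, s2 * n2⁆) ⟨?_, ?_⟩ ?_ fun h1 => hne ?_).trans inf_le_right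
  · obtain ⟨s, hs, n, hn, rfl⟩ := Subgroup.mem_sup_of_normal_right.1 (hR hz)
    have := cj _ hs (S.mul_mem hy.2 ((hRC ((R φ Δ).inv_mem hy.1)).2 n hn))
    simpa [commutatorElement_def, mul_assoc] using this
  · exact (R φ Δ).mul_mem (R_conj hφ h5 (hinv s1 hs1) hr2) ((R φ Δ).inv_mem hr2)
  · have := mul_mem (mul_mem (cj _ hs1 hs2) (hs1C.2 n2 hn2)) (inv_mem hs2)
    simpa [commutatorElement_def, mul_assoc] using this
  · exact mul_mem (R_conj hφ h5 (hinv s1 hs1) hr2) (inv_mem hr2)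
  · rw [map_commutatorElement, commutatorElement_eq_one_iff_commute] at h1
    rw [map_mul φ s1, MonoidHom.mem_ker.1 (hNφ hn1), mul_one, ← Perm.mul_apply, h1.eq,
      Perm.mul_apply]

theorem R_le_of_solvable (hφ : alternatingGroup Ω ≤ φ.range) (h5 : 5 ≤ #Δ)
    (hs : Group.IsSolvable φ.ker) (S : Subgroup H) (hS : AltOn Δ ≤ S.map φ)
    (hinv : ∀ s ∈ S, ∀ y ∈ Δ, φ s y ∈ Δ) (Φ : Finset H) (c : ℕ) (hc : #Φ ≤ c)
    (hΦ : ∀ n ∈ φ.ker, ∃ f ∈ Φ, n⁻¹ * f * n ∈ S)
    (hdeg : ∀ f ∈ Φ, bd2 c ≤ #((φ f).support ∩ Δ)) : R φ Δ ≤ S := by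
  obtain ⟨k, hk⟩ := hs.solvable
  have key : ∀ i, R φ Δ ≤ S ⊔ (derivedSeries φ.ker i).map φ.ker.subtype := by
    intro i
    induction i with
    | zero =>
      intro r hr
      obtain ⟨s, hs, e⟩ := hS (R_le hφ h5 hr)
      rw [← mul_inv_cancel_left s r]
      exact Subgroup.mul_mem_sup hs ⟨⟨s⁻¹ * r, by simp [MonoidHom.mem_ker, e]⟩, trivial, rfl⟩
    | succ i ih =>
      refine R_le_step hφ h5 _ ((derivedSeries φ.ker i).map φ.ker.subtype)
        (Subgroup.map_subtype_le _) ?_ (ih.trans (sup_le_sup_right le_sup_left _)) ?_ Φ c hc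
        (fun n hn => ?_) hdeg
      · rw [derivedSeries_succ, Subgroup.map_commutator]
        exact le_sup_right
      · intro y hy a ha
        obtain ⟨s, hs, n, hn, rfl⟩ := Subgroup.mem_sup_of_normal_right.1 hy
        rw [map_mul, MonoidHom.mem_ker.1 (Subgroup.map_subtype_le _ hn), mul_one]
        exact hinv s hs a ha
      · obtain ⟨f, hf, h⟩ := hΦ n (Subgroup.map_subtype_le _ hn)
        exact ⟨f, hf, Subgroup.mem_sup_left h⟩
  simpa [hk] using key k

theorem commuting {F Ω2 : Type} [Group F] [Fintype F] (hφ : alternatingGroup Ω ≤ φ.range)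
    (hs : Group.IsSolvable φ.ker) (ψ : H →* Perm Ω2) (hψ : Function.Injective ψ) (j : F →* H)
    (a : Ω) (e : F) (he : e ≠ 1) (hea : φ (j e) a = a)
    (hdeg : ∀ f, f ≠ 1 → bd (Fintype.card F) + bd2 (Fintype.card F) < #(φ (j f)).support)
    (hst : ∀ ω, (∃ f, ψ (j f) ω = ω ∧ φ (j f) a ≠ a) ∨ ψ (j e) ω = ω) (h5 : 5 ≤ #Δ)
    (h5' : 5 ≤ #Δ') (hd : Disjoint Δ Δ') {r r' : H} (hr : r ∈ R φ Δ) (hr' : r' ∈ R φ Δ') :
    Commute r r' := by
  classical
  have key : ∀ ω, ∃ Λ : Finset Ω, #Λᶜ ≤ 1 ∧ 5 ≤ #Λ ∧ ∀ y ∈ R φ Λ, ψ y ω = ω := by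
    intro ω
    let S := (MulAction.stabilizer (Perm Ω2) ω).comap ψ
    have hS : ∀ y, y ∈ S ↔ ψ y ω = ω := fun y => Iff.rfl
    have h1 : ∀ h f, ψ (j f) (ψ h ω) = ψ h ω → h⁻¹ * j f * h ∈ S := fun h f hf => by
      simp [hS, hf]
    obtain ⟨Λ, l1, l2, l3⟩ := giant (φ.comp j) (S.map φ) a e he hea
      (fun f hf => le_trans (by omega) (hdeg f hf).le) fun g hg => by
        obtain ⟨h, rfl⟩ := hφ (x := g) hg
        rcases hst (ψ h⁻¹ ω) with ⟨f, f1, f2⟩ | f1
        · exact Or.inl ⟨f, ⟨_, h1 _ f f1, by simp⟩, f2⟩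
        · exact Or.inr ⟨_, h1 _ e f1, by simp⟩
    have h2 : ∀ f, f ≠ 1 → bd2 (Fintype.card F) ≤ #((φ (j f)).support ∩ Λ) := by
      intro f hf
      have a1 := card_inter_add_card_sdiff (φ (j f)).support Λ
      have a2 : #((φ (j f)).support \ Λ) ≤ #Λᶜ :=
        card_le_card fun y hy => mem_compl.2 (mem_sdiff.1 hy).2
      have := hdeg f hf
      omega
    have h3 : 5 ≤ #Λ := by
      have a1 := (h2 e he).trans (card_le_card inter_subset_right)
      unfold bd2 at a1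
      omega
    refine ⟨Λ, l1, h3, R_le_of_solvable hφ h3 hs S l2 (fun s hs => l3 _ ⟨s, hs, rfl⟩)
      ((univ.erase 1).image j) _ (card_image_le.trans (card_erase_le.trans le_rfl))
      (fun n _ => ?_) fun f hf => ?_⟩
    · rcases hst (ψ n ω) with ⟨f, f1, f2⟩ | f1
      · exact ⟨_, mem_image_of_mem _ (mem_erase.2 ⟨fun h => f2 (by simp [h]), mem_univ _⟩),
          h1 _ f f1⟩
      · exact ⟨_, mem_image_of_mem _ (mem_erase.2 ⟨he, mem_univ _⟩), h1 _ e f1⟩
    · obtain ⟨f', hf', rfl⟩ := mem_image.1 hf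
      exact h2 f' (mem_erase.1 hf').1
  have c1 : ⁅r, r'⁆ ∈ R φ Δ' := mul_mem (R_conj hφ h5' (fun y hy => by
    rwa [(R_le hφ h5 hr).2 y (disjoint_right.1 hd hy)]) hr') (inv_mem hr')
  have c2 : ⁅r, r'⁆ ∈ R φ Δ := by
    have := mul_mem hr (R_conj (h := r') hφ h5 (fun y hy => by
      rwa [(R_le hφ h5' hr').2 y (disjoint_left.1 hd hy)]) (inv_mem hr))
    simpa [commutatorElement_def, mul_assoc] using this
  rw [← commutatorElement_eq_one_iff_commute]
  apply hψ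
  rw [map_one]
  ext ω
  obtain ⟨Λ, l1, l2, l3⟩ := key ω
  by_cases h : Δ ⊆ Λ
  · exact l3 _ (R_mono hφ l2 h c2)
  · refine l3 _ (R_mono hφ l2 (fun y hy => ?_) c1)
    obtain ⟨z, hz, hz'⟩ := not_subset.1 h
    by_contra hy'
    exact disjoint_left.1 hd hz
      (card_le_one.1 l1 y (mem_compl.2 hy') z (mem_compl.2 hz') ▸ hy)

theorem solv_red {F P : Type} [Group F] [Group P] {p : ℕ} [Fact p.Prime] (hF : IsPGroup p F)
    (n : ℕ) : ∀ (H : Type) [Group H] [Finite H] (φ : H →* P) (j : F →* H), Nat.card H = n →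
      ∃ K : Subgroup H, j.range ≤ K ∧ (∀ h, ∃ k ∈ K, φ k = φ h) ∧
        Group.IsSolvable (φ.comp K.subtype).ker := by
  induction n using Nat.strong_induction_on with
  | _ n ih =>
    intro H _ _ φ j hn
    by_cases hM : φ.ker = ⊥
    · refine ⟨⊤, le_top, fun h => ⟨h, trivial, rfl⟩, Group.isSolvable_of_comm fun a b => ?_⟩
      have : ∀ a : (φ.comp (⊤ : Subgroup H).subtype).ker, a = 1 := fun a => by
        have h1 : (a.1 : H) ∈ φ.ker := a.2
        rw [hM] at h1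
        exact Subtype.ext (Subtype.ext h1)
      rw [this a, this b]
    obtain ⟨r, hr, hr1, hr2⟩ : ∃ r : ℕ, r.Prime ∧ r ∣ Nat.card φ.ker ∧
        (r = p ∨ ∀ g ∈ φ.ker, g ^ p = 1 → g = 1) := by
      by_cases hp : p ∣ Nat.card φ.ker
      · exact ⟨p, Fact.out, hp, Or.inl rfl⟩
      · refine ⟨_, Nat.minFac_prime (mt Subgroup.card_eq_one.1 hM), Nat.minFac_dvd _,
          Or.inr fun g hg h => eq_one_of_coprime
            ((Nat.Prime.coprime_iff_not_dvd Fact.out).2 hp) h ?_⟩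
        simpa using congrArg Subtype.val (pow_card_eq_one' (x := (⟨g, hg⟩ : φ.ker)))
    have := Fact.mk hr
    obtain ⟨S, hS, hFS⟩ := exists_syl (r := r) (N := φ.ker)
      (hF.of_surjective _ j.rangeRestrict_surjective) (Subgroup.le_normalizer_of_normal) hr2
    by_cases hT : Subgroup.normalizer (S : Set H) = ⊤
    · have hSn : S.Normal := Subgroup.normalizer_eq_top_iff.1 hT
      have hS1 : S ≠ ⊥ := by
        intro h
        have h1 := hS.toSylow.ne_bot_of_dvd_card hr1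
        apply h1
        change S.subgroupOf _ = ⊥
        rw [h, Subgroup.bot_subgroupOf]
      obtain ⟨K, k1, k2, k3⟩ := ih _ (by
        have a1 := S.card_mul_index
        have a2 := (Subgroup.one_lt_card_iff_ne_bot S).2 hS1
        have a3 : 0 < S.index := Nat.pos_of_ne_zero Subgroup.index_ne_zero_of_finite
        rw [← hn, ← a1]
        exact lt_mul_left a3 a2) (H ⧸ S) (QuotientGroup.lift S φ hS.le)
        ((QuotientGroup.mk' S).comp j) rfl
      refine ⟨K.comap (QuotientGroup.mk' S), ?_, fun h => ?_, ?_⟩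
      · rintro _ ⟨f, rfl⟩
        exact k1 ⟨f, rfl⟩
      · obtain ⟨k, hk, e⟩ := k2 h
        obtain ⟨k', rfl⟩ := QuotientGroup.mk_surjective k
        exact ⟨k', hk, e⟩
      · have := hS.pg.isNilpotent
        let α : S →* (φ.comp (K.comap (QuotientGroup.mk' S)).subtype).ker :=
          (S.subtype.codRestrict _ fun s => by
            rw [Subgroup.mem_comap, QuotientGroup.mk'_apply, Subgroup.subtype_apply,
              (QuotientGroup.eq_one_iff _).2 s.2]
            exact one_mem _).codRestrict _ fun s => hS.le s.2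
        let β : (φ.comp (K.comap (QuotientGroup.mk' S)).subtype).ker →*
            ((QuotientGroup.lift S φ hS.le).comp K.subtype).ker :=
          (((QuotientGroup.mk' S).subgroupComap K).comp (Subgroup.subtype _)).codRestrict _
            fun y => y.2
        refine Group.isSolvable_of_ker_le_range α β fun y hy => ?_
        have h1 : ((y.1.1 : H) : H ⧸ S) = 1 := congrArg (fun z => z.1.1) hy
        exact ⟨⟨y.1.1, (QuotientGroup.eq_one_iff _).1 h1⟩, rfl⟩
    · set T := Subgroup.normalizer (S : Set H)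
      obtain ⟨K, k1, k2, k3⟩ := ih _ (by
        rw [← hn, ← T.card_mul_index]
        exact lt_mul_right Nat.card_pos (Subgroup.one_lt_index_of_ne_top hT)) T (φ.comp T.subtype)
        (j.codRestrict T fun f => hFS ⟨f, rfl⟩) rfl
      refine ⟨K.map T.subtype, ?_, fun h => ?_, ?_⟩
      · rintro _ ⟨f, rfl⟩
        exact ⟨_, k1 ⟨f, rfl⟩, rfl⟩
      · obtain ⟨m, hm, y, hy, rfl⟩ := hS.frattini h
        obtain ⟨k, hk, e⟩ := k2 ⟨m, hm⟩
        exact ⟨k, ⟨k, hk, rfl⟩, by rw [map_mul, MonoidHom.mem_ker.1 hy, mul_one]; exact e⟩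
      · let β : ((φ.comp T.subtype).comp K.subtype).ker →* (φ.comp (K.map T.subtype).subtype).ker :=
          ((T.subtype.subgroupMap K).comp (Subgroup.subtype _)).codRestrict _ fun y => y.2
        refine Group.isSolvable_of_surjective (f := β) ?_
        rintro ⟨⟨_, k, hk, rfl⟩, hy⟩
        exact ⟨⟨⟨k, hk⟩, hy⟩, rfl⟩

end Pool.Agent.Lib.MP_679d9b_al.Alt
end

-- part Pool.Agent.Lib.MP_679d9b_al.AltFin
section

/-!
Long chains of centralizers inside the centralizer of an element of a finite group mapping onto an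
alternating group.
-/

set_option autoImplicit false

namespace Pool.Agent.Lib.MP_679d9b_al.Alt

open Equiv Equiv.Perm Finset
open scoped commutatorElement Pointwise

/-- Chains of centralizers inside the centralizer of `x` cannot be continued `d + 1` times. -/
def NoChain {G : Type} [Group G] (x : G) (d : ℕ) : Prop :=
  ∀ (ι : Type) (Ok : ℕ → ι → Prop) (Sub : ι → Set G) (i0 : ι), Ok 0 i0 →
    ¬ ∀ k ≤ d, ∀ i, Ok k i → ∃ i', Ok (k + 1) i' ∧ Sub i ⊆ Sub i' ∧
      ∃ v, Commute x v ∧ (∀ y ∈ Sub i, Commute y v) ∧ ∃ u ∈ Sub i', Commute x u ∧ ¬ Commute u v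

theorem noChain_of_linear {G K : Type} [Group G] [Field K] {n : ℕ} (x : G)
    (ρ : Subgroup.centralizer ({x} : Set G) →* Matrix.GeneralLinearGroup (Fin n) K)
    (hρ : Function.Injective ρ) : NoChain x (n * n) := by
  intro ι Ok Sub i0 h0 step
  let W : ι → Submodule K (Matrix (Fin n) (Fin n) K) := fun i =>
    { carrier := {M | ∀ f : Subgroup.centralizer ({x} : Set G), f.1 ∈ Sub i →
        (ρ f).1 * M = M * (ρ f).1}
      zero_mem' := fun f _ => by simp
      add_mem' := fun {a b} ha hb f hf => by rw [mul_add, add_mul, ha f hf, hb f hf]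
      smul_mem' := fun c a ha f hf => by rw [mul_smul_comm, smul_mul_assoc, ha f hf] }
  have key : ∀ k ≤ n * n + 1, ∃ i, Ok k i ∧ Module.finrank K (W i) + k ≤ n * n := by
    intro k
    induction k with
    | zero => exact fun _ => ⟨i0, h0, by simpa [Module.finrank_matrix] using (W i0).finrank_le⟩
    | succ k ih =>
      intro hk
      obtain ⟨i, hi, hr⟩ := ih (by omega)
      obtain ⟨i', h1, h2, v, hv, h3, u, hu, hxu, huv⟩ := step k (by omega) i hi
      have hv' : v ∈ Subgroup.centralizer ({x} : Set G) :=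
        Subgroup.mem_centralizer_singleton_iff.2 hv.symm.eq
      have hu' : u ∈ Subgroup.centralizer ({x} : Set G) :=
        Subgroup.mem_centralizer_singleton_iff.2 hxu.symm.eq
      have h4 : W i' < W i := lt_of_le_of_ne (fun M hM f hf => hM f (h2 hf)) fun h => huv <| by
        have h5 : (ρ ⟨v, hv'⟩).1 ∈ W i := fun f hf => by
          rw [← Units.val_mul, ← Units.val_mul, ← map_mul, ← map_mul]
          exact congrArg (fun y => (ρ y).1) (Subtype.ext (h3 f hf).eq)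
        rw [← h] at h5
        have h6 := h5 ⟨u, hu'⟩ hu
        rw [← Units.val_mul, ← Units.val_mul, ← map_mul, ← map_mul] at h6
        exact congrArg Subtype.val (hρ (Units.ext h6))
      have := Submodule.finrank_lt_finrank_of_lt h4
      exact ⟨i', h1, by omega⟩
  obtain ⟨i, -, h⟩ := key _ le_rfl
  omega

theorem NoChain.comap {G H : Type} [Group G] [Group H] (μ : H →* G) (hμ : Function.Injective μ)
    {x : H} {d : ℕ} (h : NoChain (μ x) d) : NoChain x d := by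
  intro ι Ok Sub i0 h0 step
  refine h ι Ok (fun i => μ '' Sub i) i0 h0 fun k hk i hi => ?_
  obtain ⟨i', h1, h2, v, hv, h3, u, hu, hxu, huv⟩ := step k hk i hi
  refine ⟨i', h1, Set.image_mono h2, μ v, hv.map μ, ?_, μ u, ⟨u, hu, rfl⟩, hxu.map μ,
    fun h => huv (hμ (by rw [map_mul, map_mul]; exact h))⟩
  rintro _ ⟨y, hy, rfl⟩
  exact (h3 y hy).map μ

variable {Ω : Type} [Fintype Ω] [DecidableEq Ω] {H : Type} [Group H]

theorem exists_nm (Z : Subgroup H) [Fintype Z] (r : H)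
    (h : ∀ z z' : Z, z ≠ z' → Commute ((z : H) * r * (z : H)⁻¹) ((z' : H) * r * (z' : H)⁻¹)) :
    ∃ c, (∀ z ∈ Z, Commute z c) ∧ (∀ B : Subgroup H, (∀ z ∈ Z, z * r * z⁻¹ ∈ B) → c ∈ B) ∧
      ∀ B : Subgroup H, (∀ z ∈ Z, z ≠ 1 → z * r * z⁻¹ ∈ B) → r⁻¹ * c ∈ B := by
  classical
  have hc : ((univ : Finset Z) : Set Z).Pairwise
      (Function.onFun Commute fun z => (z : H) * r * (z : H)⁻¹) := fun z _ z' _ hz => h z z' hz
  refine ⟨univ.noncommProd _ hc, fun g hg => ?_, fun B hB => B.noncommProd_mem _ fun z _ => hB z z.2,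
    fun B hB => ?_⟩
  · rw [Commute, SemiconjBy, ← mul_inv_eq_iff_eq_mul, ← MulAut.conj_apply, Finset.map_noncommProd]
    have key : ∀ (a b : Multiset H) (_ : a = b) ha hb, a.noncommProd ha = b.noncommProd hb := by
      intro a b hab ha hb
      subst hab
      rfl
    refine key _ _ ?_ _ _
    conv_rhs => rw [← Multiset.map_univ_val_equiv (Equiv.mulLeft (⟨g, hg⟩ : Z)), Multiset.map_map]
    refine Multiset.map_congr rfl fun f _ => ?_
    simp [mul_assoc]
  · rw [← mul_noncommProd_erase _ (mem_univ 1)]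
    simp only [OneMemClass.coe_one, one_mul, inv_one, mul_one, inv_mul_cancel_left]
    exact B.noncommProd_mem _ fun z hz => hB z z.2 fun h => (mem_erase.1 hz).1 (Subtype.ext h)

omit [Fintype Ω] in
theorem exists_transversal (φ : H →* Perm Ω) (Z : Subgroup H) [Fintype Z] (Reg X : Finset Ω)
    (m : ℕ) (h : #X + m * Fintype.card Z ≤ #Reg) :
    ∃ Δ ⊆ Reg, #Δ = m ∧ Disjoint Δ X ∧ ∀ a ∈ Δ, ∀ b ∈ Δ, ∀ z ∈ Z, φ z a = b → a = b := by
  induction m with
  | zero => exact ⟨∅, empty_subset _, rfl, disjoint_empty_left _, by simp⟩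
  | succ m ih =>
    obtain ⟨Δ, h1, h2, h3, h4⟩ := ih (by nlinarith)
    have h5 : #(X ∪ (Δ ×ˢ (univ : Finset Z)).image fun q => φ q.2 q.1) < #Reg := by
      have a1 := card_union_le X ((Δ ×ˢ (univ : Finset Z)).image fun q => φ q.2 q.1)
      have a2 := card_image_le (s := Δ ×ˢ (univ : Finset Z)) (f := fun q => φ q.2 q.1)
      have a3 : 0 < Fintype.card Z := Fintype.card_pos
      rw [card_product, h2, card_univ] at a2
      nlinarith
    obtain ⟨c, hc, hc'⟩ := exists_mem_notMem_of_card_lt_card h5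
    rw [mem_union, not_or] at hc'
    have h6 : ∀ a ∈ Δ, ∀ z ∈ Z, φ z a ≠ c := fun a ha z hz e =>
      hc'.2 (mem_image.2 ⟨(a, ⟨z, hz⟩), mem_product.2 ⟨ha, mem_univ _⟩, e⟩)
    refine ⟨insert c Δ, insert_subset hc h1, by
      rw [card_insert_of_notMem fun h => h6 c h 1 (one_mem _) (by simp), h2],
      disjoint_insert_left.2 ⟨hc'.1, h3⟩, fun a ha b hb z hz e => ?_⟩
    rcases mem_insert.1 ha with ha | ha <;> rcases mem_insert.1 hb with hb | hb
    · rw [ha, hb]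
    · exact absurd (by simp [← e, ha]) (h6 b hb _ (inv_mem hz))
    · exact absurd (e.trans hb) (h6 a ha z hz)
    · exact h4 a ha b hb z hz e

theorem chain_of_commuting [Finite H] {φ : H →* Perm Ω} (hφ : alternatingGroup Ω ≤ φ.range)
    (hc : ∀ Δ Δ' : Finset Ω, 5 ≤ #Δ → 5 ≤ #Δ' → Disjoint Δ Δ' →
      ∀ r ∈ R φ Δ, ∀ r' ∈ R φ Δ', Commute r r') (x : H) (d : ℕ) (Reg : Finset Ω)
    (hReg : ∀ a ∈ Reg, ∀ z ∈ Subgroup.zpowers x, φ z a = a → z = 1)
    (hd : 5 * orderOf x * (d + 1) ≤ #Reg) : ¬ NoChain x d := by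
  classical
  intro h
  set Z := Subgroup.zpowers x with hZ
  have := Fintype.ofFinite Z
  have hcard : Fintype.card Z = orderOf x := by
    rw [← Nat.card_eq_fintype_card, Nat.card_zpowers]
  let B : Finset Ω → Subgroup H := fun X => ⨆ Δ : {Δ : Finset Ω // Δ ⊆ X ∧ 5 ≤ #Δ}, R φ Δ
  refine h (Finset Ω) (fun k X => #X ≤ 5 * orderOf x * k ∧ ∀ z ∈ Z, ∀ a ∈ X, φ z a ∈ X)
    (fun X => B X) ∅ ⟨by simp, by simp⟩ fun k hk X hX => ?_
  obtain ⟨Δ, h1, h2, h3, h4⟩ := exists_transversal φ Z Reg X 5 (by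
    have := Nat.mul_le_mul_left (5 * orderOf x) hk
    rw [hcard]
    nlinarith [hX.1])
  have c5 : ∀ z : H, 5 ≤ #(Δ.image (φ z)) := fun z => by
    rw [card_image_of_injective _ (φ z).injective, h2]
  have cm : ∀ z : H, ∀ r ∈ R φ Δ, z * r * z⁻¹ ∈ R φ (Δ.image (φ z)) := fun z r hr =>
    R_conj hφ (c5 z) (fun a ha => mem_image_of_mem _ ha) hr
  have dj : ∀ z ∈ Z, ∀ z' ∈ Z, z ≠ z' → Disjoint (Δ.image (φ z)) (Δ.image (φ z')) := by
    intro z hz z' hz' hne
    rw [disjoint_left]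
    intro y hy hy'
    obtain ⟨a, ha, rfl⟩ := mem_image.1 hy
    obtain ⟨b, hb, e⟩ := mem_image.1 hy'
    have h5 : φ (z⁻¹ * z') b = a := by simp [e]
    have h6 := h4 b hb a ha _ (mul_mem (inv_mem hz) hz') h5
    exact hne (inv_mul_eq_one.1 (hReg b (h1 hb) _ (mul_mem (inv_mem hz) hz') (h5.trans h6.symm)))
  have nm : ∀ r ∈ R φ Δ, ∃ c, Commute x c ∧ (∀ B : Subgroup H,
      (∀ z ∈ Z, R φ (Δ.image (φ z)) ≤ B) → c ∈ B) ∧ ∀ a ∈ Δ, φ c a = φ r a := by
    intro r hr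
    obtain ⟨c, c1, c2, c3⟩ := exists_nm Z r fun z z' hne => hc _ _ (c5 z) (c5 z')
      (dj z z.2 z' z'.2 fun e => hne (Subtype.ext e)) _ (cm z r hr) _ (cm z' r hr)
    refine ⟨c, c1 x (Subgroup.mem_zpowers x), fun B hB => c2 B fun z hz => hB z hz (cm z r hr),
      fun a ha => ?_⟩
    have h5 : φ (r⁻¹ * c) a = a := c3 ((MulAction.stabilizer (Perm Ω) a).comap φ) fun z hz hz1 =>
      (R_le hφ (c5 z) (cm z r hr)).2 a
        (disjoint_right.1 (dj z hz 1 (one_mem _) hz1) (mem_image.2 ⟨a, ha, by simp⟩))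
    rw [map_mul, map_inv, Perm.mul_apply, Perm.inv_eq_iff_eq] at h5
    exact h5
  obtain ⟨σ, hσ, τ, hτ, a, ha, hne⟩ := exists_noncomm (Δ := Δ) (by omega)
  obtain ⟨r, hr, rfl⟩ := R_surj hφ h2.ge hσ
  obtain ⟨r', hr', rfl⟩ := R_surj hφ h2.ge hτ
  obtain ⟨u, u1, u2, u3⟩ := nm r hr
  obtain ⟨v, v1, v2, v3⟩ := nm r' hr'
  refine ⟨X ∪ (Δ ×ˢ (univ : Finset Z)).image fun q => φ q.2 q.1, ⟨?_, fun z hz y hy => ?_⟩, ?_,
    v, v1, fun y hy => ?_, u, u2 _ fun z hz => ?_, u1, fun e => hne ?_⟩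
  · have a1 := card_union_le X ((Δ ×ˢ (univ : Finset Z)).image fun q => φ q.2 q.1)
    have a2 := card_image_le (s := Δ ×ˢ (univ : Finset Z)) (f := fun q => φ q.2 q.1)
    rw [card_product, h2, card_univ, hcard] at a2
    nlinarith [hX.1]
  · rcases mem_union.1 hy with hy | hy
    · exact mem_union_left _ (hX.2 z hz y hy)
    · obtain ⟨q, hq, rfl⟩ := mem_image.1 hy
      exact mem_union_right _ (mem_image.2 ⟨(q.1, ⟨z, hz⟩ * q.2),
        mem_product.2 ⟨(mem_product.1 hq).1, mem_univ _⟩, by simp⟩)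
  · exact (iSup_le fun Λ => le_iSup_of_le (f := fun Λ : {Λ : Finset Ω // Λ ⊆ _ ∧ 5 ≤ #Λ} => R φ Λ)
      ⟨Λ.1, Λ.2.1.trans subset_union_left, Λ.2.2⟩ le_rfl : B X ≤ B _)
  · have h5 : B X ≤ Subgroup.centralizer {v} := iSup_le fun Λ t ht => by
      rw [Subgroup.mem_centralizer_singleton_iff]
      refine (Subgroup.mem_centralizer_singleton_iff.1 (v2 _ fun z hz s hs => ?_)).symm
      rw [Subgroup.mem_centralizer_singleton_iff]
      refine hc _ _ (c5 z) Λ.2.2 (disjoint_left.2 fun y hy hy' => ?_) s hs t ht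
      obtain ⟨b, hb, rfl⟩ := mem_image.1 hy
      exact disjoint_left.1 h3 hb (by simpa using hX.2 _ (inv_mem hz) _ (Λ.2.1 hy'))
    exact Subgroup.mem_centralizer_singleton_iff.1 (h5 hy)
  · refine le_iSup_of_le (f := fun Λ : {Λ : Finset Ω // Λ ⊆ _ ∧ 5 ≤ #Λ} => R φ Λ)
      ⟨Δ.image (φ z), fun y hy => ?_, c5 z⟩ le_rfl
    obtain ⟨b, hb, rfl⟩ := mem_image.1 hy
    exact mem_union_right _ (mem_image.2 ⟨(b, ⟨z, hz⟩), mem_product.2 ⟨hb, mem_univ _⟩, rfl⟩)
  · rw [← v3 a ha, ← u3 a ha, ← u3 _ (v3 a ha ▸ altOn_maps hτ ha),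
      ← v3 _ (u3 a ha ▸ altOn_maps hσ ha), ← Perm.mul_apply, ← Perm.mul_apply, ← map_mul,
      ← map_mul, e.eq]

omit [Fintype Ω] [DecidableEq Ω] in
theorem reg_of_moved [Finite H] (φ : H →* Perm Ω) {p k : ℕ} (hp : p.Prime) {x : H}
    (hx : orderOf x = p ^ (k + 1)) {a : Ω} (ha : φ (x ^ p ^ k) a ≠ a) :
    ∀ z ∈ Subgroup.zpowers x, φ z a = a → z = 1 := by
  intro z hz h
  obtain ⟨i, rfl⟩ := (mem_powers_iff_mem_zpowers.2 hz : z ∈ Submonoid.powers x)
  have h1 : ∀ j : ℕ, φ (x ^ j) a = a ↔ Function.minimalPeriod (φ x) a ∣ j := fun j => by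
    rw [← Function.isPeriodicPt_iff_minimalPeriod_dvd, map_pow, Perm.coe_pow]
    rfl
  obtain ⟨b, hb, e⟩ := (Nat.dvd_prime_pow hp).1
    ((h1 (p ^ (k + 1))).1 (by rw [← hx, pow_orderOf_eq_one]; simp))
  rcases Nat.lt_or_eq_of_le hb with hb | rfl
  · exact absurd ((h1 _).2 (e ▸ pow_dvd_pow p (by omega))) ha
  · exact orderOf_dvd_iff_pow_eq_one.1 (by rw [hx, ← e]; exact (h1 i).1 h)

theorem R_le_of_relIndex [Finite H] {φ : H →* Perm Ω} (hφ : alternatingGroup Ω ≤ φ.range)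
    (h5 : 5 ≤ Fintype.card Ω) (S : Subgroup H) (L : ℕ)
    (hL : L.factorial < Nat.card (alternatingGroup Ω)) (hS : S.relIndex (R φ univ) ≤ L) :
    R φ univ ≤ S := by
  set T := S.subgroupOf (R φ univ) with hT
  have h1 : T.normalCore.index ≤ L.factorial := by
    refine le_trans (Nat.le_of_dvd (Nat.factorial_pos _) ?_) (Nat.factorial_le hS)
    rw [Subgroup.normalCore_eq_ker, Subgroup.index_ker, Subgroup.relIndex, Subgroup.index_eq_card,
      ← Nat.card_perm]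
    exact Subgroup.card_subgroup_dvd_card _
  obtain ⟨j, hj, hj1⟩ : ∃ j ∈ T.normalCore, φ j ≠ 1 := by
    by_contra hh
    push Not at hh
    have h2 := Subgroup.index_antitone (show T.normalCore ≤ (φ.comp (R φ univ).subtype).ker from hh)
    have h3 : Nat.card (alternatingGroup Ω) ≤ Nat.card (φ.comp (R φ univ).subtype).range :=
      Subgroup.card_le_of_le fun σ hσ => by
        obtain ⟨r, hr, e⟩ := R_surj (Δ := univ) hφ h5 (σ := σ) ⟨hσ, by simp⟩
        exact ⟨⟨r, hr⟩, e⟩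
    rw [Subgroup.index_ker] at h2
    omega
  refine (R_min hφ h5 (J := T.normalCore.map (R φ univ).subtype) ?_ ⟨j, hj, rfl⟩ j.2 hj1).trans ?_
  · rintro r hr _ ⟨y, hy, rfl⟩
    exact ⟨_, (Subgroup.normalCore_normal T).conj_mem y hy ⟨r, hr⟩, rfl⟩
  · rintro _ ⟨y, hy, rfl⟩
    exact T.normalCore_le hy

theorem chain_of_small {Ω2 : Type} [Fintype Ω2] [DecidableEq Ω2] [Finite H] {φ : H →* Perm Ω}
    (hφ : alternatingGroup Ω ≤ φ.range) (ψ : H →* Perm Ω2) (hψ : Function.Injective ψ) (f x : H)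
    (N D d : ℕ) (hf : φ f ≠ 1) (h1 : #(φ f).support + 4 ≤ Fintype.card Ω)
    (h2 : #(ψ f).support ≤ N) (h3 : #(ψ x).support ≤ D)
    (hL : (4 * N * (D + 4 * N * d)).factorial < Nat.card (alternatingGroup Ω)) :
    ¬ NoChain x d := by
  classical
  intro h
  obtain ⟨a, ha⟩ : ∃ a, φ f a ≠ a := by
    by_contra hh
    push Not at hh
    exact hf (Equiv.ext hh)
  have ha' : φ f (φ f a) ≠ φ f a := (φ f).injective.ne ha
  have h5 : 5 ≤ #(univ : Finset Ω) := by
    have := card_pos.2 ⟨a, mem_support.2 ha⟩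
    rw [card_univ]
    omega
  obtain ⟨t, ht, hc⟩ := exists_subset_card_eq (s := (φ f).supportᶜ) (n := 4)
    (by rw [card_compl]; omega)
  obtain ⟨c, t', hc1, rfl, hc'⟩ := card_eq_succ.1 hc
  obtain ⟨c', y, y', g1, g2, g3, rfl⟩ := card_eq_three.1 hc'
  simp only [mem_insert, mem_singleton, not_or] at hc1
  have fx : ∀ z ∈ insert c ({c', y, y'} : Finset Ω), φ f z = z := fun z hz =>
    notMem_support.1 (mem_compl.1 (ht hz))
  have mk : ∀ w, φ f w = w → ∃ u ∈ R φ univ, #(ψ u).support ≤ 2 * N ∧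
      φ u = swap (φ f a) w * swap a w := by
    intro w hw
    obtain ⟨r, hr, e⟩ := R_surj hφ h5 (swap2_mem (mem_univ a) (mem_univ w) (mem_univ y)
      (mem_univ y') (fun e => ha (e ▸ hw)) g3)
    refine ⟨f * r * f⁻¹ * r⁻¹, mul_mem (R_conj hφ h5 (fun _ _ => mem_univ _) hr) (inv_mem hr),
      ?_, ?_⟩
    · have a1 := (card_le_card (support_mul_le (ψ f) (ψ r * (ψ f)⁻¹ * (ψ r)⁻¹))).trans
        (card_union_le _ _)
      rw [card_support_conj, support_inv] at a1
      have a2 : ψ (f * r * f⁻¹ * r⁻¹) = ψ f * (ψ r * (ψ f)⁻¹ * (ψ r)⁻¹) := by simp [mul_assoc]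
      rw [a2]
      omega
    · have a1 := swap_apply_apply (φ f) a w
      have a2 := swap_apply_apply (φ f) y y'
      rw [hw] at a1
      rw [fx y (by simp), fx y' (by simp), eq_mul_inv_iff_mul_eq] at a2
      have a3 : swap y y' * (φ f)⁻¹ * (swap y y')⁻¹ = (φ f)⁻¹ := by
        rw [(Commute.inv_right a2).eq, mul_inv_cancel_right]
      rw [a1, map_mul, map_mul, map_mul, map_inv, map_inv, e]
      calc _ = φ f * swap a w * (swap y y' * (φ f)⁻¹ * (swap y y')⁻¹) * (swap a w)⁻¹ := by group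
        _ = _ := by rw [a3, swap_inv]
  obtain ⟨u, u1, u2, u3⟩ := mk c (fx c (by simp))
  obtain ⟨v, v1, v2, v3⟩ := mk c' (fx c' (by simp))
  have huv : ¬ Commute u v := fun e => by
    have a1 := congrArg (fun z => φ z a) e.eq
    have b1 : a ≠ c := fun e => ha (e ▸ fx c (by simp))
    have b2 : a ≠ c' := fun e => ha (e ▸ fx c' (by simp))
    have b3 : φ f a ≠ c := fun e => ha' (e ▸ fx c (by simp))
    have b4 : φ f a ≠ c' := fun e => ha' (e ▸ fx c' (by simp))
    simp [u3, v3, swap_apply_of_ne_of_ne, ha, b3, b4, hc1.1] at a1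
  set A := (ψ u).support ∪ (ψ v).support with hA
  have hAc : #A ≤ 4 * N := (card_union_le _ _).trans (by omega)
  have cm : ∀ y z : H, Disjoint (ψ y).support (ψ z).support → Commute y z := fun y z h =>
    hψ (by rw [map_mul, map_mul]; exact (disjoint_iff_disjoint_support.2 h).commute)
  refine h (Finset Ω2) (fun k X => (ψ x).support ⊆ X ∧ #X ≤ D + 4 * N * k)
    (fun X => {y | (ψ y).support ⊆ X}) _ ⟨Subset.rfl, by simpa⟩ fun k hk X hX => ?_
  obtain ⟨g, hg⟩ : ∃ g : H, ∀ α ∈ A, ψ g α ∉ X := by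
    by_contra hh
    push Not at hh
    let St : Ω2 × Ω2 → Subgroup (R φ univ) := fun q =>
      ((MulAction.stabilizer (Perm Ω2) q.1).comap ψ).subgroupOf _
    let γ : Ω2 × Ω2 → R φ univ := fun q =>
      if h : ∃ g : R φ univ, ψ g q.1 = q.2 then h.choose else 1
    obtain ⟨q, hq, -, hi⟩ := Subgroup.exists_index_le_card_of_leftCoset_cover (H := St) (g := γ)
      (s := A ×ˢ X) (Set.eq_univ_of_forall fun g => by
        obtain ⟨α, h1, h2⟩ := hh g
        have h4 : ∃ g' : R φ univ, ψ g' α = ψ g α := ⟨g, rfl⟩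
        refine Set.mem_biUnion (mem_coe.2 (mk_mem_product h1 h2)) ?_
        rw [mem_leftCoset_iff]
        change ψ ((γ (α, ψ g α) : H)⁻¹ * g) α = α
        simp only [γ, dif_pos h4]
        rw [map_mul, map_inv, Perm.mul_apply, Perm.inv_eq_iff_eq, h4.choose_spec])
    have h6 := R_le_of_relIndex hφ h5 ((MulAction.stabilizer (Perm Ω2) q.1).comap ψ) _ hL
      (hi.trans (by
        rw [card_product]
        exact Nat.mul_le_mul hAc (hX.2.trans (by nlinarith))))
    rcases mem_union.1 (mem_product.1 hq).1 with h7 | h7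
    · exact mem_support.1 h7 (h6 u1)
    · exact mem_support.1 h7 (h6 v1)
  have sp : ∀ w : H, (ψ w).support ⊆ A → (ψ (g * w * g⁻¹)).support ⊆ A.map (ψ g).toEmbedding :=
    fun w hw => by
      rw [map_mul, map_mul, map_inv, support_conj]
      exact map_subset_map.2 hw
  have dj : Disjoint X (A.map (ψ g).toEmbedding) := disjoint_right.2 fun y hy => by
    obtain ⟨α, h1, rfl⟩ := mem_map.1 hy
    exact hg α h1
  refine ⟨X ∪ A.map (ψ g).toEmbedding, ⟨hX.1.trans subset_union_left, ?_⟩,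
    fun y hy => Subset.trans hy subset_union_left, g * v * g⁻¹,
    cm _ _ (dj.mono hX.1 (sp v subset_union_right)),
    fun y hy => cm _ _ (dj.mono hy (sp v subset_union_right)), g * u * g⁻¹,
    (sp u subset_union_left).trans subset_union_right,
    cm _ _ (dj.mono hX.1 (sp u subset_union_left)), fun e => huv ?_⟩
  · have := card_union_le X (A.map (ψ g).toEmbedding)
    rw [card_map] at this
    nlinarith [hX.2]
  · simpa [mul_assoc] using e.map (MulAut.conj g⁻¹)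

end Pool.Agent.Lib.MP_679d9b_al.Alt
end
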