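import Mathlib
import Pool.Agent.Lib.MP_679d9b_al.AltFin


/-!
Locally finite groups covered by finite groups mapping onto alternating groups: the three cases.
-/

set_option autoImplicit false

namespace Pool.Agent.Lib.MP_679d9b_al.Alt

open Equiv Subgroup

variable {G : Type} [Group G]

/-- Local finiteness. -/
def LF (G : Type) [Group G] : Prop := ∀ s : Finset G, (closure (s : Set G) : Set G).Finite

theorem LF.exists_fin (hlf : LF G) {s : Set G} (hs : s.Finite) :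
    ∃ F : Subgroup G, Finite F ∧ s ⊆ F :=
  ⟨_, hlf hs.toFinset, fun _ h => subset_closure (by simpa using h)⟩

/-- A finite subgroup with a permutation representation containing the alternating group. -/
structure Lv (G : Type) [Group G] where
  H : Subgroup G
  m : ℕ
  φ : H →* Perm (Fin m)
  fin : Finite H
  alt : alternatingGroup (Fin m) ≤ φ.range

open Classical in
/-- The number of points moved by an element. -/
noncomputable def Lv.deg (L : Lv G) (g : G) : ℕ :=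
  if h : g ∈ L.H then (L.φ ⟨g, h⟩).support.card else 0

theorem Lv.deg_eq (L : Lv G) (g : L.H) : L.deg g = (L.φ g).support.card := dif_pos g.2

theorem Lv.deg_le (L : Lv G) (g : G) : L.deg g ≤ L.m := by
  unfold Lv.deg
  split_ifs
  · exact (Finset.card_le_univ _).trans (by simp)
  · exact Nat.zero_le _

/-- All nontrivial elements of `F` move at least `N` points. -/
def Lv.Deg (L : Lv G) (F : Subgroup G) (N : ℕ) : Prop := F ≤ L.H ∧ ∀ f ∈ F, f ≠ 1 → N ≤ L.deg f

theorem Lv.Deg.mono {L : Lv G} {F F' : Subgroup G} {N N' : ℕ} (h : L.Deg F' N') (hF : F ≤ F')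
    (hN : N ≤ N') : L.Deg F N :=
  ⟨hF.trans h.1, fun f hf h1 => hN.trans (h.2 f (hF hf) h1)⟩

theorem Lv.Deg.inj {L : Lv G} {F : Subgroup G} (h : L.Deg F 1) :
    Function.Injective (L.φ.comp (inclusion h.1)) := by
  rw [injective_iff_map_eq_one]
  intro f hf
  by_contra h1
  have h2 := h.2 f f.2 fun e => h1 (Subtype.ext e)
  have h3 := L.deg_eq (inclusion h.1 f)
  rw [show L.φ (inclusion h.1 f) = 1 from hf, Perm.support_one, Finset.card_empty] at h3
  exact absurd (h2.trans_eq h3) (by simp)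

/-- Degrees are unbounded. -/
def NF (G : Type) [Group G] : Prop := ∀ F : Subgroup G, Finite F → ∀ N, ∃ L : Lv G, L.Deg F N

theorem NF.big [Nontrivial G] (hlf : LF G) (h : NF G) (F : Subgroup G) [Finite F] (N : ℕ) :
    ∃ L : Lv G, L.Deg F N ∧ N ≤ L.m := by
  obtain ⟨g, hg⟩ := exists_ne (1 : G)
  obtain ⟨F', h1, h2⟩ := hlf.exists_fin ((Set.toFinite (F : Set G)).insert g)
  obtain ⟨L, hL⟩ := h F' h1 N
  exact ⟨L, hL.mono (fun f hf => h2 (Set.mem_insert_of_mem _ hf)) le_rfl,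
    (hL.2 g (h2 (Set.mem_insert _ _)) hg).trans (L.deg_le g)⟩

theorem NF.bigP [Nontrivial G] (hlf : LF G) (h : NF G) {p : ℕ} [Fact p.Prime] (F : Subgroup G)
    [Finite F] (hF : IsPGroup p F) (N : ℕ) :
    ∃ F1 : Subgroup G, Finite F1 ∧ IsPGroup p F1 ∧ F ≤ F1 ∧ N ≤ Nat.card F1 := by
  have hp : p.Prime := Fact.out
  obtain ⟨L, hL, hm⟩ := h.big hlf F (p ^ (N + 1))
  have := L.fin
  obtain ⟨P, hP⟩ := (hF.comap_subtype (K := L.H)).exists_le_sylow
  refine ⟨(P : Subgroup L.H).map L.H.subtype, Finite.of_surjective _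
    (MonoidHom.subgroupMap_surjective _ _), P.2.map _, fun f hf => ⟨⟨f, hL.1 hf⟩, hP hf, rfl⟩, ?_⟩
  have h2 : 2 ≤ L.m := (hp.two_le.trans (Nat.le_self_pow (by omega) p)).trans hm
  have : Nontrivial (Fin L.m) := Fin.nontrivial_iff_two_le.2 h2
  have h3 : p ^ (N + 1) ∣ 2 * Nat.card L.H := by
    refine (Nat.dvd_factorial (pow_pos hp.pos _) hm).trans ?_
    have h4 := two_mul_nat_card_alternatingGroup (α := Fin L.m)
    rw [Nat.card_perm, Nat.card_fin] at h4
    rw [← h4]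
    exact Nat.mul_dvd_mul_left 2 ((card_dvd_of_le L.alt).trans (card_range_dvd _))
  have h4 : p ^ N ∣ Nat.card L.H := by
    rcases eq_or_ne p 2 with rfl | h5
    · rw [pow_succ'] at h3
      exact Nat.dvd_of_mul_dvd_mul_left two_pos h3
    · exact ((Nat.coprime_primes hp Nat.prime_two).2 h5).pow_left N |>.dvd_of_dvd_mul_left
        ((pow_dvd_pow p (Nat.le_succ N)).trans h3)
  rw [card_map_of_injective L.H.subtype_injective]
  exact (Nat.lt_pow_self hp.one_lt).le.trans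
    (Nat.le_of_dvd Nat.card_pos (P.pow_dvd_card_of_pow_dvd_card h4))

/-- The stabiliser of a point in `F`. -/
def Lv.St (L : Lv G) (F : Subgroup G) (ω : Fin L.m) : Set G :=
  {g | g ∈ F ∧ ∃ h : g ∈ L.H, L.φ ⟨g, h⟩ ω = ω}

/-- Stabilisers with at most `k` elements occur arbitrarily late. -/
def Freq (F0 : Subgroup G) (k : ℕ) : Prop :=
  ∀ F : Subgroup G, Finite F → F0 ≤ F → ∀ N, ∃ L : Lv G, L.Deg F N ∧ ∃ ω, (L.St F0 ω).ncard ≤ k

theorem case_two [Nontrivial G] (hlf : LF G) (hNF : NF G) {p : ℕ} [Fact p.Prime]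
    (F0 : Subgroup G) [Finite F0] (hF0 : IsPGroup p F0) (h : ¬ Freq F0 1) {x : G} (hx : x ∈ F0)
    (d : ℕ) : ¬ NoChain x d := by
  classical
  have hp : p.Prime := Fact.out
  have hfin : ∀ (L : Lv G) ω, (L.St F0 ω).Finite := fun L ω =>
    (Set.toFinite (F0 : Set G)).subset fun g hg => hg.1
  have hex : ∃ k, Freq F0 k := ⟨(F0 : Set G).ncard, fun F hF _ N => by
    obtain ⟨L, hL, hm⟩ := hNF.big hlf F (N + 1)
    exact ⟨L, hL.mono le_rfl (by omega), ⟨0, by omega⟩,
      Set.ncard_le_ncard (fun g hg => hg.1) (Set.toFinite _)⟩⟩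
  obtain ⟨k0, hk0, hmin⟩ : ∃ k0, Freq F0 k0 ∧ ∀ k < k0, ¬ Freq F0 k :=
    ⟨Nat.find hex, Nat.find_spec hex, fun k => Nat.find_min hex⟩
  have hk2 : 2 ≤ k0 := by
    by_contra hh
    refine h fun F hF hle N => ?_
    obtain ⟨L, hL, ω, hω⟩ := hk0 F hF hle N
    exact ⟨L, hL, ω, by omega⟩
  have h1 := hmin (k0 - 1) (by omega)
  unfold Freq at h1
  push Not at h1
  obtain ⟨F, hF, hle, N, hN⟩ := h1
  let _ := Fintype.ofFinite F0
  obtain ⟨L, hL, a, ha⟩ := hk0 F hF hle
    (N + bd (Fintype.card F0) + bd2 (Fintype.card F0) + 1 + 5 * orderOf x * (d + 1))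
  have := L.fin
  obtain ⟨L2, hL2⟩ := hNF L.H L.fin (N + 1)
  have h2 := hN L2 (hL2.mono hL.1 (by omega))
  obtain ⟨e, he, he1⟩ := Set.exists_ne_of_one_lt_ncard
    (show 1 < (L.St F0 a).ncard by have := hN L (hL.mono le_rfl (by omega)) a; omega) 1
  obtain ⟨K, k1, k2, k3⟩ := solv_red hF0 _ L.H L.φ (inclusion (hle.trans hL.1)) rfl
  let j : F0 →* K := (inclusion (hle.trans hL.1)).codRestrict K fun f => k1 ⟨f, rfl⟩
  have hφ : alternatingGroup (Fin L.m) ≤ (L.φ.comp K.subtype).range := fun σ hσ => by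
    obtain ⟨y, rfl⟩ := L.alt hσ
    obtain ⟨k, hk, e⟩ := k2 y
    exact ⟨⟨k, hk⟩, e⟩
  have hdeg : ∀ f : F0, f ≠ 1 → N + bd (Fintype.card F0) + bd2 (Fintype.card F0) + 1 +
      5 * orderOf x * (d + 1) ≤ ((L.φ.comp K.subtype) (j f)).support.card := fun f hf =>
    (hL.2 f (hle f.2) fun e => hf (Subtype.ext e)).trans_eq (L.deg_eq (j f))
  have hμ : Function.Injective (L.H.subtype.comp K.subtype) :=
    L.H.subtype_injective.comp K.subtype_injective
  have ho : orderOf (j ⟨x, hx⟩) = orderOf x := (orderOf_injective _ hμ _).symm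
  obtain ⟨y, hy1, hy⟩ : ∃ y : F0, y ≠ 1 ∧ ∀ c, (L.φ.comp K.subtype) (j y) c ≠ c →
      ∀ z ∈ zpowers (j ⟨x, hx⟩), (L.φ.comp K.subtype) z c = c → z = 1 := by
    obtain ⟨k, hk⟩ := (IsPGroup.iff_orderOf.1 hF0) ⟨x, hx⟩
    rcases k with _ | k
    · refine ⟨⟨e, he.1⟩, fun h => he1 (congrArg Subtype.val h), fun c _ z hz _ => ?_⟩
      rw [orderOf_eq_one_iff.1 hk, map_one, zpowers_one_eq_bot] at hz
      exact hz
    · refine ⟨⟨x, hx⟩ ^ p ^ k, pow_ne_one_of_lt_orderOf (pow_pos hp.pos k).ne'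
        (hk ▸ Nat.pow_lt_pow_right hp.one_lt (Nat.lt_succ_self k)), fun c hc => ?_⟩
      rw [map_pow] at hc
      exact reg_of_moved _ hp (by rw [ho, ← hk]; exact (Subgroup.orderOf_mk x hx).symm) hc
  refine fun hno => chain_of_commuting hφ (fun Δ Δ' h5 h5' hd r hr r' hr' => commuting hφ k3
    ((L2.φ.comp (inclusion hL2.1)).comp K.subtype)
    ((hL2.mono le_rfl (by omega : 1 ≤ N + 1)).inj.comp K.subtype_injective) j a ⟨e, he.1⟩
    (fun h => he1 (congrArg Subtype.val h)) he.2.2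
    (fun f hf => lt_of_lt_of_le (by omega) (hdeg f hf)) (fun ω => ?_) h5 h5' hd hr hr')
    (j ⟨x, hx⟩) d _ (fun c hc => hy c (Perm.mem_support.1 hc))
    (by rw [ho]; exact le_trans (by omega) (hdeg y hy1))
    (NoChain.comap (L.H.subtype.comp K.subtype) hμ hno)
  by_contra hh
  push Not at hh
  have h3 : L2.St F0 ω ⊂ L.St F0 a :=
    ⟨fun g hg => ⟨hg.1, hL.1 (hle hg.1), hh.1 ⟨g, hg.1⟩ hg.2.2⟩, fun h => hh.2 (h he).2.2⟩
  have := Set.ncard_lt_ncard h3 (hfin L a)
  have := h2 ω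
  omega

theorem case_three [Infinite G] [IsSimpleGroup G] (hlf : LF G)
    (hcov : ∀ F : Subgroup G, Finite F → ∃ L : Lv G, L.Deg F 1) (hNF : ¬ NF G) (x : G) (d : ℕ) :
    ¬ NoChain x d := by
  classical
  unfold NF at hNF
  push Not at hNF
  obtain ⟨F0, hF0, N, hN⟩ := hNF
  obtain ⟨f, hf1, hf⟩ : ∃ f : G, f ≠ 1 ∧ ∀ F : Subgroup G, Finite F →
      ∃ L : Lv G, L.Deg F 1 ∧ L.deg f < N := by
    by_contra hh
    push Not at hh
    choose! A hA1 hA2 using hh
    obtain ⟨F, h1, h2⟩ := hlf.exists_fin ((Set.toFinite (F0 : Set G)).union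
      ((Set.toFinite {f ∈ (F0 : Set G) | f ≠ 1}).biUnion fun f hf => (hA1 f hf.2 : (A f : Set G).Finite)))
    obtain ⟨L, hL⟩ := hcov F h1
    exact hN L ⟨fun g hg => hL.1 (h2 (Or.inl hg)), fun g hg hg1 => hA2 g hg1 L
      (hL.mono (fun y hy => h2 (Or.inr (Set.mem_biUnion (show g ∈ _ from ⟨hg, hg1⟩) hy))) le_rfl)⟩
  let B : Subgroup G :=
    { carrier := {g | ∃ (s : Set G) (c : ℕ), s.Finite ∧ ∀ L : Lv G, s ⊆ L.H →
        L.deg g ≤ c * L.deg f}
      one_mem' := ⟨∅, 0, Set.finite_empty, fun L _ => by simpa using (L.deg_eq 1).le⟩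
      mul_mem' := by
        rintro a b ⟨s, c, hs, h⟩ ⟨s', c', hs', h'⟩
        refine ⟨insert a (insert b (s ∪ s')), c + c', ((hs.union hs').insert b).insert a,
          fun L hL => ?_⟩
        have ha : a ∈ L.H := hL (by simp)
        have hb : b ∈ L.H := hL (by simp)
        have h1 := h L fun y hy => hL (by simp [hy])
        have h2 := h' L fun y hy => hL (by simp [hy])
        have h3 := (Finset.card_le_card (Perm.support_mul_le (L.φ ⟨a, ha⟩) (L.φ ⟨b, hb⟩))).trans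
          (Finset.card_union_le _ _)
        rw [← map_mul, ← L.deg_eq, ← L.deg_eq, ← L.deg_eq] at h3
        rw [add_mul]
        exact h3.trans (Nat.add_le_add h1 h2)
      inv_mem' := by
        rintro a ⟨s, c, hs, h⟩
        refine ⟨insert a s, c, hs.insert a, fun L hL => ?_⟩
        have ha : a ∈ L.H := hL (by simp)
        have h1 := L.deg_eq (⟨a, ha⟩⁻¹)
        rw [map_inv, Perm.support_inv, ← L.deg_eq] at h1
        exact h1.le.trans (h L fun y hy => hL (by simp [hy])) }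
  have hBn : B.Normal := ⟨by
    rintro a ⟨s, c, hs, h⟩ g
    refine ⟨insert a (insert g s), c, (hs.insert g).insert a, fun L hL => ?_⟩
    have ha : a ∈ L.H := hL (by simp)
    have hg : g ∈ L.H := hL (by simp)
    have h1 := L.deg_eq (⟨g, hg⟩ * ⟨a, ha⟩ * ⟨g, hg⟩⁻¹)
    rw [map_mul, map_mul, map_inv, Perm.card_support_conj, ← L.deg_eq] at h1
    exact h1.le.trans (h L fun y hy => hL (by simp [hy]))⟩
  obtain ⟨s, c, hs, hc⟩ : x ∈ B := by
    rcases hBn.eq_bot_or_eq_top with h | h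
    · have : f ∈ B := ⟨∅, 1, Set.finite_empty, fun L _ => by simp⟩
      rw [h] at this
      exact absurd this hf1
    · rw [h]
      trivial
  set M := 4 * N * (c * N + 4 * N * d) with hM
  obtain ⟨t, ht⟩ := Infinite.exists_subset_card_eq G ((M + N + 4).factorial + 1)
  obtain ⟨F, h1, h2⟩ := hlf.exists_fin (((hs.union t.finite_toSet).insert f).insert x)
  obtain ⟨L, hL, hLf⟩ := hf F h1
  have := L.fin
  obtain ⟨L2, hL2, hLf2⟩ := hf L.H L.fin
  have hm : M + N + 4 < L.m := by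
    have a1 : Nat.card F ≤ L.m.factorial := by
      simpa [Fintype.card_perm] using Nat.card_le_card_of_injective _ hL.inj
    have a2 : t.card ≤ Nat.card F := by
      rw [← Set.ncard_coe_finset]
      exact Set.ncard_le_ncard (fun y hy => h2 (by simp [hy])) (Set.toFinite (F : Set G))
    by_contra hh
    have := Nat.factorial_le (not_lt.1 hh)
    omega
  have hfF : f ∈ F := h2 (by simp)
  have hxF : x ∈ F := h2 (by simp)
  refine fun hno => chain_of_small L.alt _ hL2.inj ⟨f, hL.1 hfF⟩ ⟨x, hL.1 hxF⟩ N (c * N) d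
    (fun h => hf1 (congrArg Subtype.val (hL.inj (a₁ := ⟨f, hfF⟩) (h.trans (map_one _).symm))))
    ?_ ?_ ?_ ?_ (NoChain.comap L.H.subtype L.H.subtype_injective hno)
  · rw [← L.deg_eq, Fintype.card_fin]
    change L.deg f + 4 ≤ _
    omega
  · exact (L2.deg_eq _).ge.trans hLf2.le
  · exact (L2.deg_eq _).ge.trans ((hc L2 fun y hy => hL2.1 (hL.1 (h2 (by simp [hy])))).trans
      (Nat.mul_le_mul_left c hLf2.le))
  · have : Nontrivial (Fin L.m) := Fin.nontrivial_iff_two_le.2 (by omega)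
    have h4 := two_mul_nat_card_alternatingGroup (α := Fin L.m)
    rw [Nat.card_perm, Nat.card_fin] at h4
    have h5 : (M + 1 + 1 + 1).factorial ≤ _ := Nat.factorial_le (show _ ≤ L.m by omega)
    have h6 := Nat.factorial_pos M
    rw [Nat.factorial_succ, Nat.factorial_succ, Nat.factorial_succ] at h5
    have h7 : 3 * (2 * (1 * M.factorial)) ≤
        (M + 1 + 1 + 1) * ((M + 1 + 1) * ((M + 1) * M.factorial)) := by
      gcongr <;> omega
    have h8 := h7.trans h5
    rw [← hM]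
    omega

theorem cover_p [Nontrivial G] (hlf : LF G) (hNF : NF G) {p : ℕ} [Fact p.Prime] {x : G}
    (hreg : ∀ F : Subgroup G, Finite F → IsPGroup p F → x ∈ F → Freq F 1)
    (F : Subgroup G) [Finite F] (hF : IsPGroup p F) (hx : x ∈ F) (Γ : Type) [Group Γ] [Finite Γ]
    (ι : F →* Γ) (hι : Function.Injective ι) :
    ∃ (H : Type) (_ : Group H) (_ : Finite H) (μ : H →* G) (j : F →* H) (ψ : H →* Γ),
      Function.Injective μ ∧ (∀ f, μ (j f) = f) ∧ Function.Surjective ψ ∧ ∀ f, ψ (j f) = ι f := by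
  classical
  obtain ⟨F1, hF1, hF1p, hFF1, hc⟩ := hNF.bigP hlf F hF (Nat.card (Γ × Bool))
  obtain ⟨⟨H, n, φ, hHf, hφ⟩, ⟨hH, -⟩, ω, hω'⟩ := hreg F1 hF1 hF1p (hFF1 hx) F1 hF1 le_rfl 0
  have hω : ∀ f : F1, φ (inclusion hH f) ω = ω → f = 1 := fun f hf => Subtype.ext
    ((Set.ncard_le_one ((Set.toFinite (F1 : Set G)).subset fun g hg => hg.1)).1 hω' f
      ⟨f.2, hH f.2, hf⟩ 1 ⟨one_mem _, one_mem _, by
        change φ 1 ω = ω
        simp⟩)
  let _ : MulAction F (Γ × Bool) :=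
    { smul := fun f a => (ι f * a.1, a.2)
      one_smul := fun a => by
        change (ι 1 * a.1, a.2) = a
        simp
      mul_smul := fun f g a => by
        change (ι (f * g) * a.1, a.2) = (ι f * (ι g * a.1), a.2)
        rw [map_mul, mul_assoc] }
  let _ : MulAction F F1 := MulAction.compHom F1 (inclusion hFF1)
  obtain ⟨e0, he0, he0'⟩ := exists_equivariant (F := F) (A := Γ × Bool) (B := F1)
    (fun f a h => hι (by
      have h1 : ι f * a.1 = a.1 := congrArg Prod.fst h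
      rw [map_one]; exact mul_eq_right.1 h1))
    (fun f b h => inclusion_injective hFF1 (by
      have h1 : inclusion hFF1 f * b = b := h
      rw [map_one]; exact mul_eq_right.1 h1)) hc
  let e : Γ × Bool ↪ Fin n := ⟨fun a => φ (inclusion hH (e0 a)) ω, fun a b h => he0 (by
    have h1 := hω ((e0 b)⁻¹ * e0 a) (by
      rw [map_mul, map_mul, map_inv, map_inv, Equiv.Perm.mul_apply, Equiv.Perm.inv_eq_iff_eq]
      exact h)
    exact (inv_mul_eq_one.1 h1).symm)⟩
  let R : Subgroup (H × Γ) :=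
    { carrier := {x | ∀ y b, φ x.1 (e (y, b)) = e (x.2 * y, b)}
      one_mem' := fun y b => by simp
      mul_mem' := fun {x x'} hx hx' y b => by
        rw [Prod.fst_mul, map_mul, Equiv.Perm.mul_apply, hx', hx, Prod.snd_mul, mul_assoc]
      inv_mem' := fun {x} hx y b => by
        rw [Prod.fst_inv, map_inv, Equiv.Perm.inv_eq_iff_eq, hx, Prod.snd_inv,
          mul_inv_cancel_left] }
  refine ⟨R, inferInstance, inferInstance, H.subtype.comp ((MonoidHom.fst _ _).comp R.subtype),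
    ((inclusion (hFF1.trans hH)).prod ι).codRestrict R fun f y b => ?_,
    (MonoidHom.snd _ _).comp R.subtype, ?_, fun _ => rfl, fun γ => ?_, fun _ => rfl⟩
  · change φ (inclusion hH (inclusion hFF1 f)) (φ (inclusion hH (e0 (y, b))) ω) =
      φ (inclusion hH (e0 (f • (y, b)))) ω
    rw [he0', ← Equiv.Perm.mul_apply, ← map_mul, ← map_mul]
    rfl
  · rw [injective_iff_map_eq_one]
    rintro ⟨⟨h, γ⟩, hx⟩ h1
    have h2 : h = 1 := Subtype.ext h1
    subst h2
    have h3 := hx 1 true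
    rw [map_one, Equiv.Perm.one_apply, mul_one] at h3
    exact Subtype.ext (Prod.ext rfl (congrArg Prod.fst (e.injective h3)).symm)
  · let _ := Fintype.ofFinite Γ
    obtain ⟨h, hh⟩ := hφ (x := Equiv.Perm.viaFintypeEmbedding
      (Equiv.prodCongrLeft fun _ : Bool => Equiv.mulLeft γ) e) (by
        rw [Equiv.Perm.mem_alternatingGroup, Equiv.Perm.viaFintypeEmbedding_sign,
          Equiv.Perm.sign_prodCongrLeft]
        simp)
    refine ⟨⟨(h, γ), fun y b => ?_⟩, rfl⟩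
    rw [hh, Equiv.Perm.viaFintypeEmbedding_apply_image]
    rfl

theorem step_p [Nontrivial G] (hlf : LF G) (hNF : NF G) {p : ℕ} [Fact p.Prime] {x : G}
    (hreg : ∀ F : Subgroup G, Finite F → IsPGroup p F → x ∈ F → Freq F 1)
    (F : Subgroup G) [Finite F] (hF : IsPGroup p F) (hx : x ∈ F) (hFx : F ≤ centralizer {x}) :
    ∃ F2 : Subgroup G, Finite F2 ∧ IsPGroup p F2 ∧ F ≤ F2 ∧ F2 ≤ centralizer {x} ∧
      ∃ c, (∀ f ∈ F, Commute f c) ∧ ∃ g ∈ F2, ¬ Commute g c := by
  obtain ⟨F2, hF2, hF2p, hle, hF2x, g, hg, hgF⟩ : ∃ F2 : Subgroup G, Finite F2 ∧ IsPGroup p F2 ∧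
      F ≤ F2 ∧ F2 ≤ centralizer {x} ∧ ∃ g ∈ F2, g ∉ F := by
    obtain ⟨H, _, _, μ, j, ψ, hμ, hj, hψ, hψj⟩ := cover_p hlf hNF hreg F hF hx
      (F × Multiplicative (ZMod p)) (MonoidHom.inl _ _) fun a b h => congrArg Prod.fst h
    obtain ⟨R, hR⟩ := (hF.of_surjective _ j.rangeRestrict_surjective).exists_le_sylow
    have hΓ : IsPGroup p (F × Multiplicative (ZMod p)) := by
      obtain ⟨n, hn⟩ := IsPGroup.iff_card.1 hF
      exact IsPGroup.of_card (n := n + 1) (by simp [hn, pow_succ])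
    have h1 := (R.mapSurjective hψ).3 (Q := ⊤) (hΓ.to_subgroup ⊤) le_top
    have h2 : Function.Surjective (ψ.comp (R : Subgroup H).subtype) := fun γ => by
      have h2 : γ ∈ (R.mapSurjective hψ).1 := by rw [← h1]; trivial
      obtain ⟨r, hr, rfl⟩ := h2
      exact ⟨⟨r, hr⟩, rfl⟩
    have h3 := card_le_centralizer _ h2 ⟨j ⟨x, hx⟩, hR ⟨_, rfl⟩⟩ fun γ => by
      change γ * ψ (j ⟨x, hx⟩) = ψ (j ⟨x, hx⟩) * γ
      rw [hψj]
      exact Prod.ext (Subtype.ext (mem_centralizer_singleton_iff.1 (hFx γ.1.2))) (by simp)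
    have hinj : Function.Injective (μ.comp (R : Subgroup H).subtype) :=
      hμ.comp Subtype.val_injective
    refine ⟨(centralizer {⟨j ⟨x, hx⟩, hR ⟨_, rfl⟩⟩}).map (μ.comp (R : Subgroup H).subtype),
      Finite.of_surjective _ (MonoidHom.subgroupMap_surjective _ _), (R.2.to_subgroup _).map _,
      fun f hf => ⟨⟨j ⟨f, hf⟩, hR ⟨_, rfl⟩⟩, mem_centralizer_singleton_iff.2 (hinj ?_), hj _⟩,
      ?_, ?_⟩
    · change μ (j _ * j _) = μ (j _ * j _)
      rw [map_mul, map_mul, hj, hj]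
      exact mem_centralizer_singleton_iff.1 (hFx hf)
    · rintro _ ⟨r, hr, rfl⟩
      have h4 := congrArg (μ.comp (R : Subgroup H).subtype) (mem_centralizer_singleton_iff.1 hr)
      rw [map_mul, map_mul] at h4
      have h5 : (μ.comp (R : Subgroup H).subtype) ⟨j ⟨x, hx⟩, hR ⟨_, rfl⟩⟩ = x := hj _
      rw [h5] at h4
      exact mem_centralizer_singleton_iff.2 h4
    · by_contra hcon
      push Not at hcon
      have h4 := card_le_of_le (show _ ≤ F from hcon)
      rw [card_map_of_injective hinj] at h4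
      have h5 := h3.trans h4
      rw [Nat.card_prod, Nat.card_congr (Multiplicative.toAdd (α := ZMod p)), Nat.card_zmod] at h5
      have h6 : 0 < Nat.card F := Nat.card_pos
      have h7 := (Fact.out : p.Prime).one_lt
      nlinarith
  obtain ⟨Γ, _, _, ι, hι, hmain⟩ := main_lemma hF2p
  obtain ⟨H, _, _, μ, j, ψ, hμ, hj, hψ, hψj⟩ := cover_p hlf hNF hreg F2 hF2p (hle hx) Γ ι hι
  obtain ⟨c, hc, hcg⟩ := hmain H ψ j hψ hψj (F.subgroupOf F2) ⟨g, hg⟩ hgF
  refine ⟨F2, hF2, hF2p, hle, hF2x, μ c, fun f hf => ?_, g, hg, fun h => hcg (hμ ?_)⟩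
  · have h1 := (hc ⟨f, hle hf⟩ hf).map μ
    rwa [hj] at h1
  · rw [map_mul, map_mul, hj]
    exact h.eq

theorem of_nf [Nontrivial G] (hlf : LF G) (hNF : NF G) {p k : ℕ} (hp : p.Prime) {x : G}
    (hx : x ^ p ^ k = 1) (d : ℕ) : ¬ NoChain x d := by
  have := Fact.mk hp
  by_cases hreg : ∀ F : Subgroup G, Finite F → IsPGroup p F → x ∈ F → Freq F 1
  · intro h
    refine h (Subgroup G) (fun _ F => Finite F ∧ IsPGroup p F ∧ x ∈ F ∧ F ≤ centralizer {x})
      (fun F => F) (zpowers x) ⟨(finite_zpowers.2 (isOfFinOrder_iff_pow_eq_one.2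
        ⟨p ^ k, pow_pos hp.pos k, hx⟩)).to_subtype, isPGroup_zpowers hx, mem_zpowers x,
        zpowers_le.2 (mem_centralizer_singleton_iff.2 rfl)⟩ ?_
    rintro _ - F ⟨h1, h2, h3, h4⟩
    obtain ⟨F2, g1, g2, g3, g4, c, hc, g, hg, hgc⟩ := step_p hlf hNF hreg F h2 h3 h4
    exact ⟨F2, ⟨g1, g2, g3 h3, g4⟩, g3, c, hc x h3, hc, g, hg,
      (mem_centralizer_singleton_iff.1 (g4 hg)).symm, hgc⟩
  · push Not at hreg
    obtain ⟨F, h1, h2, h3, h4⟩ := hreg
    exact case_two hlf hNF F h2 h4 h3 d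

theorem of_cover [Infinite G] [IsSimpleGroup G] (hlf : LF G)
    (hcov : ∀ F : Subgroup G, Finite F → ∃ L : Lv G, L.Deg F 1) {p k : ℕ} (hp : p.Prime) {x : G}
    (hx : x ^ p ^ k = 1) (d : ℕ) : ¬ NoChain x d := by
  by_cases hNF : NF G
  · exact of_nf hlf hNF hp hx d
  · exact case_three hlf hcov hNF x d

end Pool.Agent.Lib.MP_679d9b_al.Alt
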